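import Pool.Graph.R_seed8.H393R2.CV
import Pool.Agent.H723.QP.Base

/-! Definitions for several numbers. -/

set_option autoImplicit false

open Finset

namespace Pool.Agent.H723.QJ

open Pool.Agent.H393R2 Pool.Agent.H723.QP

/-- the transformed coefficients, for several numbers -/
def dJv {R : Type*} [CommRing R] {m n : ℕ} (r : Fin m → ℕ) (Y : Fin n) (ξ : Fin n → R)
    (c : (Fin m → Fin n → ℕ) → ℤ) (J : Fin m → Fin n → ℕ) : R :=
  ∑ a ∈ Dset m n r, (c a : R) * ∏ h : Fin m, ∏ l ∈ (Finset.univ : Finset (Fin n)).erase Y,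
            ((((a h l).choose (J h l) : ℕ) : R) * ξ l ^ (a h l - J h l))

/-- admissible exponents: separated -/
def AdmV (R : ℕ) (κ ρ : ℝ) (L : ℕ) (e : Fin R → ℕ) : Prop :=
  (∀ i, L ≤ e i) ∧ (∀ i, (e i : ℝ) ≤ ρ * L) ∧ (∀ i j, i ≠ j → κ * L ≤ |(e i : ℝ) - e j|)

/-- good approximations by small combinations of the `α i * b ^ (e c)`, with separated exponents,
at the scale `L`; only the pairs `(c, i)` in the list `g` are used -/
def BadV (b : ℕ) {k R : ℕ} (α : Fin k → ℝ) (s : ℕ) (g : Fin s → Fin R × Fin k)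
    (η ε κ ρ : ℝ) (L : ℕ) : Prop :=
  ∃ e : Fin R → ℕ, AdmV R κ ρ L e ∧
    ∃ lam : Fin s → ℤ, lam ≠ 0 ∧ (∀ j, |(lam j : ℝ)| ≤ Real.exp (ε * (L * Real.log b))) ∧
      ∃ P : ℤ, |∑ j, (lam j : ℝ) * (α (g j).2 * (b : ℝ) ^ (e (g j).1)) - P| ≤
        Real.exp (-(η * (L * Real.log b)))

/-- an approximation by `R` powers, with small multiples of the `α i` as coefficients -/
def ExV (b : ℕ) {k : ℕ} (α : Fin k → ℝ) (R : ℕ) (η ε ρ : ℝ) (L : ℕ) : Prop :=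
  ∃ e : Fin R → ℕ, (∀ c, L ≤ e c) ∧ (∀ c, (e c : ℝ) ≤ ρ * L) ∧
    ∃ lam : Fin R → Fin k → ℤ, (∀ c i, |(lam c i : ℝ)| ≤ Real.exp (ε * (L * Real.log b))) ∧
      (∃ i, ∑ c, lam c i * (b : ℤ) ^ (e c) ≠ 0) ∧
      ∃ P : ℤ, |∑ c, (∑ i, (lam c i : ℝ) * α i) * (b : ℝ) ^ (e c) - P| ≤
        Real.exp (-(η * (L * Real.log b)))

/-- at most `D` windows of digits of the numbers `α i` which are linearly dependent over the real
numbers -/
def DepV (b : ℕ) {k : ℕ} (α : Fin k → ℝ) (D : ℕ) (C : ℝ) (m : ℕ) : Prop :=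
  ∃ D', D' ≤ D ∧ ∃ t : Fin D' → Fin k × ℕ, Function.Injective t ∧
    (∀ j, ((t j).2 : ℝ) ≤ C * m) ∧
    ¬ LinearIndependent ℝ (fun (j : Fin D') (i : Fin m) =>
      (dg b (α (t j).1) ((t j).2 + i + 1) : ℝ))

end Pool.Agent.H723.QJ
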