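import Mathlib

/-! Instructions which write the digits of one number with the help of the digits of others. -/

set_option autoImplicit false

open Finset

namespace Pool.Agent.H723.QJ

/-- the block of `v` at the places `s ≤ t < e` is an affine copy of at most `D` windows: earlier
windows of `v`, and windows of the words `u i`, `i ≠ i₀`, which start at places `≤ K * s` -/
def IsCopyS {k : ℕ} (i₀ : Fin k) (D K : ℕ) (u : Fin k → ℕ → ℝ) (v : ℕ → ℝ) (s e : ℕ) : Prop :=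
  ∃ (S : Finset ℕ) (T : Finset (Fin k × ℕ)) (a : ℝ) (c : ℕ → ℝ) (c' : Fin k × ℕ → ℝ),
    #S + #T ≤ D ∧ (∀ d ∈ S, 0 < d ∧ d ≤ s) ∧ (∀ x ∈ T, x.1 ≠ i₀ ∧ x.2 ≤ K * s) ∧
    ∀ t, s ≤ t → t < e →
      v t = a + ∑ d ∈ S, c d * v (t - d) + ∑ x ∈ T, c' x * u x.1 (x.2 + (t - s))

/-- the first `N` letters of `v` are written by `z` instructions: letters, and blocks as above -/
inductive ProducesS {k : ℕ} (i₀ : Fin k) (D K : ℕ) (u : Fin k → ℕ → ℝ) (v : ℕ → ℝ) :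
    ℕ → ℕ → Prop
  | nil : ProducesS i₀ D K u v 0 0
  | letter {N z : ℕ} : ProducesS i₀ D K u v N z → ProducesS i₀ D K u v (N + 1) (z + 1)
  | copy {N M z : ℕ} : ProducesS i₀ D K u v N z → N ≤ M → IsCopyS i₀ D K u v N M →
      ProducesS i₀ D K u v M (z + 1)

/-- the same without the constant -/
def LinCopyS {k : ℕ} (i₀ : Fin k) (D K : ℕ) (u : Fin k → ℕ → ℝ) (v : ℕ → ℝ) (s e : ℕ) : Prop :=
  ∃ (S : Finset ℕ) (T : Finset (Fin k × ℕ)) (c : ℕ → ℝ) (c' : Fin k × ℕ → ℝ),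
    #S + #T ≤ D ∧ (∀ d ∈ S, 0 < d ∧ d ≤ s) ∧ (∀ x ∈ T, x.1 ≠ i₀ ∧ x.2 ≤ K * s) ∧
    ∀ t, s ≤ t → t < e →
      v t = ∑ d ∈ S, c d * v (t - d) + ∑ x ∈ T, c' x * u x.1 (x.2 + (t - s))

end Pool.Agent.H723.QJ
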