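import Mathlib
import Pool.Agent.H723.QP.Base
import Pool.Agent.H723.QJ.LzDefs

/-! The breakpoints of a parsing. -/

set_option autoImplicit false

open Finset

namespace Pool.Agent.H723.QJ

open Pool.Agent.H723.QP

/-- The constant is removed by taking differences. -/
theorem IsCopyS.toLin {k : ℕ} {i₀ : Fin k} {D K : ℕ} (hK : 1 ≤ K) {u : Fin k → ℕ → ℝ} {v : ℕ → ℝ}
    {s e : ℕ} (h : IsCopyS i₀ D K u v s e) : LinCopyS i₀ (2 * D + 1) K u v (s + 1) e := by
  classical
  obtain ⟨S, T, a, c, c', hST, hd, hT, hv⟩ := h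
  set S₁ := S.image Nat.succ with hS₁
  set T₁ := T.image (fun x : Fin k × ℕ => (x.1, x.2 + 1)) with hT₁
  refine ⟨insert 1 (S ∪ S₁), T ∪ T₁, fun d => (if d = 1 then 1 else 0) + (if d ∈ S then c d else 0) -
    (if d ∈ S₁ then c (d - 1) else 0),
    fun y => (if y ∈ T₁ then c' (y.1, y.2 - 1) else 0) - (if y ∈ T then c' y else 0), ?_, ?_, ?_, ?_⟩
  · have h1 : (insert 1 (S ∪ S₁)).card ≤ (S ∪ S₁).card + 1 := Finset.card_insert_le _ _
    have h2 : (S ∪ S₁).card ≤ S.card + S₁.card := Finset.card_union_le _ _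
    have h3 : S₁.card ≤ S.card := Finset.card_image_le
    have h4 : (T ∪ T₁).card ≤ T.card + T₁.card := Finset.card_union_le _ _
    have h5 : T₁.card ≤ T.card := Finset.card_image_le
    omega
  · intro d hd'
    rcases Finset.mem_insert.1 hd' with rfl | hd'
    · omega
    · rcases Finset.mem_union.1 hd' with hd' | hd'
      · have := hd d hd'
        omega
      · obtain ⟨x, hx, rfl⟩ := Finset.mem_image.1 hd'
        have := hd x hx
        omega
  · intro y hy
    rcases Finset.mem_union.1 hy with hy | hy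
    · have := hT y hy
      exact ⟨this.1, this.2.trans (Nat.mul_le_mul_left K (Nat.le_succ s))⟩
    · obtain ⟨x, hx, rfl⟩ := Finset.mem_image.1 hy
      have := hT x hx
      refine ⟨this.1, ?_⟩
      show x.2 + 1 ≤ K * (s + 1)
      rw [Nat.mul_add, Nat.mul_one]
      omega
  · intro t ht1 ht2
    have h1 := hv t (by omega) ht2
    have h2 := hv (t - 1) (by omega) (by omega)
    have e1 : ∑ d ∈ insert 1 (S ∪ S₁), (if d = 1 then (1 : ℝ) else 0) * v (t - d) = v (t - 1) := by
      rw [Finset.sum_eq_single 1]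
      · simp
      · intro d _ hd1
        simp [hd1]
      · intro h
        exact absurd (Finset.mem_insert_self _ _) h
    have e2 : ∑ d ∈ insert 1 (S ∪ S₁), (if d ∈ S then c d else 0) * v (t - d) =
        ∑ d ∈ S, c d * v (t - d) := by
      rw [← Finset.sum_subset (s₁ := S) (fun d hd => Finset.mem_insert_of_mem
        (Finset.mem_union_left _ hd)) (fun d _ hd => by simp [hd])]
      exact Finset.sum_congr rfl fun d hd => by simp [hd]
    have e3 : ∑ d ∈ insert 1 (S ∪ S₁), (if d ∈ S₁ then c (d - 1) else 0) * v (t - d) =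
        ∑ d ∈ S, c d * v (t - 1 - d) := by
      rw [← Finset.sum_subset (s₁ := S₁) (fun d hd => Finset.mem_insert_of_mem
        (Finset.mem_union_right _ hd)) (fun d _ hd => by simp [hd])]
      rw [hS₁, Finset.sum_image (fun x _ y _ h => Nat.succ_injective h)]
      apply Finset.sum_congr rfl
      intro d hd
      have : d.succ ∈ S.image Nat.succ := Finset.mem_image_of_mem _ hd
      rw [if_pos this]
      congr 2
      omega
    have e4 : ∑ y ∈ T ∪ T₁, (if y ∈ T₁ then c' (y.1, y.2 - 1) else 0) *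
        u y.1 (y.2 + (t - (s + 1))) = ∑ x ∈ T, c' x * u x.1 (x.2 + (t - s)) := by
      rw [← Finset.sum_subset (s₁ := T₁) Finset.subset_union_right (fun y _ hy => by simp [hy])]
      rw [hT₁, Finset.sum_image (fun x _ y _ h => by
        have h1 := congrArg Prod.fst h
        have h2 := congrArg Prod.snd h
        simp only at h1 h2
        exact Prod.ext h1 (by omega))]
      apply Finset.sum_congr rfl
      intro x hx
      have hm : (x.1, x.2 + 1) ∈ T.image (fun x : Fin k × ℕ => (x.1, x.2 + 1)) :=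
        Finset.mem_image_of_mem (fun x : Fin k × ℕ => (x.1, x.2 + 1)) hx
      rw [if_pos hm]
      simp only [Nat.add_sub_cancel]
      rw [show x.2 + 1 + (t - (s + 1)) = x.2 + (t - s) by omega]
    have e5 : ∑ y ∈ T ∪ T₁, (if y ∈ T then c' y else 0) *
        u y.1 (y.2 + (t - (s + 1))) = ∑ x ∈ T, c' x * u x.1 (x.2 + (t - 1 - s)) := by
      rw [← Finset.sum_subset (s₁ := T) Finset.subset_union_left (fun y _ hy => by simp [hy])]
      apply Finset.sum_congr rfl
      intro x hx
      rw [if_pos hx, show t - (s + 1) = t - 1 - s by omega]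
    simp only [sub_mul, add_mul, Finset.sum_sub_distrib, Finset.sum_add_distrib]
    rw [e1, e2, e3, e4, e5, h1, h2]
    ring

/-- A part of a copied block is a copied block. -/
theorem LinCopyS.sub {k : ℕ} {i₀ : Fin k} {D K : ℕ} (hK : 1 ≤ K) {u : Fin k → ℕ → ℝ} {v : ℕ → ℝ}
    {s e s' e' : ℕ} (h : LinCopyS i₀ D K u v s e) (hs : s ≤ s') (he : e' ≤ e) :
    LinCopyS i₀ D K u v s' e' := by
  classical
  obtain ⟨S, T, c, c', hST, hd, hT, hv⟩ := h
  refine ⟨S, T.image (fun x : Fin k × ℕ => (x.1, x.2 + (s' - s))), c,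
    fun y => c' (y.1, y.2 - (s' - s)), ?_, ?_, ?_, ?_⟩
  · have h5 : (T.image (fun x : Fin k × ℕ => (x.1, x.2 + (s' - s)))).card ≤ T.card :=
      Finset.card_image_le
    omega
  · intro d hd'
    have := hd d hd'
    omega
  · intro y hy
    obtain ⟨x, hx, rfl⟩ := Finset.mem_image.1 hy
    have := hT x hx
    refine ⟨this.1, ?_⟩
    show x.2 + (s' - s) ≤ K * s'
    have h1 : K * s + (s' - s) ≤ K * s' := by
      obtain ⟨r, rfl⟩ := Nat.exists_eq_add_of_le hs
      rw [Nat.mul_add, Nat.add_sub_cancel_left]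
      have : 1 * r ≤ K * r := Nat.mul_le_mul_right r hK
      omega
    omega
  · intro t ht1 ht2
    rw [hv t (by omega) (by omega), Finset.sum_image (fun x _ y _ h => by
        have h1 := congrArg Prod.fst h
        have h2 := congrArg Prod.snd h
        simp only at h1 h2
        exact Prod.ext h1 (by omega))]
    congr 1
    apply Finset.sum_congr rfl
    intro x _
    simp only [Nat.add_sub_cancel]
    rw [show x.2 + (s' - s) + (t - s') = x.2 + (t - s) by omega]

/-- Off the breakpoints the word is copied. -/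
theorem brkS {k : ℕ} {i₀ : Fin k} {D K : ℕ} (hK : 1 ≤ K) {u : Fin k → ℕ → ℝ} {v : ℕ → ℝ}
    {N z : ℕ} (h : ProducesS i₀ D K u v N z) :
    Brk (LinCopyS i₀ (2 * D + 1) K u) v N z := by
  classical
  induction h with
  | nil =>
    exact ⟨∅, by simp, fun s e h0 h1 h2 _ => by omega⟩
  | @letter N z _ ih =>
    obtain ⟨B, hB, h⟩ := ih
    refine ⟨insert N B, (Finset.card_insert_le _ _).trans (by omega), ?_⟩
    intro s e h0 h1 h2 h3
    rcases Nat.lt_or_ge N e with h4 | h4
    · have := h3 N (Finset.mem_insert_self _ _)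
      omega
    · exact h s e h0 h1 h4 (fun x hx => h3 x (Finset.mem_insert_of_mem hx))
  | @copy N M z _ hNM hc ih =>
    obtain ⟨B, hB, h⟩ := ih
    refine ⟨insert N (insert (N + 1) B), ?_, ?_⟩
    · have h1 : (insert N (insert (N + 1) B)).card ≤ (insert (N + 1) B).card + 1 :=
        Finset.card_insert_le _ _
      have h2 : (insert (N + 1) B).card ≤ B.card + 1 := Finset.card_insert_le _ _
      omega
    intro s e h0 h1 h2 h3
    rcases Nat.lt_or_ge N e with h4 | h4
    · have h5 := h3 N (Finset.mem_insert_self _ _)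
      have h6 := h3 (N + 1) (Finset.mem_insert_of_mem (Finset.mem_insert_self _ _))
      exact (hc.toLin hK).sub hK (by omega) h2
    · exact h s e h0 h1 h4 (fun x hx => h3 x (Finset.mem_insert_of_mem (Finset.mem_insert_of_mem hx)))

end Pool.Agent.H723.QJ
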