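import Mathlib
import Pool.Agent.H723.QP.W4a
import Pool.Agent.H723.QJ.Defs
import Pool.Agent.H723.QJ.LzDefs

/-! A long copy with the help of the other numbers makes errors, unless some windows depend. -/

set_option autoImplicit false

open Finset

namespace Pool.Agent.H723.QJ

open Pool.Agent.H723.QP

theorem locS {k : ℕ} (b : ℕ) (α : Fin k → ℝ) (i₀ : Fin k) (D K : ℕ) (hK : 1 ≤ K) :
    Loc b (α i₀) (D + 1) (fun C => DepV b α (D + 1) (K * C))
      (LinCopyS i₀ D K (fun i t => (dg b (α i) (t + 1) : ℝ))) := by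
  classical
  intro E ρ j hj hQj hM s hs1 hs v hcopy
  by_contra hcon
  push Not at hcon
  obtain ⟨S, T, c, c', hST, hd, hx, hv⟩ := hcopy
  obtain ⟨t₀, h1, h2, h3, h4⟩ := loc_common b (α i₀) (D + 1) E ρ j hj hQj s hs v (insert 0 S)
    ((Finset.card_insert_le _ _).trans (by omega)) (by
      intro x hx
      rcases Finset.mem_insert.1 hx with rfl | hx
      · omega
      · exact (hd x hx).2) hcon
  set m := 2 ^ (j - ρ - 1) / ((D + 1) * E + 1) with hm
  set Q := (D + 1) * E + 1 with hQ
  have hst : s ≤ t₀ := by omega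
  -- the windows
  obtain ⟨W, hW⟩ : ∃ W : Finset (Fin k × ℕ), W = insert (i₀, t₀)
    ((S.image fun d => (i₀, t₀ - d)) ∪ (T.image fun x => (x.1, x.2 + (t₀ - s)))) := ⟨_, rfl⟩
  have hWc : W.card ≤ D + 1 := by
    rw [hW]
    refine (Finset.card_insert_le _ _).trans ?_
    have e1 := Finset.card_union_le (S.image fun d => (i₀, t₀ - d))
      (T.image fun x => (x.1, x.2 + (t₀ - s)))
    have e2 := Finset.card_image_le (s := S) (f := fun d => (i₀, t₀ - d))
    have e3 := Finset.card_image_le (s := T) (f := fun x => (x.1, x.2 + (t₀ - s)))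
    omega
  have hKt : t₀ ≤ K * t₀ := Nat.le_mul_of_pos_left _ hK
  have hWle : ∀ w ∈ W, w.2 ≤ K * t₀ := by
    intro w hw
    rw [hW] at hw
    rcases Finset.mem_insert.1 hw with rfl | hw
    · exact hKt
    rcases Finset.mem_union.1 hw with hw | hw
    · obtain ⟨d, -, rfl⟩ := Finset.mem_image.1 hw
      exact le_trans (Nat.sub_le _ _) hKt
    · obtain ⟨x, hxT, rfl⟩ := Finset.mem_image.1 hw
      have e1 := (hx x hxT).2
      have e2 : t₀ - s ≤ K * (t₀ - s) := Nat.le_mul_of_pos_left _ hK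
      have e3 : K * t₀ = K * s + K * (t₀ - s) := by
        rw [← Nat.mul_add, Nat.add_sub_cancel' hst]
      show x.2 + (t₀ - s) ≤ K * t₀
      omega
  have hpos : ∀ w ∈ W, w.2 ≤ K * (2 ^ (ρ + 3) * Q) * m := fun w hw => by
    refine (hWle w hw).trans ?_
    rw [Nat.mul_assoc]
    exact Nat.mul_le_mul_left _ h3
  obtain ⟨e⟩ : Nonempty (Fin W.card ≃ W) := ⟨W.equivFin.symm⟩
  have hind : LinearIndependent ℝ (fun (j : Fin W.card) (i : Fin m) =>
      (dg b (α (e j).1.1) ((e j).1.2 + i + 1) : ℝ)) := by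
    by_contra hdep
    apply hM
    refine ⟨W.card, hWc, fun j => (e j).1, Subtype.val_injective.comp e.injective, ?_, hdep⟩
    intro j
    exact_mod_cast hpos _ (e j).2
  rw [linearIndependent_iff_notMem_span] at hind
  have hidx : ∀ w ∈ W, ∃ j, (e j).1 = w := by
    intro w hw
    exact ⟨e.symm ⟨w, hw⟩, by rw [Equiv.apply_symm_apply]⟩
  obtain ⟨j₀, hj₀⟩ := hidx (i₀, t₀) (by rw [hW]; exact Finset.mem_insert_self _ _)
  apply hind j₀
  simp only [hj₀]
  have hwin : (fun i : Fin m => (dg b (α i₀) (t₀ + i + 1) : ℝ)) =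
      ∑ l ∈ S, c l • (fun i : Fin m => (dg b (α i₀) (t₀ - l + i + 1) : ℝ)) +
      ∑ x ∈ T, c' x • (fun i : Fin m => (dg b (α x.1) (x.2 + (t₀ - s) + i + 1) : ℝ)) := by
    funext i
    rw [Pi.add_apply, Finset.sum_apply, Finset.sum_apply]
    have h5 := h4 i i.2 0 (Finset.mem_insert_self _ _)
    have hi := i.2
    rw [Nat.sub_zero] at h5
    rw [← h5, hv _ (by omega) (by omega)]
    congr 1
    · apply Finset.sum_congr rfl
      intro l hl
      simp only [Pi.smul_apply, smul_eq_mul]
      have h6 := h4 i i.2 l (Finset.mem_insert_of_mem hl)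
      have h7 := (hd l hl).2
      rw [h6, show t₀ + (i : ℕ) - l = t₀ - l + i by omega]
    · apply Finset.sum_congr rfl
      intro x _
      simp only [Pi.smul_apply, smul_eq_mul]
      rw [show x.2 + (t₀ + (i : ℕ) - s) = x.2 + (t₀ - s) + i by omega]
  rw [hwin]
  apply Submodule.add_mem
  · apply Submodule.sum_mem
    intro l hl
    apply Submodule.smul_mem
    apply Submodule.subset_span
    obtain ⟨j, hj⟩ := hidx (i₀, t₀ - l) (by
      rw [hW]
      exact Finset.mem_insert_of_mem (Finset.mem_union_left _ (Finset.mem_image.2 ⟨l, hl, rfl⟩)))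
    refine ⟨j, ⟨Set.mem_univ _, ?_⟩, ?_⟩
    · intro h
      rw [Set.mem_singleton_iff] at h
      rw [h, hj₀] at hj
      have h0 := congrArg Prod.snd hj
      have h1 := (hd l hl).1
      have h2 := (hd l hl).2
      simp only at h0
      omega
    · simp only [hj]
  · apply Submodule.sum_mem
    intro x hxT
    apply Submodule.smul_mem
    apply Submodule.subset_span
    obtain ⟨j, hj⟩ := hidx (x.1, x.2 + (t₀ - s)) (by
      rw [hW]
      exact Finset.mem_insert_of_mem (Finset.mem_union_right _ (Finset.mem_image.2 ⟨x, hxT, rfl⟩)))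
    refine ⟨j, ⟨Set.mem_univ _, ?_⟩, ?_⟩
    · intro h
      rw [Set.mem_singleton_iff] at h
      rw [h, hj₀] at hj
      exact (hx x hxT).1 (congrArg Prod.fst hj).symm
    · simp only [hj]

end Pool.Agent.H723.QJ
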