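import Pool.Graph.R_seed8.H393R2.Vanish
import Pool.Agent.H723.QJ.Defs

set_option autoImplicit false

open Finset

namespace Pool.Agent.H723.QJ

open Pool.Agent.H393R2

lemma block_cv_v {R : Type*} [CommRing R] {n : ℕ} (Y j1 : Fin n) (hj : j1 ≠ Y) (ξ : Fin n → R)
    (M W : Fin n → R) (hWY : W Y = M Y) (hW : ∀ l, l ≠ Y → W l = M l + ξ l * M Y) (r k : ℕ)
    (a : Fin n → ℕ) (ha : ∑ l, a l = r) :
    bterm j1 k a W =
      ∑ J ∈ Finset.piAntidiag (Finset.univ : Finset (Fin n)) r,
        (∏ l ∈ (Finset.univ : Finset (Fin n)).erase Y,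
          ((((a l).choose (J l) : ℕ) : R) * ξ l ^ (a l - J l))) * bterm j1 k J M := by
  classical
  -- the factor functions
  let G : Fin n → ℕ → R := fun l j =>
    if l = Y then M Y ^ (a Y)
    else (((a l).choose j : ℕ) : R) * (ξ l * M Y) ^ (a l - j) *
      (if l = j1 then (((j.choose k : ℕ) : R) * M l ^ (j - k)) else M l ^ j)
  let t : Fin n → Finset ℕ := fun l => if l = Y then {0} else range (a l + 1)
  have hprod : bterm j1 k a W = ∏ l, ∑ j ∈ t l, G l j := by
    unfold bterm
    have h1 : (((a j1).choose k : ℕ) : R) = ∏ l, (if l = j1 then (((a j1).choose k : ℕ) : R)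
        else 1) := by
      rw [Finset.prod_ite_eq' Finset.univ j1]
      simp
    rw [h1, ← Finset.prod_mul_distrib]
    apply Finset.prod_congr rfl
    intro l _
    by_cases hlY : l = Y
    · subst hlY
      simp only [G, t, if_true, Finset.sum_singleton]
      rw [if_neg (Ne.symm hj), if_neg (Ne.symm hj), hWY]
      simp
    · simp only [G, t, if_neg hlY]
      rw [hW l hlY]
      by_cases hl1 : l = j1
      · subst hl1
        simp only [if_true]
        rw [one_var]
      · simp only [if_neg hl1, one_mul, Nat.sub_zero]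
        rw [add_pow]
        apply Finset.sum_congr rfl
        intro j _
        ring
  rw [hprod, Finset.prod_univ_sum]
  -- now the bijection
  symm
  rw [← Finset.sum_filter_add_sum_filter_not (Finset.piAntidiag (Finset.univ : Finset (Fin n)) r)
    (fun J => ∀ l, l ≠ Y → J l ≤ a l)]
  have hzero : ∑ J ∈ (Finset.piAntidiag (Finset.univ : Finset (Fin n)) r).filter
      (fun J => ¬ ∀ l, l ≠ Y → J l ≤ a l),
      (∏ l ∈ (Finset.univ : Finset (Fin n)).erase Y,
          ((((a l).choose (J l) : ℕ) : R) * ξ l ^ (a l - J l))) * bterm j1 k J M = 0 := by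
    apply Finset.sum_eq_zero
    intro J hJ
    simp only [mem_filter] at hJ
    obtain ⟨_, hJ2⟩ := hJ
    push Not at hJ2
    obtain ⟨l, hl, hl2⟩ := hJ2
    have : ∏ l ∈ (Finset.univ : Finset (Fin n)).erase Y,
          ((((a l).choose (J l) : ℕ) : R) * ξ l ^ (a l - J l)) = 0 := by
      apply Finset.prod_eq_zero (i := l)
      · simp [hl]
      · rw [Nat.choose_eq_zero_of_lt hl2]
        simp
    rw [this, zero_mul]
  rw [hzero, add_zero]
  refine Finset.sum_bij' (fun J _ => Function.update J Y 0)
    (fun J _ => Function.update J Y (r - ∑ l ∈ (Finset.univ : Finset (Fin n)).erase Y, J l))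
    ?_ ?_ ?_ ?_ ?_
  · intro J hJ
    simp only [mem_filter, mem_piAntidiag] at hJ
    rw [Fintype.mem_piFinset]
    intro l
    by_cases hl : l = Y
    · subst hl; simp [t]
    · simp only [t, if_neg hl, Function.update_of_ne hl, mem_range]
      have := hJ.2 l hl
      omega
  · intro J hJ
    rw [Fintype.mem_piFinset] at hJ
    simp only [mem_filter, mem_piAntidiag]
    have hle : ∀ l, l ≠ Y → J l ≤ a l := by
      intro l hl
      have := hJ l
      simp only [t, if_neg hl, mem_range] at this
      omega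
    have hs : ∑ l ∈ (Finset.univ : Finset (Fin n)).erase Y, J l ≤ r := by
      rw [← ha]
      calc ∑ l ∈ (Finset.univ : Finset (Fin n)).erase Y, J l ≤
          ∑ l ∈ (Finset.univ : Finset (Fin n)).erase Y, a l := by
            apply Finset.sum_le_sum
            intro l hl
            exact hle l (by simpa using hl)
        _ ≤ ∑ l, a l := Finset.sum_le_sum_of_subset (Finset.erase_subset _ _)
    refine ⟨⟨?_, by simp⟩, ?_⟩
    · rw [← Finset.add_sum_erase _ _ (Finset.mem_univ Y)]
      have : ∑ x ∈ (Finset.univ : Finset (Fin n)).erase Y, Function.update J Y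
          (r - ∑ l ∈ (Finset.univ : Finset (Fin n)).erase Y, J l) x =
          ∑ l ∈ (Finset.univ : Finset (Fin n)).erase Y, J l := by
        apply Finset.sum_congr rfl
        intro x hx
        rw [Function.update_of_ne (by simpa using hx)]
      rw [this, Function.update_self]
      omega
    · intro l hl
      rw [Function.update_of_ne hl]
      exact hle l hl
  · intro J hJ
    simp only [mem_filter, mem_piAntidiag] at hJ
    obtain ⟨⟨hJ1, _⟩, _⟩ := hJ
    have : ∑ x ∈ (Finset.univ : Finset (Fin n)).erase Y, Function.update J Y 0 x =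
          ∑ l ∈ (Finset.univ : Finset (Fin n)).erase Y, J l := by
      apply Finset.sum_congr rfl
      intro x hx
      rw [Function.update_of_ne (by simpa using hx)]
    rw [this, Function.update_idem]
    have h2 : r - ∑ l ∈ (Finset.univ : Finset (Fin n)).erase Y, J l = J Y := by
      rw [← Finset.add_sum_erase _ _ (Finset.mem_univ Y)] at hJ1
      omega
    rw [h2, Function.update_eq_self]
  · intro J hJ
    rw [Fintype.mem_piFinset] at hJ
    have hY := hJ Y
    simp only [t, if_true, Finset.mem_singleton] at hY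
    rw [Function.update_idem]
    conv_rhs => rw [← Function.update_eq_self Y J]
    rw [hY]
  · intro J hJ
    simp only [mem_filter, mem_piAntidiag] at hJ
    obtain ⟨⟨hJ1, _⟩, hJ2⟩ := hJ
    unfold bterm
    -- split the product over Y
    rw [← Finset.mul_prod_erase Finset.univ (fun l => G l (Function.update J Y 0 l))
      (Finset.mem_univ Y)]
    rw [← Finset.mul_prod_erase Finset.univ (fun l => M l ^ (J l - if l = j1 then k else 0))
      (Finset.mem_univ Y)]
    have hG : ∏ l ∈ (Finset.univ : Finset (Fin n)).erase Y, G l (Function.update J Y 0 l) =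
        ∏ l ∈ (Finset.univ : Finset (Fin n)).erase Y,
          (((((a l).choose (J l) : ℕ) : R) * ξ l ^ (a l - J l)) * (M Y ^ (a l - J l)) *
          ((if l = j1 then (((J j1).choose k : ℕ) : R) else 1) *
            M l ^ (J l - if l = j1 then k else 0))) := by
      apply Finset.prod_congr rfl
      intro l hl
      have hl' : l ≠ Y := by simpa using hl
      simp only [G, if_neg hl', Function.update_of_ne hl']
      by_cases hl1 : l = j1
      · subst hl1
        simp only [if_true]
        rw [mul_pow]; ring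
      · simp only [if_neg hl1, one_mul, Nat.sub_zero]
        rw [mul_pow]; ring
    rw [hG, prod4]
    have h1 : ∏ l ∈ (Finset.univ : Finset (Fin n)).erase Y, (if l = j1 then
        (((J j1).choose k : ℕ) : R) else 1) = (((J j1).choose k : ℕ) : R) := by
      rw [Finset.prod_ite_eq' _ j1]
      simp [hj]
    rw [h1, Finset.prod_pow_eq_pow_sum]
    have h2 : G Y (Function.update J Y 0 Y) = M Y ^ (a Y) := by simp [G]
    rw [h2, if_neg (Ne.symm hj), Nat.sub_zero]
    have h3 : J Y = a Y + ∑ l ∈ (Finset.univ : Finset (Fin n)).erase Y, (a l - J l) := by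
      rw [← Finset.add_sum_erase _ _ (Finset.mem_univ Y)] at hJ1 ha
      have h4 : ∑ l ∈ (Finset.univ : Finset (Fin n)).erase Y, (a l - J l) +
          ∑ l ∈ (Finset.univ : Finset (Fin n)).erase Y, J l =
          ∑ l ∈ (Finset.univ : Finset (Fin n)).erase Y, a l := by
        rw [← Finset.sum_add_distrib]
        apply Finset.sum_congr rfl
        intro l hl
        have := hJ2 l (by simpa using hl)
        omega
      omega
    rw [h3, pow_add]
    ring

theorem Sk_cv_v {R : Type*} [CommRing R] {m n : ℕ} (r : Fin m → ℕ) (Y j1 : Fin n) (hj : j1 ≠ Y)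
    (ξ : Fin n → R) (k : Fin m → ℕ) (c : (Fin m → Fin n → ℕ) → ℤ) (M W : Fin m → Fin n → R)
    (hWY : ∀ h, W h Y = M h Y) (hW : ∀ h l, l ≠ Y → W h l = M h l + ξ l * M h Y) :
    Sk r j1 k c W = ∑ J ∈ Dset m n r, dJv r Y ξ c J * ∏ h, bterm j1 (k h) (J h) (M h) := by
  classical
  unfold Sk dJv
  have h1 : ∀ a ∈ Dset m n r, (c a : R) * ∏ h, bterm j1 (k h) (a h) (W h) =
      ∑ J ∈ Dset m n r, (c a : R) * (∏ h : Fin m, ∏ l ∈ (Finset.univ : Finset (Fin n)).erase Y,
            ((((a h l).choose (J h l) : ℕ) : R) * ξ l ^ (a h l - J h l))) *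
            ∏ h, bterm j1 (k h) (J h) (M h) := by
    intro a ha
    have ha' := mem_Dset.1 ha
    have h2 : ∏ h, bterm j1 (k h) (a h) (W h) = ∏ h, ∑ J ∈ Finset.piAntidiag
        (Finset.univ : Finset (Fin n)) (r h),
        (∏ l ∈ (Finset.univ : Finset (Fin n)).erase Y,
          ((((a h l).choose (J l) : ℕ) : R) * ξ l ^ (a h l - J l))) * bterm j1 (k h) J (M h) := by
      apply Finset.prod_congr rfl
      intro h _
      exact block_cv_v Y j1 hj ξ (M h) (W h) (hWY h) (hW h) (r h) (k h) (a h) (ha' h)
    rw [h2, Finset.prod_univ_sum, Finset.mul_sum]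
    apply Finset.sum_congr rfl
    intro J _
    rw [Finset.prod_mul_distrib]
    ring
  rw [Finset.sum_congr rfl h1, Finset.sum_comm]
  apply Finset.sum_congr rfl
  intro J _
  rw [Finset.sum_mul]

lemma map_dJv {R S : Type*} [CommRing R] [CommRing S] (f : R →+* S) {m n : ℕ} (r : Fin m → ℕ)
    (Y : Fin n) (ξ : Fin n → R) (c : (Fin m → Fin n → ℕ) → ℤ) (J : Fin m → Fin n → ℕ) :
    f (dJv r Y ξ c J) = dJv r Y (fun l => f (ξ l)) c J := by
  unfold dJv
  rw [map_sum]
  apply Finset.sum_congr rfl
  intro a _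
  rw [map_mul, map_prod, map_intCast]
  congr 1
  apply Finset.prod_congr rfl
  intro h _
  rw [map_prod]
  apply Finset.prod_congr rfl
  intro l _
  rw [map_mul, map_pow, map_natCast]

/-- the change of variables and the vanishing, with a different number for each coordinate -/
theorem Sk_vanish_v {m n : ℕ} (r : Fin m → ℕ) (Y j1 : Fin n) (hj : j1 ≠ Y) (ξ : Fin n → ℝ)
    (k : Fin m → ℕ) (c : (Fin m → Fin n → ℕ) → ℤ) (b : ℕ) (hb : 0 < b) (e : Fin m → Fin n → ℕ)
    (heY : ∀ h, e h Y = 0) (w : Fin m → Fin (n - 1) → Fin n → ℤ) (B : Fin m → Fin n → ℝ)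
    (hB : ∀ h l, ∑ i, |((w h i l : ℝ) - (if l = Y then 0 else ξ l * (b : ℝ) ^ (e h l) * w h i Y))
      / (b : ℝ) ^ (e h l)| ≤ B h l)
    (E : ℕ) (hE : ∀ a ∈ Dset m n r, c a ≠ 0 → ∑ h, ∑ l, e h l * a h l ≤ E)
    (hsmall : ∑ J ∈ Dset m n r, |dJv r Y ξ c J| * ∏ h, (((J h j1).choose (k h) : ℝ) *
      ∏ l, B h l ^ (J h l - if l = j1 then k h else 0)) < ((b : ℝ) ^ E)⁻¹) :
    ∀ u : Fin m → Fin (n - 1) → ℝ,
      Sk r j1 k c (fun h l => ∑ i, u h i * ((w h i l : ℝ) / (b : ℝ) ^ (e h l))) = 0 := by
  classical
  have hb' : (b : ℝ) ≠ 0 := by positivity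
  let σ := Fin m × Fin (n - 1)
  let Wp : Fin m → Fin n → MvPolynomial σ ℝ := fun h l =>
    ∑ i, MvPolynomial.X (h, i) * MvPolynomial.C ((w h i l : ℝ) / (b : ℝ) ^ (e h l))
  let Mp : Fin m → Fin n → MvPolynomial σ ℝ := fun h l =>
    ∑ i, MvPolynomial.X (h, i) * MvPolynomial.C
      (((w h i l : ℝ) - (if l = Y then 0 else ξ l * (b : ℝ) ^ (e h l) * w h i Y))
      / (b : ℝ) ^ (e h l))
  let Wi : Fin m → Fin n → MvPolynomial σ ℤ := fun h l =>
    ∑ i, MvPolynomial.X (h, i) * MvPolynomial.C (w h i l)
  let F : MvPolynomial σ ℝ := Sk r j1 k c Wp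
  have hF : F = 0 := by
    -- bound
    have hbound : l1 F < ((b : ℝ) ^ E)⁻¹ := by
      refine lt_of_le_of_lt ?_ hsmall
      have h1 : F = ∑ J ∈ Dset m n r, dJv r Y (fun l => MvPolynomial.C (ξ l)) c J *
          ∏ h, bterm j1 (k h) (J h) (Mp h) := by
        apply Sk_cv_v r Y j1 hj (fun l => MvPolynomial.C (ξ l)) k c Mp Wp
        · intro h
          simp only [Wp, Mp, if_true, sub_zero]
        · intro h l hl
          simp only [Wp, Mp, if_neg hl, if_true, sub_zero, heY, pow_zero, div_one]
          rw [Finset.mul_sum, ← Finset.sum_add_distrib]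
          apply Finset.sum_congr rfl
          intro i _
          rw [show MvPolynomial.C (ξ l) * (MvPolynomial.X (h, i) * MvPolynomial.C (w h i Y : ℝ)) =
            MvPolynomial.X (h, i) * (MvPolynomial.C (ξ l) * MvPolynomial.C (w h i Y : ℝ)) by ring,
            ← mul_add, ← MvPolynomial.C_mul, ← MvPolynomial.C_add]
          congr 2
          field_simp
          ring
      rw [h1]
      refine (l1_sum_le _ _).trans ?_
      apply Finset.sum_le_sum
      intro J _
      refine (l1_mul_le _ _).trans ?_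
      have h2 : dJv r Y (fun l => (MvPolynomial.C (ξ l) : MvPolynomial σ ℝ)) c J =
          MvPolynomial.C (dJv r Y ξ c J) := by
        rw [map_dJv]
      rw [h2, l1_C]
      apply mul_le_mul_of_nonneg_left _ (abs_nonneg _)
      refine (l1_prod_le _ _).trans ?_
      apply Finset.prod_le_prod
      · intro h _; exact l1_nonneg _
      · intro h _
        apply l1_bterm_le
        intro l
        refine le_trans ?_ (hB h l)
        simp only [Mp]
        refine (l1_sum_le _ _).trans ?_
        apply Finset.sum_le_sum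
        intro i _
        refine (l1_mul_le _ _).trans ?_
        rw [l1_X, l1_C, one_mul]
    -- integrality
    let s : (Fin m → Fin n → ℕ) → ℕ := fun a =>
      ∑ h, ∑ l, e h l * (a h l - if l = j1 then k h else 0)
    let G : MvPolynomial σ ℤ := ∑ a ∈ Dset m n r, (c a : MvPolynomial σ ℤ) *
      ((b : MvPolynomial σ ℤ) ^ (E - s a) * ∏ h, bterm j1 (k h) (a h) (Wi h))
    have hint : MvPolynomial.C ((b : ℝ) ^ E) * F = MvPolynomial.map (Int.castRingHom ℝ) G := by
      simp only [F, G, Sk]
      rw [map_sum, Finset.mul_sum]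
      apply Finset.sum_congr rfl
      intro a ha
      by_cases hca : c a = 0
      · simp [hca]
      have hsE : s a ≤ E := by
        refine le_trans ?_ (hE a ha hca)
        apply Finset.sum_le_sum
        intro h _
        apply Finset.sum_le_sum
        intro l _
        exact Nat.mul_le_mul_left _ (Nat.sub_le _ _)
      rw [map_mul, map_mul, map_prod, map_intCast, map_pow, map_natCast]
      have h3 : ∀ h, MvPolynomial.map (Int.castRingHom ℝ) (bterm j1 (k h) (a h) (Wi h)) =
          (b : MvPolynomial σ ℝ) ^ (∑ l, e h l * (a h l - if l = j1 then k h else 0)) *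
            bterm j1 (k h) (a h) (Wp h) := by
        intro h
        rw [map_bterm, ← bterm_smul]
        congr 1
        funext l
        simp only [Wi, Wp]
        rw [map_sum, Finset.mul_sum]
        apply Finset.sum_congr rfl
        intro i _
        rw [map_mul, MvPolynomial.map_X, MvPolynomial.map_C]
        have h4 : (b : MvPolynomial σ ℝ) ^ (e h l) = MvPolynomial.C ((b : ℝ) ^ (e h l)) := by
          simp
        rw [h4, show MvPolynomial.C ((b : ℝ) ^ (e h l)) * (MvPolynomial.X (h, i) *
          MvPolynomial.C ((w h i l : ℝ) / (b : ℝ) ^ (e h l))) = MvPolynomial.X (h, i) *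
          (MvPolynomial.C ((b : ℝ) ^ (e h l)) *
          MvPolynomial.C ((w h i l : ℝ) / (b : ℝ) ^ (e h l))) by ring, ← MvPolynomial.C_mul]
        congr 2
        rw [mul_div_cancel₀ _ (pow_ne_zero _ hb')]
        simp
      rw [Finset.prod_congr rfl (fun h _ => h3 h), Finset.prod_mul_distrib,
        Finset.prod_pow_eq_pow_sum]
      have h5 : (b : MvPolynomial σ ℝ) ^ E =
          (b : MvPolynomial σ ℝ) ^ (E - s a) * (b : MvPolynomial σ ℝ) ^ (s a) := by
        rw [← pow_add, Nat.sub_add_cancel hsE]
      rw [h5]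
      simp only [map_pow, map_natCast]
      simp only [s]
      ring
    ext κ
    have h6 : (b : ℝ) ^ E * F.coeff κ = ((G.coeff κ : ℤ) : ℝ) := by
      have := congrArg (MvPolynomial.coeff κ) hint
      rw [MvPolynomial.coeff_C_mul, MvPolynomial.coeff_map] at this
      simpa using this
    have h7 : |F.coeff κ| < ((b : ℝ) ^ E)⁻¹ := lt_of_le_of_lt (abs_coeff_le_l1 F κ) hbound
    have hbE : (0 : ℝ) < (b : ℝ) ^ E := by positivity
    have h8 : |((G.coeff κ : ℤ) : ℝ)| < 1 := by
      rw [← h6, abs_mul, abs_of_pos hbE]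
      calc (b : ℝ) ^ E * |F.coeff κ| < (b : ℝ) ^ E * ((b : ℝ) ^ E)⁻¹ :=
            mul_lt_mul_of_pos_left h7 hbE
        _ = 1 := mul_inv_cancel₀ hbE.ne'
    have h9 : G.coeff κ = 0 := by
      rw [← Int.cast_abs] at h8
      have : |G.coeff κ| < 1 := by exact_mod_cast h8
      exact Int.abs_lt_one_iff.1 this
    rw [h9, Int.cast_zero] at h6
    have h10 : F.coeff κ = 0 := by
      rcases mul_eq_zero.1 h6 with h | h
      · exact absurd h hbE.ne'
      · exact h
    rw [h10, MvPolynomial.coeff_zero]
  intro u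
  have h1 := congrArg (MvPolynomial.eval (fun x : σ => u x.1 x.2)) hF
  simp only [F] at h1
  rw [map_Sk, map_zero] at h1
  rw [← h1]
  congr 1
  funext h l
  simp only [Wp]
  rw [map_sum]
  apply Finset.sum_congr rfl
  intro i _
  simp


end Pool.Agent.H723.QJ
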