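import Pool.Graph.R_seed8.H393R2.Est
import Pool.Agent.H723.QJ.Defs

set_option autoImplicit false

open Finset

namespace Pool.Agent.H723.QJ

open Pool.Agent.H393R2

theorem dJv_abs_le {m n : ℕ} (r : Fin m → ℕ) (Y : Fin n) (ξ : Fin n → ℝ) (X : ℝ) (hX1 : 1 ≤ X)
    (hXξ : ∀ l, |ξ l| ≤ X)
    (c : (Fin m → Fin n → ℕ) → ℤ) (H : ℝ) (hcH : ∀ a ∈ Dset m n r, |(c a : ℝ)| ≤ H)
    (J : Fin m → Fin n → ℕ) :
    |dJv r Y ξ c J| ≤ (Dset m n r).card * (H * (2 * X) ^ (∑ h, r h)) := by
  unfold dJv
  refine (Finset.abs_sum_le_sum_abs _ _).trans ?_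
  rw [← nsmul_eq_mul]
  apply Finset.sum_le_card_nsmul
  intro a ha
  rw [abs_mul]
  have hH : 0 ≤ H := (abs_nonneg _).trans (hcH a ha)
  apply mul_le_mul (hcH a ha) _ (abs_nonneg _) hH
  rw [Finset.abs_prod, ← Finset.prod_pow_eq_pow_sum]
  apply Finset.prod_le_prod
  · intro h _; exact abs_nonneg _
  · intro h _
    rw [Finset.abs_prod]
    have h1 : ∀ l ∈ (Finset.univ : Finset (Fin n)).erase Y,
        |(((a h l).choose (J h l) : ℕ) : ℝ) * ξ l ^ (a h l - J h l)| ≤ (2 * X) ^ (a h l) := by
      intro l _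
      rw [abs_mul, mul_pow, abs_pow, Nat.abs_cast]
      apply mul_le_mul _ _ (by positivity) (by positivity)
      · have : (a h l).choose (J h l) ≤ 2 ^ (a h l) := Nat.choose_le_two_pow _ _
        exact_mod_cast this
      · calc |ξ l| ^ (a h l - J h l) ≤ X ^ (a h l - J h l) :=
              pow_le_pow_left₀ (abs_nonneg _) (hXξ l) _
          _ ≤ X ^ (a h l) := pow_le_pow_right₀ hX1 (Nat.sub_le _ _)
    refine (Finset.prod_le_prod (fun _ _ => abs_nonneg _) h1).trans ?_
    rw [Finset.prod_pow_eq_pow_sum]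
    apply pow_le_pow_right₀ (by linarith)
    rw [← (mem_Dset.1 ha) h]
    exact Finset.sum_le_sum_of_subset (Finset.erase_subset _ _)

/-- The main estimate, with arbitrary weights for each `h`, for several numbers. -/
theorem est_v {m n : ℕ} (hm : 0 < m) (hn : 1 ≤ n) (r : Fin m → ℕ) (hr : ∀ h, 0 < r h)
    (Y j1 : Fin n) (ξ : Fin n → ℝ) (X : ℝ) (hX1 : 1 ≤ X) (hXξ : ∀ l, |ξ l| ≤ X) (k : Fin m → ℕ)
    (c : (Fin m → Fin n → ℕ) → ℤ) (C : ℝ) (hC : 1 ≤ C)
    (hcC : ∀ a ∈ Dset m n r, |(c a : ℝ)| ≤ C ^ (∑ h, r h))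
    (τ : ℝ) (hτ0 : 0 < τ) (hτ1 : τ ≤ 1) (σ : ℝ) (hσ0 : 0 < σ) (cc : ℝ) (hcc : 1 ≤ cc)
    (hτσ : cc * τ ≤ σ)
    (b : ℕ) (hb : 2 ≤ b) (e : Fin m → Fin n → ℕ) (A : Fin m → Fin n → ℝ)
    (hA : ∀ h l, 0 < A h l) (N : Fin m → ℝ) (Nm : ℝ) (hNm : 0 < Nm) (hN : ∀ h, Nm ≤ N h)
    (R0 : ℝ) (hR0 : 0 < R0)
    (hrN1 : ∀ h, (1 - τ) * R0 ≤ r h * N h) (hrN2 : ∀ h, r h * N h ≤ R0)
    (hAcc : ∀ h l, |-Real.log (A h l)| ≤ cc * N h)
    (hecc : ∀ h l, (e h l : ℝ) * Real.log b ≤ cc * N h)
    (γ : ℝ) (hγ0 : 0 < γ) (hγ : ∀ h, γ * N h ≤ ∑ l, -Real.log (A h l))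
    (hsupp : ∀ a ∈ Dset m n r, c a ≠ 0 → ∀ l : Fin n,
      ∑ h, ((e h l : ℝ) * Real.log b / N h) * ((a h l : ℝ) / (r h : ℝ) - 1 / (n : ℝ)) ≤ σ * m)
    (hbad : ∀ J ∈ Dset m n r,
      (∃ l : Fin n, ∑ h, (((e h l : ℝ) * Real.log b - Real.log (A h l)) / N h) *
        ((J h l : ℝ) / (r h : ℝ) - 1 / (n : ℝ)) < -(σ * m)) → dJv r Y ξ c J = 0)
    (hk : ∑ h, (k h : ℝ) / (r h : ℝ) < τ)
    (hσγ : (2 * n + 4) * σ ≤ γ / (4 * n))
    (hNγ : Real.log (2 ^ (2 * n) * C * (2 * X) * 2 * n) / Nm ≤ γ / (4 * n)) :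
    ∃ E : ℕ, (∀ a ∈ Dset m n r, c a ≠ 0 → ∑ h, ∑ l, e h l * a h l ≤ E) ∧
      ∑ J ∈ Dset m n r, |dJv r Y ξ c J| * ∏ h, (((J h j1).choose (k h) : ℝ) *
        ∏ l, (n * A h l / (b : ℝ) ^ (e h l)) ^ (J h l - if l = j1 then k h else 0))
        < ((b : ℝ) ^ E)⁻¹ := by
  classical
  have hnR : (0 : ℝ) < n := by exact_mod_cast hn
  have hmR : (0 : ℝ) < m := by exact_mod_cast hm
  have hm1 : (1 : ℝ) ≤ m := by exact_mod_cast hm
  have hn1 : (1 : ℝ) ≤ n := by exact_mod_cast hn
  have hrR : ∀ h, (0 : ℝ) < r h := fun h => by exact_mod_cast hr h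
  have hNpos : ∀ h, 0 < N h := fun h => lt_of_lt_of_le hNm (hN h)
  have hb1 : (1 : ℝ) < b := by exact_mod_cast (by omega : 1 < b)
  have hlogb : 0 < Real.log b := Real.log_pos hb1
  have hbpos : (0 : ℝ) < b := by linarith
  have hcc0 : 0 < cc := by linarith
  obtain ⟨w, hw⟩ : ∃ w : Fin m → Fin n → ℝ, ∀ h l, w h l = (e h l : ℝ) * Real.log b / N h :=
    ⟨_, fun _ _ => rfl⟩
  obtain ⟨u, hu⟩ : ∃ u : Fin m → Fin n → ℝ,
      ∀ h l, u h l = ((e h l : ℝ) * Real.log b - Real.log (A h l)) / N h := ⟨_, fun _ _ => rfl⟩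
  have hw0 : ∀ h l, 0 ≤ w h l := by
    intro h l
    rw [hw]
    exact div_nonneg (mul_nonneg (Nat.cast_nonneg _) hlogb.le) (hNpos h).le
  have hwN : ∀ h l, (e h l : ℝ) * Real.log b = w h l * N h := by
    intro h l
    rw [hw, div_mul_cancel₀ _ (hNpos h).ne']
  have huN : ∀ h l, -Real.log (A h l) + (e h l : ℝ) * Real.log b = u h l * N h := by
    intro h l
    rw [hu, div_mul_cancel₀ _ (hNpos h).ne']
    ring
  have hu1 : ∀ h l, |u h l| ≤ 2 * cc := by
    intro h l
    rw [hu, abs_div, abs_of_pos (hNpos h), div_le_iff₀ (hNpos h)]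
    have h1 := abs_le.1 (hAcc h l)
    have h2 := hecc h l
    have h3 : 0 ≤ (e h l : ℝ) * Real.log b := mul_nonneg (Nat.cast_nonneg _) hlogb.le
    have h4 : 0 ≤ cc * N h := mul_nonneg hcc0.le (hNpos h).le
    rw [abs_le]
    constructor
    · linarith [h1.1]
    · linarith [h1.2]
  obtain ⟨SW, hSW⟩ : ∃ SW : ℝ, SW = ∑ h, ∑ l, w h l := ⟨_, rfl⟩
  obtain ⟨SU, hSU⟩ : ∃ SU : ℝ, SU = ∑ h, ∑ l, u h l := ⟨_, rfl⟩
  have hSW0 : 0 ≤ SW := by
    rw [hSW]
    exact Finset.sum_nonneg fun h _ => Finset.sum_nonneg fun l _ => hw0 h l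
  have hSUW : SW + γ * m ≤ SU := by
    rw [hSW, hSU]
    have h1 : ∀ h : Fin m, (∑ l, w h l) + γ ≤ ∑ l, u h l := by
      intro h
      have h2 : ∑ l, u h l = (∑ l, w h l) + (∑ l, -Real.log (A h l)) / N h := by
        rw [Finset.sum_div, ← Finset.sum_add_distrib]
        refine Finset.sum_congr rfl fun l _ => ?_
        rw [hu, hw]
        ring
      rw [h2]
      have h3 : γ ≤ (∑ l, -Real.log (A h l)) / N h := by
        rw [le_div_iff₀ (hNpos h)]
        exact hγ h
      linarith
    have h4 := Finset.sum_le_sum (fun h (_ : h ∈ (Finset.univ : Finset (Fin m))) => h1 h)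
    rw [Finset.sum_add_distrib] at h4
    simp only [Finset.sum_const, Finset.card_univ, Fintype.card_fin, nsmul_eq_mul] at h4
    linarith
  obtain ⟨Er, hEr⟩ : ∃ Er : ℝ, Er = R0 * (SW / n + n * σ * m) := ⟨_, rfl⟩
  have hEr0 : 0 ≤ Er := by rw [hEr]; positivity
  refine ⟨⌊Er / Real.log b⌋₊, ?_, ?_⟩
  · -- exponent bound
    intro a ha hca
    apply Nat.le_floor
    rw [le_div_iff₀ hlogb]
    push_cast
    rw [Finset.sum_comm, Finset.sum_mul]
    have h1 : ∀ l, (∑ h, (e h l : ℝ) * (a h l : ℝ)) * Real.log b ≤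
        R0 * (σ * m + (∑ h, w h l) / n) := by
      intro l
      have h2 : ∀ h, (e h l : ℝ) * (a h l : ℝ) * Real.log b ≤ R0 * (w h l * ((a h l : ℝ) / r h)) := by
        intro h
        have h5 : (a h l : ℝ) * N h ≤ R0 * ((a h l : ℝ) / r h) := by
          have h6 := hrN2 h
          have h7 : (a h l : ℝ) * N h = ((r h : ℝ) * N h) * ((a h l : ℝ) / r h) := by
            have := (hrR h).ne'
            field_simp
          rw [h7]
          apply mul_le_mul_of_nonneg_right h6
          have := hrR h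
          positivity
        calc (e h l : ℝ) * (a h l : ℝ) * Real.log b = ((e h l : ℝ) * Real.log b) * (a h l : ℝ) := by
              ring
          _ = w h l * ((a h l : ℝ) * N h) := by rw [hwN]; ring
          _ ≤ w h l * (R0 * ((a h l : ℝ) / r h)) := mul_le_mul_of_nonneg_left h5 (hw0 h l)
          _ = _ := by ring
      rw [Finset.sum_mul]
      refine (Finset.sum_le_sum (fun h _ => h2 h)).trans ?_
      rw [← Finset.mul_sum]
      apply mul_le_mul_of_nonneg_left _ hR0.le
      have h8 := hsupp a ha hca l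
      have h9 : ∑ h, ((e h l : ℝ) * Real.log b / N h) * ((a h l : ℝ) / (r h : ℝ) - 1 / (n : ℝ)) =
          ∑ h, w h l * ((a h l : ℝ) / r h) - (∑ h, w h l) / n := by
        rw [Finset.sum_div, ← Finset.sum_sub_distrib]
        refine Finset.sum_congr rfl fun h _ => ?_
        rw [← hw]
        ring
      rw [h9] at h8
      linarith
    refine (Finset.sum_le_sum (fun l _ => h1 l)).trans ?_
    rw [← Finset.mul_sum, Finset.sum_add_distrib, ← Finset.sum_div, Finset.sum_comm, ← hSW]
    simp only [Finset.sum_const, Finset.card_univ, Fintype.card_fin, nsmul_eq_mul]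
    rw [hEr]
    apply mul_le_mul_of_nonneg_left _ hR0.le
    linarith
  · -- the smallness
    have hsr : ((∑ h, r h : ℕ) : ℝ) ≤ m * R0 / Nm := by
      push_cast
      calc ∑ h, (r h : ℝ) ≤ ∑ h : Fin m, R0 / Nm := by
            apply Finset.sum_le_sum
            intro h _
            rw [le_div_iff₀ hNm]
            exact (mul_le_mul_of_nonneg_left (hN h) (hrR h).le).trans (hrN2 h)
        _ = m * R0 / Nm := by simp; ring
    set P : ℕ := ∑ h, r h with hP
    obtain ⟨T, hT⟩ : ∃ T : ℝ, T = -(R0 * (SU / n)) + R0 * m * ((n + 4) * σ) := ⟨_, rfl⟩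
    -- bound for each J
    have hterm : ∀ J ∈ Dset m n r, |dJv r Y ξ c J| * ∏ h, (((J h j1).choose (k h) : ℝ) *
        ∏ l, (n * A h l / (b : ℝ) ^ (e h l)) ^ (J h l - if l = j1 then k h else 0)) ≤
        ((2 : ℝ) ^ (n * P) * (C ^ P * (2 * X) ^ P)) * ((2 : ℝ) ^ P * (n : ℝ) ^ P) *
          Real.exp T := by
      intro J hJ
      have hJ' := mem_Dset.1 hJ
      by_cases hzero : dJv r Y ξ c J = 0
      · rw [hzero, abs_zero, zero_mul]; positivity
      have hgood : ∀ l : Fin n, -(σ * m) ≤ ∑ h, u h l * ((J h l : ℝ) / (r h : ℝ) - 1 / (n : ℝ)) := by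
        intro l
        by_contra hcon
        push Not at hcon
        refine hzero (hbad J hJ ⟨l, ?_⟩)
        refine lt_of_eq_of_lt ?_ hcon
        refine Finset.sum_congr rfl fun h _ => ?_
        rw [hu]
      by_cases hkJ : ∀ h, k h ≤ J h j1
      swap
      · push Not at hkJ
        obtain ⟨h, hh⟩ := hkJ
        have : ∏ h, (((J h j1).choose (k h) : ℝ) *
          ∏ l, (n * A h l / (b : ℝ) ^ (e h l)) ^ (J h l - if l = j1 then k h else 0)) = 0 := by
          apply Finset.prod_eq_zero (Finset.mem_univ h)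
          rw [Nat.choose_eq_zero_of_lt hh]; simp
        rw [this, mul_zero]; positivity
      -- first factor
      have hd : |dJv r Y ξ c J| ≤ (2 : ℝ) ^ (n * P) * (C ^ P * (2 * X) ^ P) := by
        refine (dJv_abs_le r Y ξ X hX1 hXξ c (C ^ P) hcC J).trans ?_
        apply mul_le_mul_of_nonneg_right _ (by positivity)
        exact_mod_cast card_Dset_le (n := n) r
      -- Z
      let Z : Fin m → Fin n → ℕ := fun h l => J h l - if l = j1 then k h else 0
      have hZ : ∀ h l, (Z h l : ℝ) = J h l - (if l = j1 then (k h : ℝ) else 0) := by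
        intro h l
        show (((J h l - if l = j1 then k h else 0 : ℕ)) : ℝ) = _
        split_ifs with hl
        · subst hl
          rw [Nat.cast_sub (hkJ h)]
        · simp
      have hJr0 : ∀ h l, 0 ≤ (J h l : ℝ) / r h := fun h l => by
        have := hrR h
        positivity
      have hkr0 : ∀ h, 0 ≤ (k h : ℝ) / r h := fun h => by
        have := hrR h
        positivity
      have hJsum : ∀ h, ∑ l, (J h l : ℝ) / r h = 1 := by
        intro h
        rw [← Finset.sum_div, div_eq_one_iff_eq (hrR h).ne']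
        exact_mod_cast hJ' h
      -- lower bound of each term
      have hZt : ∀ h l, R0 * (u h l * ((J h l : ℝ) / r h)) - 2 * cc * τ * R0 * ((J h l : ℝ) / r h) -
          (if l = j1 then 2 * cc * R0 * ((k h : ℝ) / r h) else 0) ≤
          (Z h l : ℝ) * (-Real.log (A h l) + (e h l : ℝ) * Real.log b) := by
        intro h l
        rw [huN, hZ]
        have hua := abs_le.1 (hu1 h l)
        have e1 : (J h l : ℝ) * N h = ((r h : ℝ) * N h) * ((J h l : ℝ) / r h) := by
          have := (hrR h).ne'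
          field_simp
        have e2 : (k h : ℝ) * N h = ((r h : ℝ) * N h) * ((k h : ℝ) / r h) := by
          have := (hrR h).ne'
          field_simp
        -- first part
        have p1 : R0 * (u h l * ((J h l : ℝ) / r h)) - 2 * cc * τ * R0 * ((J h l : ℝ) / r h) ≤
            (J h l : ℝ) * N h * u h l := by
          rw [e1]
          have d0 : 0 ≤ R0 - (r h : ℝ) * N h := by linarith [hrN2 h]
          have d1 : R0 - (r h : ℝ) * N h ≤ τ * R0 := by linarith [hrN1 h]
          have d2 : (R0 - (r h : ℝ) * N h) * u h l ≤ 2 * cc * τ * R0 := by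
            calc (R0 - (r h : ℝ) * N h) * u h l ≤ (R0 - (r h : ℝ) * N h) * (2 * cc) :=
                  mul_le_mul_of_nonneg_left hua.2 d0
              _ ≤ (τ * R0) * (2 * cc) := mul_le_mul_of_nonneg_right d1 (by linarith)
              _ = _ := by ring
          have d3 := mul_le_mul_of_nonneg_right d2 (hJr0 h l)
          linarith
        have p2 : (k h : ℝ) * N h * u h l ≤ 2 * cc * R0 * ((k h : ℝ) / r h) := by
          have d4 : (k h : ℝ) * N h ≤ R0 * ((k h : ℝ) / r h) := by
            rw [e2]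
            exact mul_le_mul_of_nonneg_right (hrN2 h) (hkr0 h)
          have d5 : 0 ≤ (k h : ℝ) * N h := mul_nonneg (Nat.cast_nonneg _) (hNpos h).le
          calc (k h : ℝ) * N h * u h l ≤ (k h : ℝ) * N h * (2 * cc) :=
                mul_le_mul_of_nonneg_left hua.2 d5
            _ ≤ (R0 * ((k h : ℝ) / r h)) * (2 * cc) := mul_le_mul_of_nonneg_right d4 (by linarith)
            _ = _ := by ring
        split_ifs with hl
        · have e3 : ((J h l : ℝ) - k h) * (u h l * N h) =
              (J h l : ℝ) * N h * u h l - (k h : ℝ) * N h * u h l := by ring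
          rw [e3]
          linarith
        · have e3 : ((J h l : ℝ) - 0) * (u h l * N h) = (J h l : ℝ) * N h * u h l := by ring
          rw [e3]
          linarith
      -- exponent sum
      have hexp : -T ≤ ∑ h, ∑ l, (Z h l : ℝ) * (-Real.log (A h l) + (e h l : ℝ) * Real.log b) := by
        have s1 := Finset.sum_le_sum (fun h (_ : h ∈ (Finset.univ : Finset (Fin m))) =>
          Finset.sum_le_sum (fun l (_ : l ∈ (Finset.univ : Finset (Fin n))) => hZt h l))
        refine le_trans ?_ s1
        have s2 : ∀ h : Fin m, ∑ l, (R0 * (u h l * ((J h l : ℝ) / r h)) -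
            2 * cc * τ * R0 * ((J h l : ℝ) / r h) -
            (if l = j1 then 2 * cc * R0 * ((k h : ℝ) / r h) else 0)) =
            R0 * (∑ l, u h l * ((J h l : ℝ) / r h)) - 2 * cc * τ * R0 -
              2 * cc * R0 * ((k h : ℝ) / r h) := by
          intro h
          rw [Finset.sum_sub_distrib, Finset.sum_sub_distrib, ← Finset.mul_sum, ← Finset.mul_sum,
            hJsum h, Finset.sum_ite_eq' Finset.univ j1, if_pos (Finset.mem_univ j1), mul_one]
        have a1 : ∑ h, R0 * (∑ l, u h l * ((J h l : ℝ) / r h)) =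
            R0 * ∑ h, ∑ l, u h l * ((J h l : ℝ) / r h) := (Finset.mul_sum _ _ _).symm
        have a2 : ∑ _h : Fin m, 2 * cc * τ * R0 = m * (2 * cc * τ * R0) := by
          rw [Finset.sum_const, Finset.card_univ, Fintype.card_fin, nsmul_eq_mul]
        have a3 : ∑ h, 2 * cc * R0 * ((k h : ℝ) / r h) = 2 * cc * R0 * ∑ h, (k h : ℝ) / r h :=
          (Finset.mul_sum _ _ _).symm
        rw [Finset.sum_congr rfl (fun h _ => s2 h), Finset.sum_sub_distrib, Finset.sum_sub_distrib,
          a1, a2, a3]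
        have s3 : SU / n - n * σ * m ≤ ∑ h, ∑ l, u h l * ((J h l : ℝ) / r h) := by
          rw [Finset.sum_comm]
          have s4 := Finset.sum_le_sum (fun l (_ : l ∈ (Finset.univ : Finset (Fin n))) => hgood l)
          simp only [Finset.sum_const, Finset.card_univ, Fintype.card_fin, nsmul_eq_mul] at s4
          have s5 : ∑ l, ∑ h, u h l * ((J h l : ℝ) / (r h : ℝ) - 1 / (n : ℝ)) =
              (∑ l, ∑ h, u h l * ((J h l : ℝ) / r h)) - SU / n := by
            rw [hSU, Finset.sum_comm (f := fun h l => u h l), Finset.sum_div,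
              ← Finset.sum_sub_distrib]
            refine Finset.sum_congr rfl fun l _ => ?_
            rw [Finset.sum_div, ← Finset.sum_sub_distrib]
            refine Finset.sum_congr rfl fun h _ => ?_
            ring
          rw [s5] at s4
          linarith
        have s6 := mul_le_mul_of_nonneg_left s3 hR0.le
        have s7 : 2 * cc * R0 * ∑ h, (k h : ℝ) / r h ≤ 2 * (R0 * m * σ) := by
          calc 2 * cc * R0 * ∑ h, (k h : ℝ) / r h ≤ 2 * cc * R0 * τ :=
                mul_le_mul_of_nonneg_left hk.le (by positivity)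
            _ = 2 * R0 * (cc * τ) := by ring
            _ ≤ 2 * R0 * σ := mul_le_mul_of_nonneg_left hτσ (by positivity)
            _ = 2 * (R0 * 1 * σ) := by ring
            _ ≤ 2 * (R0 * m * σ) := by
                have : R0 * 1 * σ ≤ R0 * m * σ :=
                  mul_le_mul_of_nonneg_right (mul_le_mul_of_nonneg_left hm1 hR0.le) hσ0.le
                linarith
        have s8 : (m : ℝ) * (2 * cc * τ * R0) ≤ 2 * (R0 * m * σ) := by
          calc (m : ℝ) * (2 * cc * τ * R0) = 2 * (R0 * m) * (cc * τ) := by ring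
            _ ≤ 2 * (R0 * m) * σ := mul_le_mul_of_nonneg_left hτσ (by positivity)
            _ = _ := by ring
        have s9 : -T = R0 * (SU / n - n * σ * m) - 4 * (R0 * m * σ) := by
          rw [hT]; ring
        rw [s9]
        linarith
      -- product
      have hprod : ∏ h, (((J h j1).choose (k h) : ℝ) *
          ∏ l, (n * A h l / (b : ℝ) ^ (e h l)) ^ (J h l - if l = j1 then k h else 0)) ≤
          ((2 : ℝ) ^ P * (n : ℝ) ^ P) * Real.exp T := by
        have h1 : ∀ h, ((J h j1).choose (k h) : ℝ) *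
            ∏ l, (n * A h l / (b : ℝ) ^ (e h l)) ^ (J h l - if l = j1 then k h else 0) ≤
            ((2 : ℝ) ^ (r h) * (n : ℝ) ^ (r h)) * Real.exp (-∑ l, (Z h l : ℝ) *
              (-Real.log (A h l) + (e h l : ℝ) * Real.log b)) := by
          intro h
          have h2 : ∀ l, (n * A h l / (b : ℝ) ^ (e h l)) ^ (J h l - if l = j1 then k h else 0) =
              (n : ℝ) ^ (Z h l) * Real.exp (-((Z h l : ℝ) *
              (-Real.log (A h l) + (e h l : ℝ) * Real.log b))) := by
            intro l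
            have h3 : n * A h l / (b : ℝ) ^ (e h l) = n * Real.exp (Real.log (A h l) -
                (e h l : ℝ) * Real.log b) := by
              rw [Real.exp_sub, Real.exp_log (hA h l), mul_div_assoc]
              congr 2
              rw [mul_comm, Real.exp_mul, Real.exp_log hbpos, Real.rpow_natCast]
            rw [h3, mul_pow, ← Real.exp_nat_mul]
            simp only [Z]
            congr 2
            ring
          rw [Finset.prod_congr rfl (fun l _ => h2 l), Finset.prod_mul_distrib,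
            ← Real.exp_sum, Finset.sum_neg_distrib, Finset.prod_pow_eq_pow_sum, ← mul_assoc]
          apply mul_le_mul_of_nonneg_right _ (Real.exp_pos _).le
          apply mul_le_mul _ _ (by positivity) (by positivity)
          · have h4 : (J h j1).choose (k h) ≤ 2 ^ (r h) := by
              refine (Nat.choose_le_two_pow _ _).trans ?_
              apply Nat.pow_le_pow_right (by norm_num)
              have : J h j1 ≤ ∑ l, J h l := Finset.single_le_sum (f := fun l => J h l)
                (fun _ _ => Nat.zero_le _) (Finset.mem_univ j1)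
              rw [hJ' h] at this
              exact this
            exact_mod_cast h4
          · apply pow_le_pow_right₀ hn1
            rw [← hJ' h]
            exact Finset.sum_le_sum (fun l _ => Nat.sub_le _ _)
        refine (Finset.prod_le_prod ?_ (fun h _ => h1 h)).trans ?_
        · intro h _
          apply mul_nonneg (by positivity)
          apply Finset.prod_nonneg
          intro l _
          have := hA h l
          positivity
        · rw [Finset.prod_mul_distrib, Finset.prod_mul_distrib, ← Real.exp_sum,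
            Finset.sum_neg_distrib, Finset.prod_pow_eq_pow_sum, Finset.prod_pow_eq_pow_sum]
          apply mul_le_mul_of_nonneg_left _ (by positivity)
          apply Real.exp_le_exp.2
          linarith
      calc |dJv r Y ξ c J| * ∏ h, (((J h j1).choose (k h) : ℝ) *
          ∏ l, (n * A h l / (b : ℝ) ^ (e h l)) ^ (J h l - if l = j1 then k h else 0)) ≤
          ((2 : ℝ) ^ (n * P) * (C ^ P * (2 * X) ^ P)) * (((2 : ℝ) ^ P * (n : ℝ) ^ P) *
            Real.exp T) := by
            apply mul_le_mul hd hprod _ (by positivity)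
            apply Finset.prod_nonneg
            intro h _
            apply mul_nonneg (by positivity)
            apply Finset.prod_nonneg
            intro l _
            have := hA h l
            positivity
        _ = _ := by ring
    refine lt_of_le_of_lt (Finset.sum_le_card_nsmul _ _ _ hterm) ?_
    rw [nsmul_eq_mul]
    -- assemble
    set Q : ℝ := 2 ^ (2 * n) * C * (2 * X) * 2 * n with hQ
    have hQpos : 0 < Q := by positivity
    have hcard : ((Dset m n r).card : ℝ) ≤ (2 : ℝ) ^ (n * P) := by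
      exact_mod_cast card_Dset_le (n := n) r
    have h1 : ((Dset m n r).card : ℝ) * (((2 : ℝ) ^ (n * P) * (C ^ P * (2 * X) ^ P)) *
        ((2 : ℝ) ^ P * (n : ℝ) ^ P) * Real.exp T) ≤ Q ^ P * Real.exp T := by
      refine (mul_le_mul_of_nonneg_right hcard (by positivity)).trans ?_
      apply le_of_eq
      rw [hQ]
      simp only [mul_pow, ← pow_mul]
      rw [show 2 * n * P = n * P + n * P by ring, pow_add]
      ring
    refine lt_of_le_of_lt h1 ?_
    have h2 : Q ^ P = Real.exp (P * Real.log Q) := by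
      rw [mul_comm, Real.exp_mul, Real.exp_log hQpos, Real.rpow_natCast]
    have h3 : Real.exp (-Er) ≤ ((b : ℝ) ^ ⌊Er / Real.log b⌋₊)⁻¹ := by
      rw [Real.exp_neg]
      apply inv_anti₀ (by positivity)
      have h4 : ((⌊Er / Real.log b⌋₊ : ℕ) : ℝ) ≤ Er / Real.log b := Nat.floor_le (by positivity)
      rw [le_div_iff₀ hlogb] at h4
      calc (b : ℝ) ^ ⌊Er / Real.log b⌋₊ = Real.exp ((⌊Er / Real.log b⌋₊ : ℕ) * Real.log b) := by
            rw [mul_comm, Real.exp_mul, Real.exp_log hbpos, Real.rpow_natCast]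
        _ ≤ Real.exp Er := Real.exp_le_exp.2 h4
    refine lt_of_lt_of_le ?_ h3
    rw [h2, ← Real.exp_add]
    apply Real.exp_lt_exp.2
    -- final inequality
    have hRm : 0 < R0 * m := by positivity
    have h5 : (P : ℝ) * Real.log Q ≤ R0 * m * (γ / (4 * n)) := by
      by_cases hQ0 : 0 ≤ Real.log Q
      · calc (P : ℝ) * Real.log Q ≤ (m * R0 / Nm) * Real.log Q :=
              mul_le_mul_of_nonneg_right hsr hQ0
          _ = R0 * m * (Real.log Q / Nm) := by ring
          _ ≤ _ := mul_le_mul_of_nonneg_left hNγ hRm.le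
      · push Not at hQ0
        have h6 : (P : ℝ) * Real.log Q ≤ 0 := mul_nonpos_of_nonneg_of_nonpos (by positivity) hQ0.le
        have h7 : 0 ≤ R0 * m * (γ / (4 * n)) := by positivity
        linarith
    have h6 : R0 * m * ((2 * n + 4) * σ) ≤ R0 * m * (γ / (4 * n)) :=
      mul_le_mul_of_nonneg_left hσγ hRm.le
    have h7 : R0 * (γ * m / n) ≤ R0 * ((SU - SW) / n) := by
      apply mul_le_mul_of_nonneg_left _ hR0.le
      apply div_le_div_of_nonneg_right _ hnR.le
      linarith
    have h8 : R0 * (γ * m / n) = 4 * (R0 * m * (γ / (4 * n))) := by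
      field_simp
    have h9 : 0 < R0 * m * (γ / (4 * n)) := by positivity
    have h10 : R0 * ((SU - SW) / n) = R0 * (SU / n) - R0 * (SW / n) := by ring
    have h11 : R0 * (SW / n + n * σ * m) = R0 * (SW / n) + R0 * m * (n * σ) := by ring
    have h12 : R0 * m * ((2 * n + 4) * σ) = R0 * m * ((n + 4) * σ) + R0 * m * (n * σ) := by ring
    rw [hT, hEr, h11]
    linarith

end Pool.Agent.H723.QJ
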