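import Mathlib
import Pool.Agent.H723.QR.Fin3
import Pool.Agent.H723.QJ.CoreV

/-! The codimension one subspace theorem for several numbers: a finite sequence of
approximations. -/

set_option autoImplicit false

open Finset

namespace Pool.Agent.H723.QJ

open Pool.Agent.H393R2 Pool.Agent.H723.QS Pool.Agent.H723.PT Pool.Agent.H723.QR

theorem core_finv (n' : ℕ) (hn : 1 ≤ n') (Y j1 j2 : Fin (n' + 1)) (hj1 : j1 ≠ Y) (hj12 : j1 ≠ j2)
    (ξ : Fin (n' + 1) → ℝ) (hξ : ∀ l, IsIntegral ℤ (ξ l)) (cA γ : ℝ) (hcA : 1 ≤ cA) (hγ : 0 < γ) (hγ1 : γ ≤ 1) :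
    ∃ K : ℝ, 1 ≤ K ∧ ∀ b : ℕ, 2 ≤ b → ∀ c : ℝ, cA ≤ c →
      ∀ T : ℕ, K * c ^ 2 ≤ T → ∀ N : Fin T → ℝ,
      (∀ t, Real.exp (K * (c ^ 2 * (1 + Real.log c))) ≤ N t) →
      (∀ t t', t < t' → Real.exp (K * (1 + Real.log c)) * N t ≤ N t') →
      ∀ e : Fin T → Fin (n' + 1) → ℕ, (∀ t, e t Y = 0) →
      (∀ t l, (e t l : ℝ) * Real.log b ≤ c * N t) →
      ∀ (x : Fin T → Fin (n' + 1) → ℤ) (A : Fin T → Fin (n' + 1) → ℝ), (∀ t l, 0 < A t l) →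
      (∀ t l, |-Real.log (A t l)| ≤ cA * N t) → (∀ t, γ * N t ≤ ∑ l, -Real.log (A t l)) →
      ∀ w : Fin T → Fin n' → Fin (n' + 1) → ℤ, (∀ t, LinearIndependent ℤ (w t)) →
      (∀ t i, ∑ l, x t l * w t i l = 0) →
      (∀ t i l, |(w t i l : ℝ) - (if l = Y then 0 else ξ l * (b : ℝ) ^ (e t l) * w t i Y)|
        ≤ A t l) →
      (∀ t, x t j1 ≠ 0) → ∀ p q : Fin T → ℤ, (∀ t, IsCoprime (p t) (q t)) →
      (∀ t, x t j1 * (b : ℤ) ^ (e t j1) * p t = -(x t j2 * (b : ℤ) ^ (e t j2) * q t)) →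
      (∀ t, q t ≠ 0) →
      (∀ t, N t / c ≤ Real.log (max |(p t : ℝ)| |(q t : ℝ)|)) → False := by
  classical
  obtain ⟨C, hC, Dg, hDg, haux⟩ := aux_gen_v (n' + 1) (by omega) Y ξ hξ
  set n : ℝ := ((n' + 1 : ℕ) : ℝ) with hn_def
  have hn2 : (2 : ℝ) ≤ n := by
    rw [hn_def]; exact_mod_cast (by omega : 2 ≤ n' + 1)
  obtain ⟨X, hX⟩ : ∃ X : ℝ, X = 1 + ∑ l, |ξ l| := ⟨_, rfl⟩
  have hX1 : 1 ≤ X := by
    have : 0 ≤ ∑ l, |ξ l| := Finset.sum_nonneg (fun l _ => abs_nonneg _)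
    rw [hX]; linarith
  have hXξ : ∀ l, |ξ l| ≤ X := by
    intro l
    have : |ξ l| ≤ ∑ l, |ξ l| :=
      Finset.single_le_sum (f := fun l => |ξ l|) (fun l _ => abs_nonneg _) (Finset.mem_univ l)
    rw [hX]; linarith
  set Q : ℝ := Real.log (2 ^ (2 * (n' + 1)) * C * (2 * X) * 2 * n) with hQ
  have hQ0 : 0 ≤ Q := by
    rw [hQ]
    apply Real.log_nonneg
    have h1 : (1 : ℝ) ≤ 2 ^ (2 * (n' + 1)) := one_le_pow₀ (by norm_num)
    have h2 : (1 : ℝ) ≤ 2 ^ (2 * (n' + 1)) * C := by nlinarith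
    have h3 : (1 : ℝ) ≤ 2 ^ (2 * (n' + 1)) * C * (2 * X) := by nlinarith
    have h4 : (1 : ℝ) ≤ 2 ^ (2 * (n' + 1)) * C * (2 * X) * 2 := by linarith
    nlinarith
  obtain ⟨K, hK1, hpar⟩ := params5 n hn2 C Q Dg hDg hC hQ0 γ hγ hγ1
  refine ⟨K, hK1, ?_⟩
  intro b hb c hc T hT N hN1 hN2 e heY he x A hApos hA hprod w hw horth hbd hx1 p q hpq
    hrat hq0 hht
  have hc1 : 1 ≤ c := hcA.trans hc
  have hc0 : 0 < c := by linarith
  obtain ⟨τ, σ, m, hτ0, hτ12, hσ, hτσ, hmσ, hσγ, hm0, hP1, hP2, hP3, hP4, hP5⟩ := hpar c hc1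
  have hNpos : ∀ t, 0 < N t := fun t => lt_of_lt_of_le (Real.exp_pos _) (hN1 t)
  have hmT : m ≤ T := by exact_mod_cast hP5.trans hT
  have hlc : 0 ≤ Real.log c := Real.log_nonneg hc1
  set tt : Fin m → Fin T := fun h => Fin.castLE hmT h with htt
  have httlt : ∀ i j : Fin m, i < j → tt i < tt j := fun i j hij => hij
  refine core_v n' hn b hb ξ Y j1 j2 hj1 hj12 C hC Dg haux m hm0 τ hτ0 hτ12
    c c γ σ hc1 hc1 hγ hσ hτσ hmσ X hX1 hXξ hσγ (Real.exp (K * (c ^ 2 * (1 + Real.log c))))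
    (Real.one_le_exp (by positivity)) hP1 hP2 hP3
    (fun h => N (tt h)) (fun h => hN1 _) ?_ (fun h => e (tt h)) (fun h => heY _)
    (fun h => x (tt h)) (fun h => A (tt h)) (fun h l => hApos _ _) ?_ (fun h l => he _ l)
    (fun h => hprod _) (fun h => w (tt h))
    (fun h => hw _) (fun h i => horth _ i) (fun h i l => hbd _ i l) (fun h => hx1 _)
    (fun h => p (tt h)) (fun h => q (tt h)) (fun h => hpq _) (fun h => hrat _) (fun h => hq0 _)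
    (fun h => hht _)
  · -- growth
    intro i j hij
    refine le_trans ?_ (hN2 _ _ (httlt i j hij))
    exact mul_le_mul_of_nonneg_right hP4 (hNpos _).le
  · intro h l
    exact (hA (tt h) l).trans (mul_le_mul_of_nonneg_right hc (hNpos _).le)

end Pool.Agent.H723.QJ
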