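import Mathlib

set_option autoImplicit false

open Finset

namespace Pool.Agent.H723.QJ

namespace Liou

theorem ne_zero {n : ℕ} {β : Fin n → ℝ}
    (hlin : LinearIndependent ℚ (Fin.cons 1 β : Fin (n + 1) → ℝ)) {x : Fin n → ℤ} {x0 : ℤ}
    (h : x ≠ 0 ∨ x0 ≠ 0) : ∑ i, (x i : ℝ) * β i + x0 ≠ 0 := by
  intro h0
  have h1 := Fintype.linearIndependent_iff.1 hlin (Fin.cons (x0 : ℚ) (fun i => (x i : ℚ))) (by
    rw [Fin.sum_univ_succ]
    simp only [Fin.cons_zero, Fin.cons_succ, Rat.smul_def, Rat.cast_intCast, mul_one]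
    rw [add_comm]
    exact h0)
  rcases h with h | h
  · apply h
    funext i
    have := h1 i.succ
    rw [Fin.cons_succ] at this
    exact_mod_cast this
  · apply h
    have := h1 0
    rw [Fin.cons_zero] at this
    exact_mod_cast this

theorem field (K : Type) [Field K] [NumberField K] (ι : K →+* ℝ) (n : ℕ) (b : Fin n → K) :
    ∃ c : ℝ, 0 < c ∧ ∃ d : ℕ, ∀ X : ℝ, 1 ≤ X → ∀ (x : Fin n → ℤ) (x0 : ℤ),
      (∑ i, (x i : ℝ) * ι (b i) + x0 ≠ 0) →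
      (∀ i, |(x i : ℝ)| ≤ X) → |(x0 : ℝ)| ≤ X → c / X ^ d ≤ |∑ i, (x i : ℝ) * ι (b i) + x0| := by
  classical
  obtain ⟨q, hq0, hq⟩ := exists_integral_multiples ℤ ℚ (Finset.univ.image b)
  have hq0' : (0 : ℝ) < |(q : ℝ)| := abs_pos.2 (by exact_mod_cast hq0)
  set B : ℝ := 1 + ∑ σ : K →ₐ[ℚ] ℂ, (∑ i, ‖σ (q • b i)‖ + |(q : ℝ)|) with hB
  have hB1 : 1 ≤ B := by
    rw [hB]
    have : 0 ≤ ∑ σ : K →ₐ[ℚ] ℂ, (∑ i, ‖σ (q • b i)‖ + |(q : ℝ)|) := by positivity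
    linarith
  have hBσ : ∀ σ : K →ₐ[ℚ] ℂ, ∑ i, ‖σ (q • b i)‖ + |(q : ℝ)| ≤ B := by
    intro σ
    have h1 := Finset.single_le_sum (f := fun σ : K →ₐ[ℚ] ℂ => ∑ i, ‖σ (q • b i)‖ + |(q : ℝ)|)
      (fun σ _ => by positivity) (Finset.mem_univ σ)
    rw [hB]
    linarith
  set D : ℕ := Fintype.card (K →ₐ[ℚ] ℂ) with hD
  refine ⟨1 / (|(q : ℝ)| * B ^ D), by positivity, D, fun X hX x x0 hz hx hx0 => ?_⟩
  set z : K := ∑ i, (x i : K) * b i + x0 with hzdef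
  set w : K := q • z with hwdef
  have hw : w = ∑ i, (x i : K) * (q • b i) + x0 * q := by
    rw [hwdef, hzdef, smul_add, Finset.smul_sum]
    congr 1
    · refine Finset.sum_congr rfl fun i _ => ?_
      rw [mul_smul_comm]
    · rw [zsmul_eq_mul, mul_comm]
  have hιz : ι z = ∑ i, (x i : ℝ) * ι (b i) + x0 := by
    rw [hzdef]
    simp
  have hz0 : z ≠ 0 := by
    intro h0
    apply hz
    rw [← hιz, h0, map_zero]
  have hw0 : w ≠ 0 := by
    rw [hwdef]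
    exact smul_ne_zero hq0 hz0
  have hwint : IsIntegral ℤ w := by
    rw [hw]
    refine IsIntegral.add (IsIntegral.sum _ fun i _ => ?_) ?_
    · refine IsIntegral.mul ?_ (hq _ (Finset.mem_image_of_mem _ (Finset.mem_univ i)))
      exact isIntegral_algebraMap (R := ℤ) (x := x i)
    · refine IsIntegral.mul ?_ ?_
      · exact isIntegral_algebraMap (R := ℤ) (x := x0)
      · exact isIntegral_algebraMap (R := ℤ) (x := q)
  -- the norm
  have hnorm : 1 ≤ ∏ σ : K →ₐ[ℚ] ℂ, ‖σ w‖ := by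
    have h1 := Algebra.norm_eq_prod_embeddings ℚ ℂ w
    have h2 : IsIntegral ℤ (Algebra.norm ℚ w) := Algebra.isIntegral_norm ℚ hwint
    obtain ⟨N, hN⟩ := IsIntegrallyClosed.isIntegral_iff.1 h2
    have hN0 : N ≠ 0 := by
      intro h0
      rw [h0, map_zero] at hN
      exact (Algebra.norm_ne_zero_iff.2 hw0) hN.symm
    rw [← norm_prod, ← h1, ← hN]
    have h3 : (algebraMap ℚ ℂ) ((algebraMap ℤ ℚ) N) = (N : ℂ) := by simp
    rw [h3, Complex.norm_intCast]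
    exact_mod_cast Int.one_le_abs hN0
  -- the bound of the conjugates
  have hσ : ∀ σ : K →ₐ[ℚ] ℂ, ‖σ w‖ ≤ B * X := by
    intro σ
    rw [hw, map_add, map_sum, map_mul, map_intCast, map_intCast]
    calc ‖∑ i, σ ((x i : K) * (q • b i)) + (x0 : ℂ) * (q : ℂ)‖
        ≤ ∑ i, ‖σ ((x i : K) * (q • b i))‖ + ‖(x0 : ℂ) * (q : ℂ)‖ :=
          (norm_add_le _ _).trans (add_le_add (norm_sum_le _ _) le_rfl)
      _ ≤ ∑ i, X * ‖σ (q • b i)‖ + X * |(q : ℝ)| := by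
          refine add_le_add (Finset.sum_le_sum fun i _ => ?_) ?_
          · rw [map_mul, map_intCast, norm_mul, Complex.norm_intCast]
            exact mul_le_mul_of_nonneg_right (hx i) (norm_nonneg _)
          · rw [norm_mul, Complex.norm_intCast, Complex.norm_intCast]
            exact mul_le_mul_of_nonneg_right hx0 (abs_nonneg _)
      _ = (∑ i, ‖σ (q • b i)‖ + |(q : ℝ)|) * X := by
          rw [← Finset.mul_sum]; ring
      _ ≤ B * X := mul_le_mul_of_nonneg_right (hBσ σ) (by linarith)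
  -- the embedding
  set σ₀ : K →ₐ[ℚ] ℂ := ((Complex.ofRealHom).comp ι).toRatAlgHom with hσ₀
  have hσ₀w : ‖σ₀ w‖ = |(q : ℝ)| * |∑ i, (x i : ℝ) * ι (b i) + x0| := by
    have h1 : σ₀ w = ((ι w : ℝ) : ℂ) := rfl
    rw [h1, Complex.norm_real, Real.norm_eq_abs, hwdef, zsmul_eq_mul, map_mul, map_intCast, hιz,
      abs_mul]
  have hBX : 1 ≤ B * X := one_le_mul_of_one_le_of_one_le hB1 hX
  have hmain : 1 ≤ ‖σ₀ w‖ * (B * X) ^ D := by
    calc (1 : ℝ) ≤ ∏ σ : K →ₐ[ℚ] ℂ, ‖σ w‖ := hnorm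
      _ = ‖σ₀ w‖ * ∏ σ ∈ Finset.univ.erase σ₀, ‖σ w‖ :=
          (Finset.mul_prod_erase Finset.univ (fun σ : K →ₐ[ℚ] ℂ => ‖σ w‖)
            (Finset.mem_univ σ₀)).symm
      _ ≤ ‖σ₀ w‖ * ∏ _σ ∈ Finset.univ.erase σ₀, (B * X) := by
          refine mul_le_mul_of_nonneg_left ?_ (norm_nonneg _)
          exact Finset.prod_le_prod (fun σ _ => norm_nonneg _) fun σ _ => hσ σ
      _ = ‖σ₀ w‖ * (B * X) ^ (Finset.univ.erase σ₀).card := by rw [Finset.prod_const]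
      _ ≤ ‖σ₀ w‖ * (B * X) ^ D := by
          refine mul_le_mul_of_nonneg_left ?_ (norm_nonneg _)
          refine pow_le_pow_right₀ hBX ?_
          rw [hD, ← Finset.card_univ]
          exact Finset.card_le_card (Finset.erase_subset _ _)
  rw [hσ₀w, mul_pow] at hmain
  have hXD : 0 < X ^ D := by positivity
  have hBD : 0 < B ^ D := by positivity
  rw [div_div, div_le_iff₀ (by positivity)]
  calc (1 : ℝ) ≤ |(q : ℝ)| * |∑ i, (x i : ℝ) * ι (b i) + x0| * (B ^ D * X ^ D) := hmain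
    _ = |∑ i, (x i : ℝ) * ι (b i) + x0| * (|(q : ℝ)| * B ^ D * X ^ D) := by ring

end Liou

/-- Liouville's inequality for linear forms in real algebraic numbers. -/
theorem liou (n : ℕ) (β : Fin n → ℝ) (hβ : ∀ i, IsAlgebraic ℚ (β i))
    (hlin : LinearIndependent ℚ (Fin.cons 1 β : Fin (n + 1) → ℝ)) :
    ∃ c : ℝ, 0 < c ∧ ∃ d : ℕ, ∀ X : ℝ, 1 ≤ X → ∀ (x : Fin n → ℤ) (x0 : ℤ), (x ≠ 0 ∨ x0 ≠ 0) →
      (∀ i, |(x i : ℝ)| ≤ X) → |(x0 : ℝ)| ≤ X → c / X ^ d ≤ |∑ i, (x i : ℝ) * β i + x0| := by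
  have hfd : FiniteDimensional ℚ (IntermediateField.adjoin ℚ (Set.range β)) := by
    apply IntermediateField.finiteDimensional_adjoin
    rintro _ ⟨i, rfl⟩
    exact (hβ i).isIntegral
  have hnf : NumberField (IntermediateField.adjoin ℚ (Set.range β)) :=
    { to_charZero := inferInstance, to_finiteDimensional := hfd }
  obtain ⟨c, hc, d, h⟩ := Liou.field (IntermediateField.adjoin ℚ (Set.range β))
    (algebraMap (IntermediateField.adjoin ℚ (Set.range β)) ℝ) n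
    (fun i => ⟨β i, IntermediateField.subset_adjoin ℚ _ ⟨i, rfl⟩⟩)
  exact ⟨c, hc, d, fun X hX x x0 hne hx hx0 => h X hX x x0 (Liou.ne_zero hlin hne) hx hx0⟩

end Pool.Agent.H723.QJ
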