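import Mathlib

set_option autoImplicit false

open Finset

namespace Pool.Agent.H723.QJ

/-- the height of the quotient for a sum of several numbers times one power -/
theorem heights_cluster (s : ℕ) (β : Fin (s + 1) → ℝ)
    (hL : ∃ c : ℝ, 0 < c ∧ ∃ d : ℕ, ∀ X : ℝ, 1 ≤ X → ∀ (x : Fin (s + 1) → ℤ) (x0 : ℤ),
      (x ≠ 0 ∨ x0 ≠ 0) → (∀ i, |(x i : ℝ)| ≤ X) → |(x0 : ℝ)| ≤ X →
      c / X ^ d ≤ |∑ i, (x i : ℝ) * β i + x0|) :
    ∃ c : ℝ, 1 ≤ c ∧ ∃ ε₀ : ℝ, 0 < ε₀ ∧ ∀ b : ℕ, 2 ≤ b → ∀ η : ℝ, 0 < η → ∀ L : ℕ,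
      c ≤ L * Real.log b → ∀ e : ℕ, L ≤ e → ∀ (lam : Fin (s + 1) → ℤ) (P : ℤ),
      (∀ i, lam i ≠ 0) → (∀ i, |(lam i : ℝ)| ≤ Real.exp (ε₀ * (L * Real.log b))) →
      |∑ i, (lam i : ℝ) * (β i * (b : ℝ) ^ e) - P| ≤ Real.exp (-(η * (L * Real.log b))) →
      ∀ p q : ℤ, q ≠ 0 → lam 0 * (b : ℤ) ^ e * p = P * q →
        (L * Real.log b) / c ≤ Real.log (max |(p : ℝ)| |(q : ℝ)|) := by
  obtain ⟨c1, hc1, d, hL⟩ := hL
  have hd : (0 : ℝ) ≤ d := Nat.cast_nonneg d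
  obtain ⟨c, hc⟩ : ∃ c : ℝ, c = 8 * (d + 1) + 8 * |Real.log c1| := ⟨_, rfl⟩
  have hcl : 0 ≤ |Real.log c1| := abs_nonneg _
  have hc8 : 8 * (d + 1) ≤ c := by rw [hc]; linarith
  have hcpos : 0 < c := by linarith
  refine ⟨c, by linarith, 1 / (8 * (d + 1)), by positivity, ?_⟩
  intro b hb η hη L hN e he lam P hlam hlamX hδ p q hq hpq
  obtain ⟨N, hNd⟩ : ∃ N : ℝ, N = L * Real.log b := ⟨_, rfl⟩
  rw [← hNd] at hN hlamX hδ ⊢
  have hN0 : 0 < N := by linarith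
  by_contra hcon
  rw [not_le] at hcon
  have hb0 : (0 : ℝ) < b := by
    have : 0 < b := by omega
    exact_mod_cast this
  have hb1 : (1 : ℝ) ≤ b := by
    have : 1 ≤ b := by omega
    exact_mod_cast this
  have hq1 : (1 : ℝ) ≤ |(q : ℝ)| := by
    have := Int.one_le_abs hq
    exact_mod_cast this
  have hM1 : 1 ≤ max |(p : ℝ)| |(q : ℝ)| := hq1.trans (le_max_right _ _)
  have hM : max |(p : ℝ)| |(q : ℝ)| ≤ Real.exp (N / c) := by
    rw [← Real.log_le_iff_le_exp (by linarith)]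
    exact hcon.le
  have hpM : |(p : ℝ)| ≤ Real.exp (N / c) := (le_max_left _ _).trans hM
  have hqM : |(q : ℝ)| ≤ Real.exp (N / c) := (le_max_right _ _).trans hM
  obtain ⟨X, hX⟩ : ∃ X : ℝ, X = Real.exp (1 / (8 * (d + 1)) * N + N / c) := ⟨_, rfl⟩
  have hX1 : 1 ≤ X := by
    rw [hX]
    refine Real.one_le_exp ?_
    positivity
  have hXm : ∀ (u v : ℤ), |(u : ℝ)| ≤ Real.exp (N / c) → |(v : ℝ)| ≤ Real.exp (1 / (8 * (d + 1)) * N) →
      |((u * v : ℤ) : ℝ)| ≤ X := by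
    intro u v hu hv
    rw [Int.cast_mul, abs_mul, hX, Real.exp_add, mul_comm (Real.exp _)]
    exact mul_le_mul hu hv (abs_nonneg _) (Real.exp_pos _).le
  have h1 := hL X hX1 (fun i => q * lam i) (-(p * lam 0)) (Or.inl fun h => by
      have h2 := congrFun h 0
      simp only [Pi.zero_apply, mul_eq_zero] at h2
      rcases h2 with h2 | h2
      · exact hq h2
      · exact hlam 0 h2) (fun i => hXm q (lam i) hqM (hlamX i)) (by
      rw [Int.cast_neg, abs_neg]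
      exact hXm p (lam 0) hpM (hlamX 0))
  have hbe : 0 < (b : ℝ) ^ e := by positivity
  have hbN : Real.exp N ≤ (b : ℝ) ^ e := by
    rw [hNd, mul_comm, Real.exp_mul, Real.exp_log hb0, Real.rpow_natCast]
    exact pow_le_pow_right₀ hb1 he
  have hpq' : (lam 0 : ℝ) * (b : ℝ) ^ e * p = P * q := by exact_mod_cast hpq
  have h2 : (∑ i, (lam i : ℝ) * (β i * (b : ℝ) ^ e) - P) * q =
      (b : ℝ) ^ e * (∑ i, ((q * lam i : ℤ) : ℝ) * β i + ((-(p * lam 0) : ℤ) : ℝ)) := by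
    rw [sub_mul, ← hpq', mul_add, Finset.mul_sum, Finset.sum_mul, sub_eq_add_neg]
    congr 1
    · refine Finset.sum_congr rfl fun i _ => ?_
      push_cast
      ring
    · push_cast
      ring
  have h3 : (b : ℝ) ^ e * |∑ i, ((q * lam i : ℤ) : ℝ) * β i + ((-(p * lam 0) : ℤ) : ℝ)| ≤
      Real.exp (N / c) := by
    have h4 : (b : ℝ) ^ e * |∑ i, ((q * lam i : ℤ) : ℝ) * β i + ((-(p * lam 0) : ℤ) : ℝ)| =
        |∑ i, (lam i : ℝ) * (β i * (b : ℝ) ^ e) - P| * |(q : ℝ)| := by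
      rw [← abs_mul, h2, abs_mul, abs_of_pos hbe]
    rw [h4]
    have h5 : |∑ i, (lam i : ℝ) * (β i * (b : ℝ) ^ e) - P| ≤ 1 := by
      refine hδ.trans ?_
      rw [Real.exp_le_one_iff]
      have := mul_pos hη hN0
      linarith
    calc |∑ i, (lam i : ℝ) * (β i * (b : ℝ) ^ e) - P| * |(q : ℝ)| ≤ 1 * Real.exp (N / c) :=
          mul_le_mul h5 hqM (abs_nonneg _) zero_le_one
      _ = Real.exp (N / c) := one_mul _
  have h6 : Real.exp N * (c1 / X ^ d) ≤ Real.exp (N / c) := by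
    refine le_trans ?_ h3
    exact mul_le_mul hbN h1 (by positivity) hbe.le
  have h7 : c1 ≤ Real.exp (N / c - N + d * (1 / (8 * (d + 1)) * N + N / c)) := by
    have hXd : 0 < X ^ d := by positivity
    have h8 : X ^ d = Real.exp (d * (1 / (8 * (d + 1)) * N + N / c)) := by
      rw [hX, ← Real.exp_nat_mul]
    rw [Real.exp_add, ← h8, Real.exp_sub]
    rw [← div_le_iff₀ hXd, le_div_iff₀ (Real.exp_pos _), mul_comm]
    exact h6
  have h9 : Real.log c1 ≤ N / c - N + d * (1 / (8 * (d + 1)) * N + N / c) := by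
    rw [Real.log_le_iff_le_exp hc1]
    exact h7
  have h10 : -(N / 8) ≤ Real.log c1 := by
    have h11 := neg_abs_le (Real.log c1)
    have h12 : 8 * |Real.log c1| ≤ N := by linarith
    linarith
  have h13 : (d : ℝ) * (1 / (8 * (d + 1)) * N) ≤ N / 8 := by
    have h14 : (d : ℝ) * (1 / (8 * (d + 1)) * N) = (d / (d + 1)) * (N / 8) := by
      field_simp
    rw [h14]
    have h15 : (d : ℝ) / (d + 1) ≤ 1 := by
      rw [div_le_one (by positivity)]
      linarith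
    exact mul_le_of_le_one_left (by positivity) h15
  have h16 : (d + 1) * (N / c) ≤ N / 8 := by
    have h17 : (d + 1) * (N / c) = (8 * (d + 1)) / c * (N / 8) := by
      field_simp
    rw [h17]
    exact mul_le_of_le_one_left (by positivity) ((div_le_one hcpos).2 hc8)
  have h18 : N / c - N + d * (1 / (8 * (d + 1)) * N + N / c) =
      (d + 1) * (N / c) - N + d * (1 / (8 * (d + 1)) * N) := by ring
  rw [h18] at h9
  linarith

end Pool.Agent.H723.QJ
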