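import Mathlib
import Pool.Agent.H723.QR.Gap3
import Pool.Agent.H723.QJ.Defs
import Pool.Agent.H723.QJ.J5
import Pool.Agent.H723.QJ.J6

/-! The gap principle and the heights, for several numbers. -/

set_option autoImplicit false

open Finset

namespace Pool.Agent.H723.QJ

open Pool.Agent.H393R2 Pool.Agent.H723.QR

theorem form_combV {s : ℕ} (θ : Fin s → ℝ) (lam lam' : Fin s → ℤ) (P P' u v : ℤ) :
    ∑ i, ((u * lam i - v * lam' i : ℤ) : ℝ) * θ i - ((u * P - v * P' : ℤ) : ℝ) =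
      u * (∑ i, (lam i : ℝ) * θ i - P) - v * (∑ i, (lam' i : ℝ) * θ i - P') := by
  push_cast
  simp only [sub_mul, Finset.sum_sub_distrib, mul_sub, Finset.mul_sum, mul_assoc]
  ring

theorem not_badV_zero (b : ℕ) {k R : ℕ} (α : Fin k → ℝ) (g : Fin 0 → Fin R × Fin k)
    (η ε κ ρ : ℝ) (L : ℕ) : ¬ BadV b α 0 g η ε κ ρ L := by
  rintro ⟨_, _, lam, hlam, _⟩
  apply hlam
  funext i
  exact Fin.elim0 i

theorem gapV {b : ℕ} (hb : 2 ≤ b) {k R : ℕ} (α : Fin k → ℝ) {s : ℕ}
    (g : Fin (s + 1) → Fin R × Fin k) (κ ρ δ1 ε' : ℝ)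
    (hδ1 : 0 < δ1) (hε' : 0 < ε') (L : ℕ) (hL2 : 2 / ε' ≤ L) (hL3 : 4 / δ1 ≤ L)
    (hnb : ∀ j : Fin (s + 1), ¬ BadV b α s (fun i => g (j.succAbove i)) (δ1 / 4) ε' κ ρ L)
    (e : Fin R → ℕ) (he : AdmV R κ ρ L e)
    (lam lam' : Fin (s + 1) → ℤ) (P P' : ℤ) (hlam : lam ≠ 0)
    (hle : ∀ i, |(lam i : ℝ)| ≤ Real.exp (min (ε' / 4) (δ1 / 4) * (L * Real.log b)))
    (hle' : ∀ i, |(lam' i : ℝ)| ≤ Real.exp (min (ε' / 4) (δ1 / 4) * (L * Real.log b)))
    (hf : |∑ i, (lam i : ℝ) * (α (g i).2 * (b : ℝ) ^ (e (g i).1)) - P| ≤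
      Real.exp (-(δ1 * (L * Real.log b))))
    (hf' : |∑ i, (lam' i : ℝ) * (α (g i).2 * (b : ℝ) ^ (e (g i).1)) - P'| ≤
        Real.exp (-(δ1 * (L * Real.log b))))
    (hind : ∀ u v : ℤ, (∀ i, u * lam i - v * lam' i = 0) → u * P - v * P' = 0 → v = 0) :
    False := by
  set δ' : ℝ := δ1 / 4 with hδ'
  have hδ'0 : 0 < δ' := by positivity
  set ε : ℝ := min (ε' / 4) (δ1 / 4) with hεdef
  have hε : 0 < ε := by rw [hεdef]; apply lt_min <;> positivity
  set N : ℝ := (L : ℝ) * Real.log b with hN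
  have hN0 : 0 ≤ N := by
    have := Real.log_natCast_nonneg b
    positivity
  have he1 : 2 ≤ Real.exp (ε' / 2 * N) := by
    apply two_le_exp hb
    rw [div_le_iff₀ hε'] at hL2
    linarith
  have he2 : 2 ≤ Real.exp (δ1 / 4 * N) := by
    apply two_le_exp hb
    rw [div_le_iff₀ hδ1] at hL3
    linarith
  -- choose j
  obtain ⟨j, hj⟩ : ∃ j, lam j ≠ 0 := by
    by_contra hcon
    push Not at hcon
    exact hlam (funext hcon)
  obtain ⟨θ, hθ⟩ : ∃ θ : Fin (s + 1) → ℝ, θ = fun i => α (g i).2 * (b : ℝ) ^ (e (g i).1) :=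
    ⟨_, rfl⟩
  have hfθ : |∑ i, (lam i : ℝ) * θ i - P| ≤ Real.exp (-(δ1 * N)) := by rw [hθ]; exact hf
  have hfθ' : |∑ i, (lam' i : ℝ) * θ i - P'| ≤ Real.exp (-(δ1 * N)) := by rw [hθ]; exact hf'
  set y : Fin (s + 1) → ℤ := fun i => lam' j * lam i - lam j * lam' i with hy
  set Py : ℤ := lam' j * P - lam j * P' with hPy
  have hyj : y j = 0 := by rw [hy]; ring
  have hform : ∑ i, (y i : ℝ) * θ i - Py =
      lam' j * (∑ i, (lam i : ℝ) * θ i - P) -
      lam j * (∑ i, (lam' i : ℝ) * θ i - P') :=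
    form_combV θ lam lam' P P' (lam' j) (lam j)
  have hformle : |∑ i, (y i : ℝ) * θ i - Py| ≤
      2 * Real.exp (ε * N - δ1 * N) := by
    rw [hform]
    refine le_trans (abs_sub _ _) ?_
    rw [abs_mul, abs_mul]
    have h1 : |(lam' j : ℝ)| * |∑ i, (lam i : ℝ) * θ i - P| ≤
        Real.exp (ε * N) * Real.exp (-(δ1 * N)) :=
      mul_le_mul (hle' j) hfθ (abs_nonneg _) (Real.exp_pos _).le
    have h2 : |(lam j : ℝ)| * |∑ i, (lam' i : ℝ) * θ i - P'| ≤
        Real.exp (ε * N) * Real.exp (-(δ1 * N)) :=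
      mul_le_mul (hle j) hfθ' (abs_nonneg _) (Real.exp_pos _).le
    rw [← Real.exp_add] at h1 h2
    have h3 : ε * N + -(δ1 * N) = ε * N - δ1 * N := by ring
    rw [h3] at h1 h2
    linarith
  have hyle : ∀ i, |(y i : ℝ)| ≤ 2 * Real.exp (2 * ε * N) := by
    intro i
    rw [hy]
    push_cast
    refine le_trans (abs_sub _ _) ?_
    rw [abs_mul, abs_mul]
    have h1 : |(lam' j : ℝ)| * |(lam i : ℝ)| ≤ Real.exp (ε * N) * Real.exp (ε * N) :=
      mul_le_mul (hle' j) (hle i) (abs_nonneg _) (Real.exp_pos _).le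
    have h2 : |(lam j : ℝ)| * |(lam' i : ℝ)| ≤ Real.exp (ε * N) * Real.exp (ε * N) :=
      mul_le_mul (hle j) (hle' i) (abs_nonneg _) (Real.exp_pos _).le
    rw [← Real.exp_add] at h1 h2
    have h3 : ε * N + ε * N = 2 * ε * N := by ring
    rw [h3] at h1 h2
    linarith
  have hεδ : ε ≤ δ1 / 4 := min_le_right _ _
  have hεε : ε ≤ ε' / 4 := min_le_left _ _
  have hsmall : 2 * Real.exp (ε * N - δ1 * N) ≤ Real.exp (-(δ' * N)) := by
    calc 2 * Real.exp (ε * N - δ1 * N) ≤ Real.exp (δ1 / 4 * N) * Real.exp (ε * N - δ1 * N) :=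
          mul_le_mul_of_nonneg_right he2 (Real.exp_pos _).le
      _ = Real.exp (δ1 / 4 * N + (ε * N - δ1 * N)) := by rw [Real.exp_add]
      _ ≤ Real.exp (-(δ' * N)) := by
          apply Real.exp_le_exp.mpr
          nlinarith
  by_cases hy0 : (fun i => y (j.succAbove i)) = 0
  · -- then the integer Py is small
    have hyall : ∀ i, y i = 0 := by
      intro i
      rcases Fin.eq_self_or_eq_succAbove j i with h1 | ⟨k, h1⟩
      · rw [h1]; exact hyj
      · rw [h1]; exact congrFun hy0 k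
    have hPy0 : Py = 0 := by
      by_contra hne
      have h1 : (1 : ℝ) ≤ |(Py : ℝ)| := by
        exact_mod_cast Int.one_le_abs hne
      have h2 : |(Py : ℝ)| ≤ 2 * Real.exp (ε * N - δ1 * N) := by
        have h3 : ∑ i, (y i : ℝ) * θ i - Py = -(Py : ℝ) := by
          simp [hyall]
        rw [h3, abs_neg] at hformle
        exact hformle
      have h4 : 2 * Real.exp (ε * N - δ1 * N) < 1 := by
        have h5 : Real.exp (ε * N - δ1 * N) * (Real.exp (δ1 / 4 * N) * Real.exp (δ1 / 4 * N)) ≤ 1 := by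
          rw [← Real.exp_add, ← Real.exp_add]
          rw [Real.exp_le_one_iff]
          nlinarith
        have h6 := Real.exp_pos (ε * N - δ1 * N)
        nlinarith
      linarith
    have := hind (lam' j) (lam j) hyall hPy0
    exact hj this
  · apply hnb j
    refine ⟨e, he, fun i => y (j.succAbove i), hy0, ?_, Py, ?_⟩
    · intro i
      refine le_trans (hyle _) ?_
      calc 2 * Real.exp (2 * ε * N) ≤ Real.exp (ε' / 2 * N) * Real.exp (2 * ε * N) :=
            mul_le_mul_of_nonneg_right he1 (Real.exp_pos _).le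
        _ = Real.exp (ε' / 2 * N + 2 * ε * N) := by rw [Real.exp_add]
        _ ≤ Real.exp (ε' * N) := by
            apply Real.exp_le_exp.mpr
            nlinarith
    · have h2 : ∑ i, (y i : ℝ) * θ i = ∑ i, (y (j.succAbove i) : ℝ) *
          (α (g (j.succAbove i)).2 * (b : ℝ) ^ (e (g (j.succAbove i)).1)) := by
        rw [Fin.sum_univ_succAbove _ j, hyj, hθ]
        simp
      rw [← h2]
      exact le_trans hformle hsmall

/-- the height lemma, several numbers -/
theorem heightsV {k R : ℕ} (α : Fin k → ℝ) (hα : ∀ i, IsAlgebraic ℚ (α i))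
    (hlin : LinearIndependent ℚ (Fin.cons 1 α : Fin (k + 1) → ℝ)) (s : ℕ)
    (g : Fin (s + 1) → Fin R × Fin k) (hg : Function.Injective g) (κ : ℝ) (hκ : 0 < κ) :
    ∃ (j1 j2 : Fin (s + 2)), j1 ≠ 0 ∧ j1 ≠ j2 ∧ ∃ c : ℝ, 1 ≤ c ∧ ∃ ε₀ : ℝ, 0 < ε₀ ∧
      ∀ b : ℕ, 2 ≤ b →
      ∀ η ρ : ℝ, 0 < η → ∀ L : ℕ, 1 ≤ L → c ≤ L * Real.log b →
      ∀ e : Fin R → ℕ, AdmV R κ ρ L e →
      ∀ (lam : Fin (s + 1) → ℤ) (P : ℤ), (∀ i, lam i ≠ 0) →
      (∀ i, |(lam i : ℝ)| ≤ Real.exp (ε₀ * (L * Real.log b))) →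
      |∑ i, (lam i : ℝ) * (α (g i).2 * (b : ℝ) ^ (e (g i).1)) - P| ≤
        Real.exp (-(η * (L * Real.log b))) →
      ∀ p q : ℤ, q ≠ 0 →
        (Fin.cons (-P) lam : Fin (s + 2) → ℤ) j1 * (b : ℤ) ^
            ((Fin.cons 0 (fun i => e (g i).1) : Fin (s + 2) → ℕ) j1) * p =
          -((Fin.cons (-P) lam : Fin (s + 2) → ℤ) j2 * (b : ℤ) ^
            ((Fin.cons 0 (fun i => e (g i).1) : Fin (s + 2) → ℕ) j2) * q) →
        (L * Real.log b) / c ≤ Real.log (max |(p : ℝ)| |(q : ℝ)|) := by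
  by_cases hcase : ∃ i1 i2, (g i1).1 ≠ (g i2).1
  · obtain ⟨i1, i2, hne⟩ := hcase
    have hii : i1 ≠ i2 := fun h => hne (by rw [h])
    refine ⟨i1.succ, i2.succ, Fin.succ_ne_zero _, fun h => hii (Fin.succ_injective _ h),
      max 1 (2 / κ), le_max_left _ _, κ / 2, by positivity, ?_⟩
    intro b hb η ρ hη L hL hcL e he lam P hlam hle _ p q hq hpq
    simp only [Fin.cons_succ] at hpq
    refine heights_twoQ hb (0 : Fin 2) 1 (by decide) κ hκ L hL ![e (g i1).1, e (g i2).1] ?_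
      ![lam i1, lam i2] ?_ ?_ p q hq ?_
    · intro i j hij
      have h1 := he.2.2 _ _ hne
      have h2 := he.2.2 _ _ (Ne.symm hne)
      fin_cases i <;> fin_cases j <;> simp at hij ⊢
      · exact h1
      · exact h2
    · intro i
      fin_cases i
      · exact hlam i1
      · exact hlam i2
    · intro i
      fin_cases i
      · exact hle i1
      · exact hle i2
    · simpa using hpq
  · push Not at hcase
    have hinj : Function.Injective (fun j => (g j).2) := by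
      intro j j' h
      exact hg (Prod.ext (hcase j j') h)
    have hlin' : LinearIndependent ℚ (Fin.cons 1 (fun j => α (g j).2) : Fin (s + 1 + 1) → ℝ) := by
      have h1 := hlin.comp (Fin.cons 0 (fun j => (g j).2.succ) : Fin (s + 1 + 1) → Fin (k + 1)) ?_
      · have h2 : (Fin.cons 1 α : Fin (k + 1) → ℝ) ∘
            (Fin.cons 0 (fun j => (g j).2.succ) : Fin (s + 1 + 1) → Fin (k + 1)) =
            Fin.cons 1 (fun j => α (g j).2) := by
          funext j
          refine Fin.cases ?_ (fun j => ?_) j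
          · simp
          · simp
        rwa [h2] at h1
      · intro i j
        refine Fin.cases ?_ (fun i => ?_) i
        · refine Fin.cases ?_ (fun j => ?_) j
          · intro _; rfl
          · intro h
            simp only [Fin.cons_zero, Fin.cons_succ] at h
            exact absurd h.symm (Fin.succ_ne_zero _)
        · refine Fin.cases ?_ (fun j => ?_) j
          · intro h
            simp only [Fin.cons_zero, Fin.cons_succ] at h
            exact absurd h (Fin.succ_ne_zero _)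
          · intro h
            simp only [Fin.cons_succ] at h
            rw [hinj (Fin.succ_injective _ h)]
    obtain ⟨c, hc, ε₀, hε₀, h⟩ := heights_cluster s (fun j => α (g j).2)
      (liou (s + 1) (fun j => α (g j).2) (fun j => hα _) hlin')
    refine ⟨1, 0, by simp, by simp, c, hc, ε₀, hε₀, ?_⟩
    intro b hb η ρ hη L hL hcL e he lam P hlam hle hf p q hq hpq
    refine h b hb η hη L hcL (e (g 0).1) (he.1 _) lam P hlam hle ?_ p q hq ?_
    · have h1 : ∑ i, (lam i : ℝ) * (α (g i).2 * (b : ℝ) ^ (e (g 0).1)) =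
          ∑ i, (lam i : ℝ) * (α (g i).2 * (b : ℝ) ^ (e (g i).1)) := by
        apply Finset.sum_congr rfl
        intro i _
        rw [hcase i 0]
      rw [h1]
      exact hf
    · have e1 : (Fin.cons (-P) lam : Fin (s + 2) → ℤ) 1 = lam 0 := rfl
      have e2 : (Fin.cons (-P) lam : Fin (s + 2) → ℤ) 0 = -P := rfl
      have e3 : (Fin.cons 0 (fun i => e (g i).1) : Fin (s + 2) → ℕ) 1 = e (g 0).1 := rfl
      have e4 : (Fin.cons 0 (fun i => e (g i).1) : Fin (s + 2) → ℕ) 0 = 0 := rfl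
      rw [e1, e2, e3, e4] at hpq
      linarith

end Pool.Agent.H723.QJ
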