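import Mathlib
import Pool.Agent.H723.QR.Count3
import Pool.Agent.H723.QJ.StepV

/-! Counting the exceptional dyadic scales, for several numbers. -/

set_option autoImplicit false

open Finset

namespace Pool.Agent.H723.QJ

open Pool.Agent.H723.QP Pool.Agent.H723.QR

/-- finitely many thin conditions -/
theorem thin_fin (n : ℕ) (P : Fin n → ℕ → Prop) (B : Fin n → ℝ) (h : ∀ j, Thin (P j) (B j)) :
    Thin (fun L => ∃ j, P j L) (∑ j, B j) := by
  induction n with
  | zero =>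
    intro S _ hSP
    have h1 : S = ∅ := by
      by_contra hne
      obtain ⟨L, hL⟩ := Finset.nonempty_iff_ne_empty.mpr hne
      obtain ⟨j, _⟩ := hSP L hL
      exact Fin.elim0 j
    rw [h1]; simp
  | succ n ih =>
    have h1 := ih (fun j => P j.succ) (fun j => B j.succ) (fun j => h j.succ)
    refine ((h 0).or h1).mono ?_ ?_
    · intro L _ ⟨j, hj⟩
      rcases Fin.eq_zero_or_eq_succ j with h2 | ⟨i, h2⟩
      · left; rw [← h2]; exact hj
      · right; exact ⟨i, h2 ▸ hj⟩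
    · rw [Fin.sum_univ_succ]

theorem badV_mono {b : ℕ} (hb : 2 ≤ b) {k R : ℕ} {α : Fin k → ℝ} {s : ℕ}
    {g : Fin s → Fin R × Fin k} {η ε ε' κ ρ : ℝ} {L : ℕ} (hε : ε ≤ ε')
    (h : BadV b α s g η ε κ ρ L) : BadV b α s g η ε' κ ρ L := by
  have hlogb : 0 ≤ Real.log b := Real.log_nonneg (by exact_mod_cast (by omega : 1 ≤ b))
  obtain ⟨e, he, lam, hlam, hle, h2⟩ := h
  refine ⟨e, he, lam, hlam, fun j => (hle j).trans (Real.exp_le_exp.mpr ?_), h2⟩
  exact mul_le_mul_of_nonneg_right hε (by positivity)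

/-- **The separated subspace theorem for several numbers: the exceptional scales are few.** -/
theorem sepV {k : ℕ} (α : Fin k → ℝ) (hα : ∀ i, IsIntegral ℤ (α i))
    (hlin : LinearIndependent ℚ (Fin.cons 1 α : Fin (k + 1) → ℝ)) (κ : ℝ) (hκ : 0 < κ)
    (R s : ℕ) : ∀ g : Fin s → Fin R × Fin k, Function.Injective g → ∀ η : ℝ, 0 < η → η ≤ 1 →
      ∃ ε : ℝ, 0 < ε ∧ ∃ A : ℝ, 0 ≤ A ∧ ∀ b : ℕ, 2 ≤ b →
      ∀ ρ : ℝ, 1 ≤ ρ → Thin (BadV b α s g η ε κ ρ) (A * (ρ ^ 2 * (1 + Real.log ρ))) := by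
  classical
  induction s with
  | zero =>
    intro g _ η _ _
    refine ⟨1, one_pos, 0, le_refl _, ?_⟩
    intro b _ ρ _ S _ hS
    have h1 : S = ∅ := by
      by_contra hne
      obtain ⟨L, hL⟩ := Finset.nonempty_iff_ne_empty.mpr hne
      exact not_badV_zero _ _ _ _ _ _ _ _ (hS L hL)
    rw [h1]
    simp
  | succ s ih =>
    intro g hg η hη hη1
    have ih' := fun j : Fin (s + 1) => ih (fun i => g (j.succAbove i))
      (hg.comp Fin.succAbove_right_injective) (η / 8) (by positivity) (by linarith)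
    choose εf hεf Af hAf hih using ih'
    obtain ⟨j0, hj0⟩ := Finite.exists_min εf
    obtain ⟨ε, hε, K, hK, hstep⟩ := stepV α hα hlin s g hg κ η (εf j0) hκ hη hη1 (hεf j0)
    have hA0 : 0 ≤ ∑ j, Af j := Finset.sum_nonneg (fun j _ => hAf j)
    refine ⟨ε, hε, ∑ j, Af j + 24 * K ^ 2, by positivity, ?_⟩
    intro b hb ρ hρ
    have h1 := thin_fin (s + 1) _ _ (fun j => hih j b hb ρ hρ)
    have hlρ : 0 ≤ Real.log ρ := Real.log_nonneg hρ
    have hF1 : 1 ≤ K * ρ ^ 2 := by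
      have := const_up K ρ (by linarith) hρ 2
      linarith
    have hE1 : 1 ≤ K * (ρ ^ 2 * (1 + Real.log ρ)) :=
      one_le_mul_of_one_le_of_one_le hK
        (one_le_mul_of_one_le_of_one_le (one_le_pow₀ hρ) (by linarith))
    have hE2 : 1 ≤ K * (1 + Real.log ρ) := one_le_mul_of_one_le_of_one_le hK (by linarith)
    have h2 : Thin (fun L => BadV b α (s + 1) g η ε κ ρ L ∧
        ∀ j : Fin (s + 1), ¬ BadV b α s (fun i => g (j.succAbove i)) (η / 8) (εf j0) κ ρ L)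
        (12 * ((K * ρ ^ 2) * (K * (1 + Real.log ρ)) + K * (ρ ^ 2 * (1 + Real.log ρ)))) := by
      apply thin_of_no_seq3 _ _ _ _ hF1 hE1 hE2
      intro T hT L hL1 hL2 hP
      exact hstep b hb ρ hρ T hT L hL1 hL2 (fun t => (hP t).1) (fun t => (hP t).2)
    have h3 : 12 * ((K * ρ ^ 2) * (K * (1 + Real.log ρ)) + K * (ρ ^ 2 * (1 + Real.log ρ))) ≤
        24 * K ^ 2 * (ρ ^ 2 * (1 + Real.log ρ)) := by
      have h4 : K * (ρ ^ 2 * (1 + Real.log ρ)) ≤ K ^ 2 * (ρ ^ 2 * (1 + Real.log ρ)) := by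
        apply mul_le_mul_of_nonneg_right _ (by positivity)
        nlinarith
      have h5 : (K * ρ ^ 2) * (K * (1 + Real.log ρ)) = K ^ 2 * (ρ ^ 2 * (1 + Real.log ρ)) := by ring
      rw [h5]; linarith
    refine (h1.or h2).mono ?_ ?_
    · intro L _ hbad
      by_cases h : ∀ j : Fin (s + 1),
          ¬ BadV b α s (fun i => g (j.succAbove i)) (η / 8) (εf j0) κ ρ L
      · exact Or.inr ⟨hbad, h⟩
      · push Not at h
        obtain ⟨j, hj⟩ := h
        exact Or.inl ⟨j, badV_mono hb (hj0 j) hj⟩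
    · rw [add_mul, Finset.sum_mul]
      exact add_le_add le_rfl h3

end Pool.Agent.H723.QJ
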