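import Pool.Graph.R_seed8.H648R2.S.Elim
import Pool.Agent.H723.QP.U1

set_option autoImplicit false

open Finset Polynomial

namespace Pool.Agent.H723.QJ

open Pool.Agent.H648R2.S Pool.Agent.H723.QP

/-- one division step for several sequences -/
theorem uwindow_div_v {k b : ℕ} (hb : 2 ≤ b) {P Q : Fin k → ℤ[X]}
    (h : ∀ i, P i = (X - C (b : ℤ)) * Q i) (D l : ℕ)
    (hD : ∀ i, (Q i).support.card ≤ D) (hH : ∀ i j, |(Q i).coeff j| ≤ ((b ^ l : ℕ) : ℤ))
    (c : Fin k → ℕ → ℤ) (hB : ∀ i n, |c i n| ≤ b) (m : ℕ)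
    (hP : ∀ n, 1 ≤ n → n ≤ m → ∑ i, act (P i) (c i) n = 0) :
    ∀ n, 1 ≤ n → n ≤ m - (k + D + l) → ∑ i, act (Q i) (c i) n = 0 := by
  intro n hn1 hn2
  have hbZ : (2 : ℤ) ≤ b := by exact_mod_cast hb
  have hrec : ∀ j, 1 ≤ j → j ≤ m → ∑ i, act (Q i) (c i) (j + 1) = b * ∑ i, act (Q i) (c i) j := by
    intro j hj1 hj2
    have h1 := hP j hj1 hj2
    have h2 : ∀ i, act (P i) (c i) j = act (Q i) (c i) (j + 1) - b * act (Q i) (c i) j := by
      intro i
      rw [h i, act_mul, act_X_sub_C, smul_eq_mul]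
    rw [Finset.sum_congr rfl fun i _ => h2 i, Finset.sum_sub_distrib, ← Finset.mul_sum] at h1
    linarith
  have hup : ∀ j, n + j ≤ m + 1 →
      ∑ i, act (Q i) (c i) (n + j) = b ^ j * ∑ i, act (Q i) (c i) n := by
    intro j
    induction j with
    | zero => intro _; simp
    | succ j ih =>
      intro hj
      have h1 := hrec (n + j) (by omega) (by omega)
      rw [← add_assoc, h1, ih (by omega), pow_succ]; ring
  by_contra hne
  have h1 : 1 ≤ |∑ i, act (Q i) (c i) n| := Int.one_le_abs hne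
  have h2 := hup (m + 1 - n) (by omega)
  have h3 : |∑ i, act (Q i) (c i) (n + (m + 1 - n))| ≤ (k * (D * b ^ l * b) : ℕ) := by
    refine (Finset.abs_sum_le_sum_abs _ _).trans ?_
    have h4 : ∀ i ∈ (Finset.univ : Finset (Fin k)),
        |act (Q i) (c i) (n + (m + 1 - n))| ≤ ((D * b ^ l * b : ℕ) : ℤ) := by
      intro i _
      have h4 := abs_act_le (Q i) (fun k => (c i k : ℝ)) D (b ^ l) b (hD i) (hH i)
        (fun k => by exact_mod_cast hB i k) (n + (m + 1 - n))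
      rw [act_cast] at h4
      exact_mod_cast h4
    refine (Finset.sum_le_sum h4).trans ?_
    rw [Finset.sum_const, Finset.card_univ, Fintype.card_fin, nsmul_eq_mul]
    push_cast
    exact le_rfl
  rw [h2, abs_mul, abs_pow, abs_of_nonneg (by omega : (0 : ℤ) ≤ b)] at h3
  have h5 : k * (D * b ^ l * b) < b ^ (m + 1 - n) := by
    have h7 : k * (D * b ^ l * b) < b ^ (k + D + (l + 1)) := by
      have h8 : k * D < b ^ k * b ^ D :=
        Nat.mul_lt_mul'' (Nat.lt_pow_self (by omega : 1 < b)) (Nat.lt_pow_self (by omega : 1 < b))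
      have h9 : k * (D * b ^ l * b) = (k * D) * b ^ (l + 1) := by
        rw [pow_succ]
        ring
      rw [h9, pow_add b (k + D) (l + 1), pow_add b k D]
      exact Nat.mul_lt_mul_of_pos_right h8 (Nat.pow_pos (by omega))
    refine lt_of_lt_of_le h7 ?_
    exact Nat.pow_le_pow_right (by omega) (by omega)
  have h6 : ((k * (D * b ^ l * b) : ℕ) : ℤ) < (b : ℤ) ^ (m + 1 - n) := by exact_mod_cast h5
  nlinarith

/-- removing all common factors `X - b`, for several sequences -/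
theorem uelim_aux_v (k h : ℕ) : ∀ r D : ℕ, ∃ D' K : ℕ, ∀ b : ℕ, 2 ≤ b → ∀ c : Fin k → ℕ → ℤ,
    (∀ i n, |c i n| ≤ b) → ∀ (m : ℕ) (P : Fin k → ℤ[X]),
    (∀ i, (P i).support.card ≤ D) → (∀ i j, |(P i).coeff j| ≤ ((b ^ h : ℕ) : ℤ)) →
    (∃ i a, (P i).coeff a ≠ 0 ∧ (∀ j, j < a → (P i).coeff j = 0) ∧
      |(P i).coeff a| < (b : ℤ) ^ r) →
    (∀ n, 1 ≤ n → n ≤ m → ∑ i, act (P i) (c i) n = 0) →
    ∃ Q : Fin k → ℤ[X], (∀ i, (Q i).support.card ≤ D') ∧
      (∀ i j, |(Q i).coeff j| ≤ ((b ^ h : ℕ) : ℤ)) ∧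
      (∀ i, (Q i).natDegree ≤ (P i).natDegree) ∧ (∃ i, (Q i).eval (b : ℤ) ≠ 0) ∧
      ∀ n, 1 ≤ n → n ≤ m - K → ∑ i, act (Q i) (c i) n = 0 := by
  intro r
  induction r with
  | zero =>
    intro D
    refine ⟨0, 0, ?_⟩
    intro b _ c _ m P _ _ ⟨i, a, ha, _, ha2⟩ _
    exfalso
    rw [pow_zero] at ha2
    have := Int.one_le_abs ha
    omega
  | succ r ih =>
    intro D
    obtain ⟨D1, K1, h1⟩ := ih (D * (h + 1))
    refine ⟨max D D1, (k + D * (h + 1) + h) + K1, ?_⟩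
    intro b hb c hc m P hD hH ⟨i0, a, ha, haz, ha2⟩ hP
    have hbZ : (2 : ℤ) ≤ b := by exact_mod_cast hb
    by_cases hev : ∀ i, (P i).eval (b : ℤ) = 0
    · choose Q hQ using fun i => dvd_iff_isRoot.2 (show IsRoot (P i) (b : ℤ) from hev i)
      have hQH : ∀ i j, |(Q i).coeff j| ≤ ((b ^ h : ℕ) : ℤ) := fun i =>
        quot_bound hb (hQ i) (b ^ h) (hH i)
      have hQD : ∀ i, (Q i).support.card ≤ D * (h + 1) := fun i =>
        (uquot_supp hb (hQ i) h (hH i)).trans (Nat.mul_le_mul_right _ (hD i))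
      obtain ⟨hl1, hl2⟩ := quot_low hb (hQ i0) a haz
      have hwin := uwindow_div_v hb hQ (D * (h + 1)) h hQD hQH c hc m hP
      obtain ⟨Q', hq1, hq2, hq3, hq4, hq5⟩ := h1 b hb c hc (m - (k + D * (h + 1) + h)) Q hQD hQH
        ⟨i0, a, by
          intro h0
          rw [h0, mul_zero] at hl2
          exact ha (by linarith), hl1, by
          have h3 : |(b : ℤ) * (Q i0).coeff a| < (b : ℤ) ^ (r + 1) := by
            rw [hl2, abs_neg]; exact ha2
          rw [abs_mul, abs_of_nonneg (by omega : (0 : ℤ) ≤ b), pow_succ'] at h3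
          exact lt_of_mul_lt_mul_left h3 (by omega)⟩ hwin
      refine ⟨Q', fun i => (hq1 i).trans (le_max_right _ _), hq2, fun i => (hq3 i).trans ?_,
        hq4, ?_⟩
      · by_cases hQ0 : Q i = 0
        · rw [hQ0, natDegree_zero]
          exact Nat.zero_le _
        · rw [hQ i, natDegree_mul (X_sub_C_ne_zero _) hQ0]
          omega
      · intro n hn1 hn2
        exact hq5 n hn1 (by omega)
    · push Not at hev
      exact ⟨P, fun i => (hD i).trans (le_max_left _ _), hH, fun i => le_rfl, hev,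
        fun n hn1 hn2 => hP n hn1 (by omega)⟩

/-- Elimination of the factors `X - b`, for several sequences. -/
theorem uelim_v (k D h : ℕ) : ∃ D' K : ℕ, ∀ b : ℕ, 2 ≤ b → ∀ c : Fin k → ℕ → ℤ,
    (∀ i n, |c i n| ≤ b) → ∀ (m : ℕ) (P : Fin k → ℤ[X]), P ≠ 0 →
    (∀ i, (P i).support.card ≤ D) → (∀ i j, |(P i).coeff j| ≤ ((b ^ h : ℕ) : ℤ)) →
    (∀ n, 1 ≤ n → n ≤ m → ∑ i, act (P i) (c i) n = 0) →
    ∃ Q : Fin k → ℤ[X], (∀ i, (Q i).support.card ≤ D') ∧
      (∀ i j, |(Q i).coeff j| ≤ ((b ^ h : ℕ) : ℤ)) ∧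
      (∀ i, (Q i).natDegree ≤ (P i).natDegree) ∧ (∃ i, (Q i).eval (b : ℤ) ≠ 0) ∧
      ∀ n, 1 ≤ n → n ≤ m - K → ∑ i, act (Q i) (c i) n = 0 := by
  obtain ⟨D', K, haux⟩ := uelim_aux_v k h (h + 1) D
  refine ⟨D', K, ?_⟩
  intro b hb c hc m P hP0 hD hH hP
  obtain ⟨i0, hi0⟩ : ∃ i, P i ≠ 0 := Function.ne_iff.mp hP0
  refine haux b hb c hc m P hD hH ⟨i0, (P i0).natTrailingDegree, ?_, ?_, ?_⟩ hP
  · exact trailingCoeff_nonzero_iff_nonzero.2 hi0
  · intro i hi
    exact coeff_eq_zero_of_lt_natTrailingDegree hi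
  · refine lt_of_le_of_lt (hH _ _) ?_
    have : b ^ h < b ^ (h + 1) := Nat.pow_lt_pow_right (by omega) (by omega)
    exact_mod_cast this

end Pool.Agent.H723.QJ
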