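import Pool.Agent.H723.QJ.Defs
import Pool.Agent.H723.QP.U2
import Pool.Agent.H723.QP.W2

set_option autoImplicit false

open Finset Polynomial

namespace Pool.Agent.H723.QJ

open Pool.Agent.H648R2.S Pool.Agent.H723.QP

namespace J8

/-- the polynomial of the terms with index `i` -/
noncomputable def spv {k D : ℕ} (t : Fin D → Fin k × ℕ) (lam : Fin D → ℤ) (i : Fin k) : ℤ[X] :=
  ∑ j, if (t j).1 = i then C (lam j) * X ^ (t j).2 else 0

theorem spv_coeff {k D : ℕ} (t : Fin D → Fin k × ℕ) (lam : Fin D → ℤ) (i : Fin k) (n : ℕ) :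
    (spv t lam i).coeff n = ∑ j, if (i, n) = t j then lam j else 0 := by
  unfold spv
  rw [finsetSum_coeff]
  apply Finset.sum_congr rfl
  intro j _
  by_cases h1 : (t j).1 = i
  · rw [if_pos h1, coeff_C_mul_X_pow]
    by_cases h2 : n = (t j).2
    · rw [if_pos h2, if_pos (Prod.ext h1.symm h2)]
    · rw [if_neg h2, if_neg (fun h => h2 (congrArg Prod.snd h))]
  · rw [if_neg h1, coeff_zero, if_neg (fun h => h1 (congrArg Prod.fst h).symm)]

theorem spv_coeff_self {k D : ℕ} (t : Fin D → Fin k × ℕ) (ht : Function.Injective t)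
    (lam : Fin D → ℤ) (j : Fin D) : (spv t lam (t j).1).coeff (t j).2 = lam j := by
  rw [spv_coeff, Finset.sum_eq_single j]
  · simp
  · intro l _ hl
    rw [if_neg (fun h => hl (ht h).symm)]
  · intro h; exact absurd (Finset.mem_univ _) h

theorem spv_supp {k D : ℕ} (t : Fin D → Fin k × ℕ) (lam : Fin D → ℤ) (i : Fin k) {n : ℕ}
    (hn : n ∈ (spv t lam i).support) : ∃ j, t j = (i, n) := by
  rw [mem_support_iff, spv_coeff] at hn
  by_contra hcon
  push Not at hcon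
  apply hn
  apply Finset.sum_eq_zero
  intro j _
  rw [if_neg]
  intro h
  exact hcon j h.symm

theorem spv_supp_card {k D : ℕ} (t : Fin D → Fin k × ℕ) (lam : Fin D → ℤ) (i : Fin k) :
    (spv t lam i).support.card ≤ D := by
  have h1 : (spv t lam i).support ⊆ Finset.univ.image (fun j => (t j).2) := by
    intro n hn
    obtain ⟨j, hj⟩ := spv_supp t lam i hn
    exact Finset.mem_image.2 ⟨j, Finset.mem_univ _, by rw [hj]⟩
  refine (Finset.card_le_card h1).trans ?_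
  refine Finset.card_image_le.trans ?_
  simp

theorem spv_natDegree {k D : ℕ} (t : Fin D → Fin k × ℕ) (lam : Fin D → ℤ) (i : Fin k) (N : ℕ)
    (hN : ∀ j, (t j).2 ≤ N) : (spv t lam i).natDegree ≤ N := by
  by_cases h0 : spv t lam i = 0
  · rw [h0]; simp
  · obtain ⟨j, hj⟩ := spv_supp t lam i (natDegree_mem_support_of_nonzero h0)
    have h1 := hN j
    rw [hj] at h1
    exact h1

theorem act_zero_poly (c : ℕ → ℤ) (n : ℕ) : act (0 : ℤ[X]) c n = 0 := by
  unfold act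
  rw [map_zero]
  rfl

theorem act_term (a : ℤ) (e : ℕ) (c : ℕ → ℤ) (n : ℕ) :
    act (C a * X ^ e : ℤ[X]) c n = a * c (n + e) := by
  have h := W2.sp_act (fun _ : Fin 1 => e) (fun _ => a) c n
  unfold W2.sp at h
  simpa using h

theorem spv_act {k D : ℕ} (t : Fin D → Fin k × ℕ) (lam : Fin D → ℤ) (c : Fin k → ℕ → ℤ) (n : ℕ) :
    ∑ i, act (spv t lam i) (c i) n = ∑ j, lam j * c (t j).1 (n + (t j).2) := by
  have h1 : ∀ i, act (spv t lam i) (c i) n =
      ∑ j, if (t j).1 = i then lam j * c i (n + (t j).2) else 0 := by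
    intro i
    unfold spv
    have h2 : act (∑ j, if (t j).1 = i then C (lam j) * X ^ (t j).2 else 0 : ℤ[X]) (c i) n =
        ∑ j, act (if (t j).1 = i then C (lam j) * X ^ (t j).2 else 0 : ℤ[X]) (c i) n := by
      unfold act
      rw [map_sum, LinearMap.sum_apply, Finset.sum_apply]
    rw [h2]
    apply Finset.sum_congr rfl
    intro j _
    by_cases h3 : (t j).1 = i
    · rw [if_pos h3, if_pos h3, act_term]
    · rw [if_neg h3, if_neg h3, act_zero_poly]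
  simp only [h1]
  rw [Finset.sum_comm]
  apply Finset.sum_congr rfl
  intro j _
  rw [Finset.sum_ite_eq Finset.univ (t j).1]
  simp

/-- from dependent windows to polynomials in the shift -/
theorem poly_of_depV {b : ℕ} (hb : 2 ≤ b) {k : ℕ} (α : Fin k → ℝ) (D : ℕ) (C : ℝ) (hC : 0 ≤ C)
    (m : ℕ) (h : DepV b α D C m) :
    ∃ P : Fin k → ℤ[X], P ≠ 0 ∧ (∀ i, (P i).support.card ≤ D) ∧
      (∀ i j, |(P i).coeff j| ≤ ((b ^ (D.factorial + D) : ℕ) : ℤ)) ∧
      (∀ i, ((P i).natDegree : ℝ) ≤ C * m) ∧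
      ∀ n, 1 ≤ n → n ≤ m → ∑ i, act (P i) (dg b (α i)) n = 0 := by
  obtain ⟨D1, hD1, t, ht, htC, hdep⟩ := h
  have hex := W2.int_dep (fun (j : Fin D1) (i : Fin m) => dg b (α (t j).1) ((t j).2 + i + 1)) hdep
  obtain ⟨g', hg'0, hg'H, hg'⟩ := urel D1 b (by omega) m
    (fun j i => dg b (α (t j).1) ((t j).2 + i + 1)) (fun j i => dg_abs hb _ _) hex
  have hbnd : D1.factorial * b ^ D1 ≤ b ^ (D.factorial + D) := by
    rw [pow_add]
    refine Nat.mul_le_mul ?_ (Nat.pow_le_pow_right (by omega) hD1)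
    exact (Nat.factorial_le hD1).trans (Nat.lt_pow_self (by omega : 1 < b)).le
  have hbndZ : (((D1.factorial * b ^ D1 : ℕ) : ℕ) : ℤ) ≤ ((b ^ (D.factorial + D) : ℕ) : ℤ) := by
    exact_mod_cast hbnd
  refine ⟨spv t g', ?_, fun i => (spv_supp_card t g' i).trans hD1, ?_, ?_, ?_⟩
  · intro h0
    apply hg'0
    funext j
    rw [← spv_coeff_self t ht g' j, h0]; simp
  · intro i n
    by_cases hi : n ∈ (spv t g' i).support
    · obtain ⟨j, hj⟩ := spv_supp t g' i hi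
      have h1 := spv_coeff_self t ht g' j
      rw [hj] at h1
      rw [h1]; exact (hg'H j).trans hbndZ
    · rw [notMem_support_iff.1 hi, abs_zero]; positivity
  · intro i
    have h1 : (spv t g' i).natDegree ≤ ⌊C * m⌋₊ :=
      spv_natDegree t g' i _ (fun j => Nat.le_floor (htC j))
    have h2 : (⌊C * m⌋₊ : ℝ) ≤ C * m := Nat.floor_le (by positivity)
    have h3 : ((spv t g' i).natDegree : ℝ) ≤ ⌊C * m⌋₊ := by exact_mod_cast h1
    linarith
  intro n hn1 hn2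
  rw [spv_act]
  have h1 := hg' ⟨n - 1, by omega⟩
  rw [← h1]
  apply Finset.sum_congr rfl
  intro j _
  congr 2
  simp only
  omega

/-- one step of the recursion -/
theorem act_rec {b : ℕ} (hb : 2 ≤ b) (ξ : ℝ) (Q : ℤ[X]) (n : ℕ) :
    (b : ℝ) * act Q (fun n => Int.fract (ξ * (b : ℝ) ^ n)) n =
      ((act Q (dg b ξ) (n + 1) : ℤ) : ℝ) + act Q (fun n => Int.fract (ξ * (b : ℝ) ^ n)) (n + 1) := by
  obtain ⟨x, hxdef⟩ : ∃ x : ℕ → ℝ, x = fun n => Int.fract (ξ * (b : ℝ) ^ n) := ⟨_, rfl⟩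
  have hrec : ∀ n, (b : ℝ) * x n = dg b ξ (n + 1) + x (n + 1) := by
    intro n; rw [hxdef]; exact dg_rec hb ξ n
  rw [← hxdef]
  have h1 : (b : ℤ) • x = (fun k => ((dg b ξ (k + 1) : ℤ) : ℝ)) + fun k => x (k + 1) := by
    funext k
    simp only [Pi.smul_apply, Pi.add_apply, zsmul_eq_mul]
    push_cast
    exact hrec k
  have h2 := congrFun (congrArg (act Q) h1) n
  rw [act_zsmul, act_add, Pi.smul_apply, Pi.add_apply, zsmul_eq_mul,
    act_E Q (fun k => ((dg b ξ k : ℤ) : ℝ)) n, act_E, act_cast] at h2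
  push_cast at h2
  exact h2

/-- the tail of the expansions at the position `L`, multiplied by the polynomials, is small -/
theorem tail_smallV {b : ℕ} (hb : 2 ≤ b) {k : ℕ} (α : Fin k → ℝ) (D' h : ℕ) (Q : Fin k → ℤ[X])
    (hQD : ∀ i, (Q i).support.card ≤ D') (hQH : ∀ i j, |(Q i).coeff j| ≤ ((b ^ h : ℕ) : ℤ))
    (L N : ℕ) (hLN : L ≤ N) (hQ : ∀ n, 1 ≤ n → n ≤ N → ∑ i, act (Q i) (dg b (α i)) n = 0) :
    |∑ i, act (Q i) (fun n => Int.fract (α i * (b : ℝ) ^ n)) L| * (b : ℝ) ^ (N - L) ≤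
      (b : ℝ) ^ (k * D' + h) := by
  have hbR : (2 : ℝ) ≤ b := by exact_mod_cast hb
  have hb0 : (0 : ℝ) < b := by linarith
  obtain ⟨S, hS⟩ : ∃ S : ℕ → ℝ, S = fun n =>
    ∑ i, act (Q i) (fun n => Int.fract (α i * (b : ℝ) ^ n)) n := ⟨_, rfl⟩
  have hSL : S L = ∑ i, act (Q i) (fun n => Int.fract (α i * (b : ℝ) ^ n)) L := by rw [hS]
  rw [← hSL]
  have hrec' : ∀ n, (b : ℝ) * S n =
      ((∑ i, act (Q i) (dg b (α i)) (n + 1) : ℤ) : ℝ) + S (n + 1) := by
    intro n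
    rw [hS]
    simp only
    rw [Finset.mul_sum]
    push_cast
    rw [← Finset.sum_add_distrib]
    exact Finset.sum_congr rfl fun i _ => act_rec hb (α i) (Q i) n
  have hup : ∀ j, L + j ≤ N → (b : ℝ) ^ j * S L = S (L + j) := by
    intro j
    induction j with
    | zero => intro _; simp
    | succ j ih =>
      intro hj
      have h1 := ih (by omega)
      have h2 := hrec' (L + j)
      rw [hQ (L + j + 1) (by omega) (by omega)] at h2
      rw [pow_succ', mul_assoc, h1, h2]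
      simp [add_assoc]
  have h1 := hup (N - L) (by omega)
  have h2 : |S (L + (N - L))| ≤ k * (D' * b ^ h * 1 : ℕ) := by
    rw [hS]
    refine (Finset.abs_sum_le_sum_abs _ _).trans ?_
    have h3 : ∀ i : Fin k, |act (Q i) (fun n => Int.fract (α i * (b : ℝ) ^ n)) (L + (N - L))| ≤
        (D' * b ^ h * 1 : ℕ) := by
      intro i
      have hx : ∀ n, |Int.fract (α i * (b : ℝ) ^ n)| ≤ ((1 : ℕ) : ℝ) := by
        intro n
        rw [Nat.cast_one, abs_of_nonneg (Int.fract_nonneg _)]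
        exact (Int.fract_lt_one _).le
      exact_mod_cast abs_act_le (Q i) _ D' (b ^ h) 1 (hQD i) (hQH i) hx (L + (N - L))
    refine (Finset.sum_le_sum fun i _ => h3 i).trans ?_
    rw [Finset.sum_const, Finset.card_univ, Fintype.card_fin, nsmul_eq_mul]
  rw [← h1, abs_mul, abs_of_pos (by positivity : (0 : ℝ) < (b : ℝ) ^ (N - L))] at h2
  rw [mul_comm]
  refine h2.trans ?_
  have h3 : k * (D' * b ^ h * 1) ≤ b ^ (k * D' + h) := by
    rw [mul_one, pow_add, ← mul_assoc]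
    exact Nat.mul_le_mul_right _ (Nat.lt_pow_self (by omega : 1 < b)).le
  exact_mod_cast h3

end J8

open J8 in
/-- Dependent windows of digits of several numbers give an approximation with few powers. -/
theorem ex_of_depV
    (hel : ∀ k D h : ℕ, ∃ D' K : ℕ, ∀ b : ℕ, 2 ≤ b → ∀ c : Fin k → ℕ → ℤ,
      (∀ i n, |c i n| ≤ b) → ∀ (m : ℕ) (P : Fin k → ℤ[X]), P ≠ 0 →
      (∀ i, (P i).support.card ≤ D) → (∀ i j, |(P i).coeff j| ≤ ((b ^ h : ℕ) : ℤ)) →
      (∀ n, 1 ≤ n → n ≤ m → ∑ i, act (P i) (c i) n = 0) →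
      ∃ Q : Fin k → ℤ[X], (∀ i, (Q i).support.card ≤ D') ∧
        (∀ i j, |(Q i).coeff j| ≤ ((b ^ h : ℕ) : ℤ)) ∧
        (∀ i, (Q i).natDegree ≤ (P i).natDegree) ∧ (∃ i, (Q i).eval (b : ℤ) ≠ 0) ∧
        ∀ n, 1 ≤ n → n ≤ m - K → ∑ i, act (Q i) (c i) n = 0)
    (k D : ℕ) : ∃ D' : ℕ, ∀ ε : ℝ, 0 < ε → ∃ M0 : ℕ, ∀ b : ℕ, 2 ≤ b →
    ∀ (α : Fin k → ℝ) (C : ℝ), 1 ≤ C → ∀ m : ℕ, M0 ≤ m → DepV b α D C m →
      ∃ s, s ≤ D' ∧ ExV b α s (1 / 2) ε (4 * C) (m / 2) := by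
  obtain ⟨h, hh⟩ : ∃ h : ℕ, h = D.factorial + D := ⟨_, rfl⟩
  obtain ⟨D1, K, helim⟩ := hel k D h
  obtain ⟨D', hD'⟩ : ∃ D' : ℕ, D' = k * D1 := ⟨_, rfl⟩
  refine ⟨D', ?_⟩
  intro ε hε
  obtain ⟨M1, hM1⟩ : ∃ M1 : ℕ, (h : ℝ) / ε ≤ M1 := exists_nat_ge _
  refine ⟨2 * (2 * (D' + h + K) + 2 + M1), ?_⟩
  intro b hb α C hC m hm hdep
  have hbR : (2 : ℝ) ≤ b := by exact_mod_cast hb
  have hb0 : (0 : ℝ) < b := by linarith
  have hb0Z : (b : ℤ) ≠ 0 := by omega
  have hlogb : 0 < Real.log b := Real.log_pos (by linarith)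
  have hpow : ∀ n : ℕ, (b : ℝ) ^ n = Real.exp ((n : ℝ) * Real.log b) := by
    intro n
    rw [← Real.rpow_natCast, Real.rpow_def_of_pos hb0, mul_comm]
  obtain ⟨P, hP0, hPD, hPH, hPdeg, hP⟩ := poly_of_depV hb α D C (by linarith) m hdep
  rw [← hh] at hPH
  obtain ⟨Q, hQD, hQH, hQdeg, ⟨i0, hev⟩, hQ⟩ := helim b hb (fun i => dg b (α i))
    (fun i n => dg_abs hb (α i) n) m P hP0 hPD hPH hP
  obtain ⟨L, hL⟩ : ∃ L : ℕ, L = m / 2 := ⟨_, rfl⟩
  rw [← hL]
  have hLm : 2 * L ≤ m := by omega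
  have hLm' : m ≤ 2 * L + 1 := by omega
  have hL1 : 1 ≤ L := by omega
  have hL1R : (1 : ℝ) ≤ L := by exact_mod_cast hL1
  have hLK : L ≤ m - K := by omega
  have hsmall := tail_smallV hb α D1 h Q hQD hQH L (m - K) hLK hQ
  rw [← hD'] at hsmall
  choose R hR using fun i : Fin k => W2.value_approx (b := b) (α i) (Q i) L
  -- the union of the supports
  obtain ⟨T, hT⟩ : ∃ T : Finset ℕ, T = Finset.univ.biUnion (fun i => (Q i).support) := ⟨_, rfl⟩
  have hTmem : ∀ x, x ∈ T ↔ ∃ i, x ∈ (Q i).support := by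
    intro x
    rw [hT, Finset.mem_biUnion]
    simp
  have hTcard : T.card ≤ D' := by
    rw [hT, hD']
    refine Finset.card_biUnion_le.trans ?_
    refine (Finset.sum_le_sum fun i _ => hQD i).trans ?_
    simp
  obtain ⟨s, hs⟩ : ∃ s : ℕ, T.card = s := ⟨_, rfl⟩
  let f : Fin s ≃ T := (T.equivFinOfCardEq hs).symm
  have hsum : ∀ g : ℕ → ℤ, ∑ j : Fin s, g (f j : ℕ) = ∑ i ∈ T, g i := by
    intro g
    rw [← Finset.sum_coe_sort T g]
    exact Equiv.sum_comp f (fun i : T => g (i : ℕ))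
  have hfdeg : ∀ j, ∃ i, (f j : ℕ) ≤ (Q i).natDegree := by
    intro j
    obtain ⟨i, hi⟩ := (hTmem _).1 (f j).2
    exact ⟨i, le_natDegree_of_mem_supp _ hi⟩
  have hval : ∀ i, ∑ j : Fin s, (Q i).coeff (f j) * (b : ℤ) ^ (L + (f j : ℕ)) =
      (b : ℤ) ^ L * (Q i).eval (b : ℤ) := by
    intro i
    rw [hsum (fun x => (Q i).coeff x * (b : ℤ) ^ (L + x)), eval_eq_sum, Polynomial.sum_def,
      Finset.mul_sum]
    symm
    have hsub : (Q i).support ⊆ T := fun x hx => (hTmem x).2 ⟨i, hx⟩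
    rw [← Finset.sum_subset hsub (f := fun x => (Q i).coeff x * (b : ℤ) ^ (L + x))]
    · apply Finset.sum_congr rfl
      intro x _
      rw [pow_add]; ring
    · intro x _ hx
      rw [notMem_support_iff.1 hx, zero_mul]
  have hvalR : ∀ i, ∑ j : Fin s, ((Q i).coeff (f j) : ℝ) * (b : ℝ) ^ (L + (f j : ℕ)) =
      (b : ℝ) ^ L * (((Q i).eval (b : ℤ) : ℤ) : ℝ) := by
    intro i
    exact_mod_cast congrArg (Int.cast (R := ℝ)) (hval i)
  refine ⟨s, hs ▸ hTcard, fun j => L + (f j : ℕ), fun j => Nat.le_add_right _ _, ?_,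
    fun j i => (Q i).coeff (f j), ?_, ?_, ∑ i, R i, ?_⟩
  · intro j
    push_cast
    obtain ⟨i, hi⟩ := hfdeg j
    have h1 : ((f j : ℕ) : ℝ) ≤ (Q i).natDegree := by exact_mod_cast hi
    have h2 : ((Q i).natDegree : ℝ) ≤ (P i).natDegree := by exact_mod_cast hQdeg i
    have h2' := hPdeg i
    have h3 : (m : ℝ) ≤ 2 * L + 1 := by exact_mod_cast hLm'
    have h4 : C * (m : ℝ) ≤ C * (3 * L) :=
      mul_le_mul_of_nonneg_left (by linarith) (by linarith)
    have h5 : (L : ℝ) ≤ C * L := le_mul_of_one_le_left (by linarith) hC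
    linarith
  · intro j i
    have h1 : |((Q i).coeff (f j) : ℝ)| ≤ (b : ℝ) ^ h := by exact_mod_cast hQH i (f j)
    refine h1.trans ?_
    rw [hpow]
    apply Real.exp_le_exp.mpr
    have h2 : (M1 : ℝ) ≤ L := by
      have : M1 ≤ L := by omega
      exact_mod_cast this
    have h3 : (h : ℝ) ≤ L * ε := by
      rw [div_le_iff₀ hε] at hM1
      exact hM1.trans (mul_le_mul_of_nonneg_right h2 hε.le)
    have h4 := mul_le_mul_of_nonneg_right h3 hlogb.le
    linarith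
  · refine ⟨i0, ?_⟩
    rw [hval]
    exact mul_ne_zero (pow_ne_zero _ hb0Z) hev
  · have hswap : ∑ c : Fin s, (∑ i, (((Q i).coeff (f c) : ℤ) : ℝ) * α i) *
        (b : ℝ) ^ (L + (f c : ℕ)) - ((∑ i, R i : ℤ) : ℝ) =
        ∑ i, act (Q i) (fun n => Int.fract (α i * (b : ℝ) ^ n)) L := by
      have h1 : ∑ c : Fin s, (∑ i, (((Q i).coeff (f c) : ℤ) : ℝ) * α i) *
          (b : ℝ) ^ (L + (f c : ℕ)) =
          ∑ i, α i * ((b : ℝ) ^ L * (((Q i).eval (b : ℤ) : ℤ) : ℝ)) := by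
        simp only [Finset.sum_mul]
        rw [Finset.sum_comm]
        apply Finset.sum_congr rfl
        intro i _
        rw [← hvalR i, Finset.mul_sum]
        apply Finset.sum_congr rfl
        intro c _
        ring
      rw [h1]
      push_cast
      rw [← Finset.sum_sub_distrib]
      exact Finset.sum_congr rfl fun i _ => hR i
    rw [hswap]
    have h6 : |∑ i, act (Q i) (fun n => Int.fract (α i * (b : ℝ) ^ n)) L| ≤
        Real.exp (((D' + h : ℕ) : ℝ) * Real.log b) *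
        Real.exp (-(((m - K - L : ℕ) : ℝ) * Real.log b)) := by
      rw [Real.exp_neg, ← hpow, ← hpow, ← div_eq_mul_inv, le_div_iff₀ (by positivity)]
      exact hsmall
    refine h6.trans ?_
    rw [← Real.exp_add]
    apply Real.exp_le_exp.mpr
    have h9 : 2 * (D' + h) + L ≤ 2 * (m - K - L) := by omega
    have h10 : (2 : ℝ) * ((D' + h : ℕ) : ℝ) + L ≤ 2 * ((m - K - L : ℕ) : ℝ) := by
      exact_mod_cast h9
    have h11 := mul_le_mul_of_nonneg_right h10 hlogb.le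
    linarith

end Pool.Agent.H723.QJ
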