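import Mathlib
import Pool.Agent.H723.QJ.Defs

set_option autoImplicit false

open Finset

namespace Pool.Agent.H723.QJ

open Pool.Agent.H723.QP

theorem J9_constlog_up (A ρ : ℝ) (hA : 0 ≤ A) (hρ : 1 ≤ ρ) (q : ℕ) :
    A ≤ A * (ρ ^ q * (1 + Real.log ρ)) :=
  le_mul_of_one_le_right hA (one_le_mul_of_one_le_of_one_le (one_le_pow₀ hρ)
    (by have := Real.log_nonneg hρ; linarith))

theorem J9_swap {R k : ℕ} (f : Fin R → Fin k → ℝ) (α : Fin k → ℝ) (β : Fin R → ℝ) :
    ∑ c, (∑ i, f c i * α i) * β c = ∑ i, (∑ c, f c i * β c) * α i := by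
  simp only [Finset.sum_mul]
  rw [Finset.sum_comm]
  refine Finset.sum_congr rfl fun i _ => Finset.sum_congr rfl fun c _ => ?_
  ring

/-- from separated exponents to arbitrary exponents -/
theorem merge_v {k : ℕ} (α : Fin k → ℝ) (η : ℝ) (hη : 0 < η) (hη1 : η ≤ 1)
    (hsep : ∀ κ : ℝ, 0 < κ → ∀ (R s : ℕ) (g : Fin s → Fin R × Fin k), Function.Injective g →
      ∃ ε : ℝ, 0 < ε ∧ ∃ A : ℝ, 0 ≤ A ∧ ∀ b : ℕ, 2 ≤ b → ∀ ρ : ℝ, 1 ≤ ρ →
        Thin (BadV b α s g η ε κ ρ) (A * (ρ ^ 2 * (1 + Real.log ρ)))) (R : ℕ) :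
    ∃ ε : ℝ, 0 < ε ∧ ∃ A : ℝ, 0 ≤ A ∧ ∀ b : ℕ, 2 ≤ b → ∀ ρ : ℝ, 1 ≤ ρ →
      Thin (ExV b α R η ε ρ) (A * (ρ ^ 2 * (1 + Real.log ρ))) := by
  classical
  induction R with
  | zero =>
    refine ⟨1, one_pos, 0, le_refl _, ?_⟩
    intro b _ ρ _ S _ hS
    have h1 : S = ∅ := by
      by_contra hne
      obtain ⟨L, hL⟩ := Finset.nonempty_iff_ne_empty.mpr hne
      obtain ⟨e, _, _, lam, _, ⟨i, hi⟩, _⟩ := hS L hL
      simp at hi
    rw [h1]
    simp
  | succ R ih =>
    obtain ⟨ε', hε', A1, hA1, h1⟩ := ih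
    obtain ⟨κ, hκ⟩ : ∃ κ : ℝ, κ = ε' / 4 := ⟨_, rfl⟩
    have hκ0 : 0 < κ := by rw [hκ]; positivity
    obtain ⟨ε2, hε2, A2, hA2, h2⟩ := hsep κ hκ0 (R + 1) ((R + 1) * k) finProdFinEquiv.symm
      finProdFinEquiv.symm.injective
    obtain ⟨ε, hεd⟩ : ∃ ε : ℝ, ε = min ε2 (ε' / 4) := ⟨_, rfl⟩
    have hε : 0 < ε := by rw [hεd]; apply lt_min hε2; positivity
    obtain ⟨M, hM⟩ : ∃ M : ℕ, 2 / ε' ≤ M := exists_nat_ge _
    refine ⟨ε, hε, A1 + A2 + M, by positivity, ?_⟩
    intro b hb ρ hρ
    have hbR : (2 : ℝ) ≤ b := by exact_mod_cast hb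
    have hb0 : (0 : ℝ) < b := by linarith
    have hlogb : 0 < Real.log b := Real.log_pos (by linarith)
    have hρ2 : 1 ≤ ρ ^ 2 := by nlinarith
    refine (((h1 b hb ρ hρ).or (h2 b hb ρ hρ)).or (thin_small M)).mono ?_ ?_
    · intro L _ hEx
      by_cases hLM : L < M
      · exact Or.inr hLM
      left
      push Not at hLM
      obtain ⟨e, he1, he2, lam, hlam, ⟨t0, hne⟩, P, hP⟩ := hEx
      have hL3 : 2 / ε' ≤ L := le_trans hM (by exact_mod_cast hLM)
      obtain ⟨N, hN⟩ : ∃ N : ℝ, N = (L : ℝ) * Real.log b := ⟨_, rfl⟩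
      have hN0 : 0 ≤ N := by rw [hN]; positivity
      rw [← hN] at hlam hP
      have htwo : 2 ≤ Real.exp (ε' / 2 * N) := by
        have h3 : 1 ≤ ε' / 2 * L := by
          rw [div_le_iff₀ hε'] at hL3
          linarith
        have h4 : Real.log 2 ≤ Real.log b := Real.log_le_log (by norm_num) hbR
        have h5 : Real.log b ≤ ε' / 2 * N := by
          rw [hN]
          calc Real.log b = 1 * Real.log b := (one_mul _).symm
            _ ≤ (ε' / 2 * L) * Real.log b := mul_le_mul_of_nonneg_right h3 hlogb.le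
            _ = ε' / 2 * (L * Real.log b) := by ring
        calc (2 : ℝ) = Real.exp (Real.log 2) := (Real.exp_log (by norm_num)).symm
          _ ≤ _ := Real.exp_le_exp.mpr (h4.trans h5)
      by_cases hs : ∀ i j, i ≠ j → κ * L ≤ |(e i : ℝ) - e j|
      · right
        refine ⟨e, ⟨he1, he2, hs⟩, fun j => lam (finProdFinEquiv.symm j).1
          (finProdFinEquiv.symm j).2, ?_, ?_, P, ?_⟩
        · intro h0
          apply hne
          refine Finset.sum_eq_zero fun c _ => ?_
          have h3 := congrFun h0 (finProdFinEquiv (c, t0))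
          simp only [Equiv.symm_apply_apply, Pi.zero_apply] at h3
          rw [h3, zero_mul]
        · intro j
          rw [← hN]
          exact le_trans (hlam _ _) (Real.exp_le_exp.mpr
            (mul_le_mul_of_nonneg_right (by rw [hεd]; exact min_le_left _ _) hN0))
        · have h3 : ∑ j : Fin ((R + 1) * k), (lam (finProdFinEquiv.symm j).1
              (finProdFinEquiv.symm j).2 : ℝ) * (α (finProdFinEquiv.symm j).2 *
                (b : ℝ) ^ (e (finProdFinEquiv.symm j).1)) =
              ∑ c, (∑ i, (lam c i : ℝ) * α i) * (b : ℝ) ^ (e c) := by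
            rw [Equiv.sum_comp finProdFinEquiv.symm (fun x : Fin (R + 1) × Fin k =>
              (lam x.1 x.2 : ℝ) * (α x.2 * (b : ℝ) ^ (e x.1))), Fintype.sum_prod_type]
            refine Finset.sum_congr rfl fun c _ => ?_
            rw [Finset.sum_mul]
            exact Finset.sum_congr rfl fun i _ => by ring
          rw [← hN, h3]
          exact hP
      · left
        push Not at hs
        obtain ⟨i0, j0, hij0, hlt0⟩ := hs
        -- choose i with the larger exponent
        obtain ⟨i, j, hij, hle, hlt⟩ : ∃ i j : Fin (R + 1), i ≠ j ∧ e j ≤ e i ∧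
            ((e i - e j : ℕ) : ℝ) < κ * L := by
          rcases le_total (e j0) (e i0) with h | h
          · refine ⟨i0, j0, hij0, h, ?_⟩
            rw [Nat.cast_sub h]
            exact lt_of_le_of_lt (le_abs_self _) hlt0
          · refine ⟨j0, i0, Ne.symm hij0, h, ?_⟩
            rw [Nat.cast_sub h]
            rw [abs_sub_comm] at hlt0
            exact lt_of_le_of_lt (le_abs_self _) hlt0
        obtain ⟨k0, hk0⟩ := Fin.exists_succAbove_eq (Ne.symm hij)
        obtain ⟨e', he'⟩ : ∃ e' : Fin R → ℕ, e' = fun l => e (i.succAbove l) := ⟨_, rfl⟩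
        obtain ⟨lam', hlam'⟩ : ∃ lam' : Fin R → Fin k → ℤ, lam' = fun l t =>
          lam (i.succAbove l) t + if l = k0 then lam i t * (b : ℤ) ^ (e i - e j) else 0 := ⟨_, rfl⟩
        have hsumZ : ∀ t, ∑ l, lam' l t * (b : ℤ) ^ (e' l) = ∑ l, lam l t * (b : ℤ) ^ (e l) := by
          intro t
          rw [Fin.sum_univ_succAbove _ i]
          simp only [hlam', he', add_mul, Finset.sum_add_distrib]
          rw [add_comm]
          congr 1
          rw [Finset.sum_eq_single k0]
          · rw [if_pos rfl, hk0, mul_assoc, ← pow_add]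
            congr 2
            omega
          · intro l _ hl
            rw [if_neg hl, zero_mul]
          · intro h; exact absurd (Finset.mem_univ _) h
        have hsumR : ∀ t, ∑ l, (lam' l t : ℝ) * (b : ℝ) ^ (e' l) =
            ∑ l, (lam l t : ℝ) * (b : ℝ) ^ (e l) := by
          intro t
          exact_mod_cast congrArg (Int.cast (R := ℝ)) (hsumZ t)
        refine ⟨e', fun l => by rw [he']; exact he1 _, fun l => by rw [he']; exact he2 _, lam', ?_,
          ⟨t0, ?_⟩, P, ?_⟩
        · intro l t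
          rw [← hN]
          have h4 : |(lam' l t : ℝ)| ≤ |(lam (i.succAbove l) t : ℝ)| +
              |(lam i t : ℝ)| * (b : ℝ) ^ (e i - e j) := by
            rw [hlam']
            push_cast
            refine le_trans (abs_add_le _ _) ?_
            apply add_le_add le_rfl
            split_ifs
            · rw [abs_mul, abs_of_pos (by positivity : (0 : ℝ) < (b : ℝ) ^ (e i - e j))]
            · rw [abs_zero]; positivity
          have h5 : (b : ℝ) ^ (e i - e j) ≤ Real.exp (κ * N) := by
            have h4 : (b : ℝ) ^ (e i - e j : ℕ) = Real.exp ((e i - e j : ℕ) * Real.log b) := by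
              rw [← Real.rpow_natCast, Real.rpow_def_of_pos hb0, mul_comm]
            rw [h4]
            apply Real.exp_le_exp.mpr
            rw [hN, ← mul_assoc]
            exact mul_le_mul_of_nonneg_right hlt.le hlogb.le
          have hεε : ε ≤ ε' / 4 := by rw [hεd]; exact min_le_right _ _
          have h6 : |(lam (i.succAbove l) t : ℝ)| ≤ Real.exp (ε' / 4 * N + κ * N) := by
            refine le_trans (hlam _ _) (Real.exp_le_exp.mpr ?_)
            have : 0 ≤ κ * N := by positivity
            have h7 : ε * N ≤ ε' / 4 * N := mul_le_mul_of_nonneg_right hεε hN0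
            linarith
          have h7 : |(lam i t : ℝ)| * (b : ℝ) ^ (e i - e j) ≤ Real.exp (ε' / 4 * N + κ * N) := by
            rw [Real.exp_add]
            apply mul_le_mul _ h5 (by positivity) (Real.exp_pos _).le
            refine le_trans (hlam _ _) (Real.exp_le_exp.mpr ?_)
            exact mul_le_mul_of_nonneg_right hεε hN0
          have h8 : Real.exp (ε' / 4 * N + κ * N) ≤ Real.exp (ε' / 2 * N) := by
            apply Real.exp_le_exp.mpr
            rw [hκ]
            linarith
          calc |(lam' l t : ℝ)| ≤ Real.exp (ε' / 2 * N) + Real.exp (ε' / 2 * N) := by linarith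
            _ = 2 * Real.exp (ε' / 2 * N) := by ring
            _ ≤ Real.exp (ε' / 2 * N) * Real.exp (ε' / 2 * N) :=
              mul_le_mul_of_nonneg_right htwo (Real.exp_pos _).le
            _ = Real.exp (ε' * N) := by rw [← Real.exp_add]; congr 1; ring
        · rw [hsumZ]; exact hne
        · rw [← hN, J9_swap]
          simp only [hsumR]
          rw [← J9_swap]
          exact hP
    · rw [add_mul, add_mul]
      exact add_le_add (add_le_add le_rfl le_rfl)
        (J9_constlog_up M ρ (Nat.cast_nonneg _) hρ _)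

end Pool.Agent.H723.QJ
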