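import Mathlib
import Pool.Agent.H723.QR.MainR
import Pool.Agent.H723.QJ.CountV
import Pool.Agent.H723.QJ.J7
import Pool.Agent.H723.QJ.J8
import Pool.Agent.H723.QJ.J9

/-! The exceptional scales of windows of digits of several numbers. -/

set_option autoImplicit false

open Finset

namespace Pool.Agent.H723.QJ

open Pool.Agent.H723.QP Pool.Agent.H723.QR

theorem cons_scale {k : ℕ} (α : Fin k → ℝ) (hlin : LinearIndependent ℚ (Fin.cons 1 α : Fin (k + 1) → ℝ))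
    (m : ℕ) (hm : 0 < m) :
    LinearIndependent ℚ (Fin.cons 1 (fun i => (m : ℝ) * α i) : Fin (k + 1) → ℝ) := by
  rw [Fintype.linearIndependent_iff] at hlin ⊢
  intro g hg
  have hm0 : (m : ℚ) ≠ 0 := by exact_mod_cast hm.ne'
  have h1 := hlin (Fin.cons (g 0) (fun i => (m : ℚ) * g i.succ)) (by
    rw [Fin.sum_univ_succ] at hg ⊢
    simp only [Fin.cons_zero, Fin.cons_succ] at hg ⊢
    rw [← hg]
    congr 1
    apply Finset.sum_congr rfl
    intro i _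
    rw [Rat.smul_def, Rat.smul_def]
    push_cast
    ring)
  intro i
  refine Fin.cases ?_ (fun i => ?_) i
  · simpa using h1 0
  · have h2 := h1 i.succ
    simp only [Fin.cons_succ] at h2
    exact (mul_eq_zero.mp h2).resolve_left hm0

/-- a common denominator -/
theorem exists_den {k : ℕ} (α : Fin k → ℝ) (hα : ∀ i, IsAlgebraic ℚ (α i)) :
    ∃ m : ℕ, 0 < m ∧ ∀ i, IsIntegral ℤ ((m : ℝ) * α i) := by
  have h1 : ∀ i, ∃ q : ℕ, 0 < q ∧ IsIntegral ℤ ((q : ℝ) * α i) := by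
    intro i
    have hz : IsAlgebraic ℤ (α i) := (IsFractionRing.isAlgebraic_iff ℤ ℚ ℝ).mpr (hα i)
    obtain ⟨q, hq0, hq⟩ := hz.exists_integral_multiple
    refine ⟨q.natAbs, Int.natAbs_pos.mpr hq0, ?_⟩
    have h2 : IsIntegral ℤ ((q : ℝ) * α i) := by
      have : (q : ℝ) * α i = q • α i := by simp
      rw [this]; exact hq
    have h4 : ((q.natAbs : ℕ) : ℝ) = |(q : ℝ)| := by
      rw [Nat.cast_natAbs, Int.cast_abs]
    rcases abs_choice (q : ℝ) with h3 | h3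
    · rw [h4, h3]; exact h2
    · rw [h4, h3, neg_mul]; exact h2.neg
  choose q hq hqi using h1
  refine ⟨∏ i, q i, Finset.prod_pos (fun i _ => hq i), fun i => ?_⟩
  classical
  rw [← Finset.mul_prod_erase _ _ (Finset.mem_univ i)]
  push_cast
  have h3 : (q i : ℝ) * (∏ j ∈ Finset.univ.erase i, (q j : ℝ)) * α i =
      ((∏ j ∈ Finset.univ.erase i, q j : ℕ) : ℝ) * ((q i : ℝ) * α i) := by
    push_cast; ring
  rw [h3]
  exact IsIntegral.mul (isIntegral_natCast _) (hqi i)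

theorem exV_mono {b : ℕ} (hb : 2 ≤ b) {k : ℕ} {α : Fin k → ℝ} {R : ℕ} {η ε ε' ρ : ℝ} {L : ℕ}
    (hε : ε ≤ ε') (h : ExV b α R η ε ρ L) : ExV b α R η ε' ρ L := by
  have hlogb : 0 ≤ Real.log b := Real.log_nonneg (by exact_mod_cast (by omega : 1 ≤ b))
  obtain ⟨e, he1, he2, lam, hlam, h2⟩ := h
  refine ⟨e, he1, he2, lam, fun c i => (hlam c i).trans (Real.exp_le_exp.mpr ?_), h2⟩
  exact mul_le_mul_of_nonneg_right hε (by positivity)

/-- all real algebraic numbers -/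
theorem mergeV' {k : ℕ} (α : Fin k → ℝ) (hα : ∀ i, IsAlgebraic ℚ (α i))
    (hlin : LinearIndependent ℚ (Fin.cons 1 α : Fin (k + 1) → ℝ)) (R : ℕ) :
    ∃ ε : ℝ, 0 < ε ∧ ∃ A : ℝ, 0 ≤ A ∧ ∀ b : ℕ, 2 ≤ b →
      ∀ ρ : ℝ, 1 ≤ ρ → Thin (ExV b α R (1 / 2) ε ρ) (A * (ρ ^ 2 * (1 + Real.log ρ))) := by
  obtain ⟨m, hm, hmi⟩ := exists_den α hα
  have hlin' := cons_scale α hlin m hm
  obtain ⟨ε, hε, A, hA, h⟩ := merge_v (fun i => (m : ℝ) * α i) (1 / 4) (by norm_num) (by norm_num)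
    (fun κ hκ R s g hg => sepV _ hmi hlin' κ hκ R s g hg (1 / 4) (by norm_num) (by norm_num)) R
  obtain ⟨M, hM⟩ : ∃ M : ℕ, 8 * Real.log m ≤ M := exists_nat_ge _
  refine ⟨ε, hε, A + M, by positivity, ?_⟩
  intro b hb ρ hρ
  have hbR : (2 : ℝ) ≤ b := by exact_mod_cast hb
  have hlog2 : 1 / 2 ≤ Real.log b := by
    have h1 : Real.log 2 ≤ Real.log b := Real.log_le_log (by norm_num) hbR
    have h2 := Real.log_two_gt_d9
    linarith
  have hmR : (0 : ℝ) < m := by exact_mod_cast hm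
  refine ((h b hb ρ hρ).or (thin_small M)).mono ?_ ?_
  · intro L _ hEx
    by_cases hLM : L < M
    · exact Or.inr hLM
    left
    push Not at hLM
    obtain ⟨e, he1, he2, lam, hlam, hne, P, hP⟩ := hEx
    refine ⟨e, he1, he2, lam, hlam, hne, m * P, ?_⟩
    have h2 : ∑ c, (∑ i, (lam c i : ℝ) * ((m : ℝ) * α i)) * (b : ℝ) ^ (e c) -
        ((m * P : ℤ) : ℝ) = m * (∑ c, (∑ i, (lam c i : ℝ) * α i) * (b : ℝ) ^ (e c) - P) := by
      rw [mul_sub, Finset.mul_sum]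
      push_cast
      congr 1
      apply Finset.sum_congr rfl
      intro c _
      rw [← mul_assoc, Finset.mul_sum]
      congr 1
      apply Finset.sum_congr rfl
      intro i _
      ring
    rw [h2, abs_mul, abs_of_pos hmR]
    have hLM' : (M : ℝ) ≤ L := by exact_mod_cast hLM
    have hL0 : (0 : ℝ) ≤ L := Nat.cast_nonneg _
    calc (m : ℝ) * |∑ c, (∑ i, (lam c i : ℝ) * α i) * (b : ℝ) ^ (e c) - P| ≤
          Real.exp (Real.log m) * Real.exp (-(1 / 2 * (L * Real.log b))) := by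
          rw [Real.exp_log hmR]
          exact mul_le_mul_of_nonneg_left hP hmR.le
      _ = Real.exp (Real.log m + -(1 / 2 * (L * Real.log b))) := by rw [Real.exp_add]
      _ ≤ Real.exp (-(1 / 4 * (L * Real.log b))) := by
        apply Real.exp_le_exp.mpr
        nlinarith
  · rw [add_mul]
    exact add_le_add le_rfl (constlog_up M ρ (Nat.cast_nonneg _) hρ _)

theorem exV_union {k : ℕ} (α : Fin k → ℝ) (hα : ∀ i, IsAlgebraic ℚ (α i))
    (hlin : LinearIndependent ℚ (Fin.cons 1 α : Fin (k + 1) → ℝ)) (D : ℕ) :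
    ∃ ε : ℝ, 0 < ε ∧ ∃ A : ℝ, 0 ≤ A ∧ ∀ b : ℕ, 2 ≤ b → ∀ ρ : ℝ, 1 ≤ ρ →
      Thin (fun L => ∃ s, s ≤ D ∧ ExV b α s (1 / 2) ε ρ L)
        (A * (ρ ^ 2 * (1 + Real.log ρ))) := by
  induction D with
  | zero =>
    obtain ⟨ε, hε, A, hA, h⟩ := mergeV' α hα hlin 0
    refine ⟨ε, hε, A, hA, fun b hb ρ hρ => (h b hb ρ hρ).mono ?_ le_rfl⟩
    rintro L _ ⟨s, hs, h1⟩
    obtain rfl : s = 0 := by omega
    exact h1
  | succ D ih =>
    obtain ⟨ε, hε, A, hA, h⟩ := mergeV' α hα hlin (D + 1)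
    obtain ⟨ε', hε', A', hA', h'⟩ := ih
    refine ⟨min ε ε', lt_min hε hε', A + A', by positivity, fun b hb ρ hρ =>
      ((h b hb ρ hρ).or (h' b hb ρ hρ)).mono ?_ ?_⟩
    · rintro L _ ⟨s, hs, h1⟩
      rcases Nat.lt_or_ge s (D + 1) with h4 | h4
      · exact Or.inr ⟨s, by omega, exV_mono hb (min_le_right _ _) h1⟩
      · obtain rfl : s = D + 1 := by omega
        exact Or.inl (exV_mono hb (min_le_left _ _) h1)
    · rw [add_mul]

/-- **Linearly dependent windows of digits of several numbers occur at few scales, uniformly in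
the base.** -/
theorem thinV {k : ℕ} (α : Fin k → ℝ) (hα : ∀ i, IsAlgebraic ℚ (α i))
    (hlin : LinearIndependent ℚ (Fin.cons 1 α : Fin (k + 1) → ℝ)) (D : ℕ) :
    ∃ A : ℝ, 0 ≤ A ∧ ∀ b : ℕ, 2 ≤ b → ∀ C : ℝ, 1 ≤ C →
      Thin (DepV b α D C) (A * (C ^ 2 * (1 + Real.log C))) := by
  obtain ⟨D', hD'⟩ := ex_of_depV (fun k D h => uelim_v k D h) k D
  obtain ⟨ε, hε, A, hA, h⟩ := exV_union α hα hlin D'
  obtain ⟨M0, hM⟩ := hD' ε hε
  exact thin_of_win 0 2 A hA (fun b ρ L => ∃ s, s ≤ D' ∧ ExV b α s (1 / 2) ε ρ L)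
    (fun b C => DepV b α D C) M0
    (fun b hb ρ hρ => h b hb ρ hρ) (fun b hb C hC m hm hd => hM b hb α C hC m hm hd)

end Pool.Agent.H723.QJ
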