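import Mathlib
import Pool.Agent.H723.QR.MainR
import Pool.Agent.H723.QR.X1
import Pool.Agent.H723.QJ.MainV
import Pool.Agent.H723.QJ.LzBrk
import Pool.Agent.H723.QJ.LzLoc

/-! The rates of growth, for instructions which use the digits of the other numbers. -/

set_option autoImplicit false

open Finset

namespace Pool.Agent.H723.QJ

open Pool.Agent.H723.QP Pool.Agent.H723.QR

theorem powlog_scaleK (K : ℝ) (hK : 1 ≤ K) (C : ℝ) (hC : 1 ≤ C) :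
    (K * C) ^ 2 * (1 + Real.log (K * C)) ≤
      (K ^ 2 * (1 + Real.log K)) * (C ^ 2 * (1 + Real.log C)) := by
  have hl4 : 0 ≤ Real.log K := Real.log_nonneg hK
  have hlC : 0 ≤ Real.log C := Real.log_nonneg hC
  have h1 : 1 + Real.log (K * C) ≤ (1 + Real.log K) * (1 + Real.log C) := by
    rw [Real.log_mul (by linarith) (by linarith)]
    have h2 : (1 + Real.log K) * (1 + Real.log C) =
        1 + Real.log K + Real.log C + Real.log K * Real.log C := by ring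
    have h3 := mul_nonneg hl4 hlC
    rw [h2]; linarith
  calc (K * C) ^ 2 * (1 + Real.log (K * C)) ≤
        (K * C) ^ 2 * ((1 + Real.log K) * (1 + Real.log C)) :=
        mul_le_mul_of_nonneg_left h1 (by positivity)
    _ = _ := by rw [mul_pow]; ring

theorem thinK {k : ℕ} (α : Fin k → ℝ) (hα : ∀ i, IsAlgebraic ℚ (α i))
    (hlin : LinearIndependent ℚ (Fin.cons 1 α : Fin (k + 1) → ℝ)) (D K : ℕ) (hK : 1 ≤ K) :
    ∃ A : ℝ, 0 ≤ A ∧ ∀ b : ℕ, 2 ≤ b → ∀ C : ℝ, 1 ≤ C →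
      Thin (DepV b α D (K * C)) (A * (C ^ 2 * (1 + Real.log C))) := by
  obtain ⟨A, hA, h⟩ := thinV α hα hlin D
  have hKR : (1 : ℝ) ≤ K := by exact_mod_cast hK
  have hl := Real.log_nonneg hKR
  refine ⟨A * ((K : ℝ) ^ 2 * (1 + Real.log K)), by positivity, fun b hb C hC => ?_⟩
  refine (h b hb (K * C) (by nlinarith)).mono (fun L _ h => h) ?_
  rw [mul_assoc]
  exact mul_le_mul_of_nonneg_left (powlog_scaleK K hKR C hC) hA

/-- affine copies of `D` windows, no errors -/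
theorem finSA {k : ℕ} (α : Fin k → ℝ) (hα : ∀ i, IsAlgebraic ℚ (α i))
    (hlin : LinearIndependent ℚ (Fin.cons 1 α : Fin (k + 1) → ℝ)) (D K : ℕ) (hK : 1 ≤ K) :
    ∃ c : ℝ, 0 < c ∧ ∃ N₀ : ℕ, ∀ b : ℕ, 2 ≤ b → ∀ i₀ : Fin k, ∀ N ≥ N₀, ∀ (v : ℕ → ℝ) (z : ℕ),
      ProducesS i₀ D K (fun i t => (dg b (α i) (t + 1) : ℝ)) v N z →
      (∀ t < N, v t = (dg b (α i₀) (t + 1) : ℝ)) →
      c * (Real.log N ^ (3 / 2 : ℝ) / Real.log (Real.log N) ^ (1 / 2 : ℝ)) ≤ z := by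
  obtain ⟨A, hA, hthin⟩ := thinK α hα hlin (2 * D + 1 + 1) K hK
  obtain ⟨A', h⟩ := main_a 2 (by norm_num) A hA
  obtain ⟨c, hc, N₀, hr⟩ := rate_c 2 1 (by norm_num) (max A' 0)
  have e1 : (1 : ℝ) + 1 / ((2 : ℕ) : ℝ) = 3 / 2 := by norm_num
  have e2 : ((1 : ℕ) : ℝ) / ((2 : ℕ) : ℝ) = 1 / 2 := by norm_num
  rw [e1, e2] at hr
  refine ⟨c, hc, N₀, fun b hb i₀ N hN v z hP hv => hr N hN z (fun ρ hρ => ?_)⟩
  refine h b (α i₀) (2 * D + 1 + 1) (fun C => DepV b α (2 * D + 1 + 1) (K * C))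
    (LinCopyS i₀ (2 * D + 1) K (fun i t => (dg b (α i) (t + 1) : ℝ)))
    (locS b α i₀ (2 * D + 1) K hK) (fun C hC => hthin b hb C hC) N z v (brkS hK hP) hv ρ ?_
  refine le_trans ?_ hρ
  have h2 : (0 : ℝ) < 2 ^ (2 * ρ) := by positivity
  have h3 : (0 : ℝ) ≤ (ρ : ℝ) := Nat.cast_nonneg _
  have h4 : (2 : ℝ) ^ (2 * ρ) * ((ρ : ℝ) + 1) ≤ 2 ^ (2 * ρ) * ((ρ : ℝ) + 2) ^ 1 := by
    rw [pow_one]
    exact mul_le_mul_of_nonneg_left (by linarith) h2.le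
  exact mul_le_mul (le_max_left _ _) h4 (by positivity) (le_max_right _ _)

/-- affine copies of `D` windows, with errors -/
theorem finSE {k : ℕ} (α : Fin k → ℝ) (hα : ∀ i, IsAlgebraic ℚ (α i))
    (hlin : LinearIndependent ℚ (Fin.cons 1 α : Fin (k + 1) → ℝ)) (D K : ℕ) (hK : 1 ≤ K) :
    ∃ c : ℝ, 0 < c ∧ ∃ N₀ : ℕ, ∀ b : ℕ, 2 ≤ b → ∀ i₀ : Fin k, ∀ N ≥ N₀, ∀ (v : ℕ → ℝ) (z : ℕ),
      ProducesS i₀ D K (fun i t => (dg b (α i) (t + 1) : ℝ)) v N z →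
      c * (Real.log N ^ (5 / 4 : ℝ) / Real.log (Real.log N) ^ (3 / 4 : ℝ)) ≤
        ((z + #{t ∈ Finset.range N | v t ≠ (dg b (α i₀) (t + 1) : ℝ)} : ℕ) : ℝ) := by
  obtain ⟨A, hA, hthin⟩ := thinK α hα hlin (2 * D + 1 + 1) K hK
  obtain ⟨A', h⟩ := main_b 2 (by norm_num) A hA (2 * D + 1 + 1)
  obtain ⟨c, hc, N₀, hr⟩ := rate_c 4 3 (by norm_num) A'
  have e1 : (1 : ℝ) + 1 / ((4 : ℕ) : ℝ) = 5 / 4 := by norm_num
  have e2 : ((3 : ℕ) : ℝ) / ((4 : ℕ) : ℝ) = 3 / 4 := by norm_num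
  rw [e1, e2] at hr
  refine ⟨c, hc, N₀, fun b hb i₀ N hN v z hP => hr N hN _ (fun ρ hρ => ?_)⟩
  exact h b (α i₀) (fun C => DepV b α (2 * D + 1 + 1) (K * C))
    (LinCopyS i₀ (2 * D + 1) K (fun i t => (dg b (α i) (t + 1) : ℝ)))
    (locS b α i₀ (2 * D + 1) K hK)
    (fun C hC => hthin b hb C hC) N z v (brkS hK hP) ρ hρ

end Pool.Agent.H723.QJ
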