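import Mathlib

/-! A numerical lemma. -/

set_option autoImplicit false

open Finset

namespace Pool.Agent.H723.QJ

/-- the largest parameter for which there are few exceptional scales -/
theorem few_K (A : ℝ) (hA : 0 ≤ A) (ε : ℝ) (hε : 0 < ε) :
    ∃ c : ℝ, 0 < c ∧ ∃ J₀ : ℕ, ∀ J ≥ J₀, ∃ K : ℕ, 1 ≤ K ∧
      c * ((J : ℝ) / Real.log J) ^ (1 / 2 : ℝ) ≤ K ∧
      A * ((K : ℝ) ^ 2 * (1 + Real.log K)) ≤ ε * J := by
  obtain ⟨c, hc⟩ : ∃ c : ℝ, c = min (1 / 2) (Real.sqrt (ε / (6 * (A + 1)))) := ⟨_, rfl⟩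
  have hc0 : 0 < c := by
    rw [hc]; exact lt_min (by norm_num) (Real.sqrt_pos.mpr (by positivity))
  have hc2 : c ≤ 1 / 2 := by rw [hc]; exact min_le_left _ _
  have hc3 : c ^ 2 ≤ ε / (6 * (A + 1)) := by
    have h1 : c ≤ Real.sqrt (ε / (6 * (A + 1))) := by rw [hc]; exact min_le_right _ _
    have h2 := pow_le_pow_left₀ hc0.le h1 2
    rwa [Real.sq_sqrt (by positivity)] at h2
  have hc4 : 6 * A * c ^ 2 ≤ ε := by
    rw [le_div_iff₀ (by positivity)] at hc3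
    nlinarith [sq_nonneg c]
  refine ⟨c, hc0, max 16 ⌈4 / c ^ 4⌉₊, ?_⟩
  intro J hJ
  have hJ16 : 16 ≤ J := (le_max_left _ _).trans hJ
  have hJc : 4 / c ^ 4 ≤ (J : ℝ) :=
    (Nat.le_ceil _).trans (by exact_mod_cast (le_max_right _ _).trans hJ)
  have hJR : (16 : ℝ) ≤ J := by exact_mod_cast hJ16
  have hJ0 : (0 : ℝ) < J := by linarith
  obtain ⟨Λ, hΛ⟩ : ∃ Λ, Λ = Real.log J := ⟨_, rfl⟩
  have hΛ1 : 1 ≤ Λ := by
    rw [hΛ, Real.le_log_iff_exp_le hJ0]
    have := Real.exp_one_lt_d9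
    linarith
  have hΛs : Λ ≤ 2 * Real.sqrt J := by
    have h1 : Real.log J = 2 * Real.log (Real.sqrt J) := by
      rw [Real.log_sqrt hJ0.le]; ring
    have h2 := Real.log_le_sub_one_of_pos (Real.sqrt_pos.mpr hJ0)
    rw [hΛ, h1]; linarith
  obtain ⟨X, hX⟩ : ∃ X : ℝ, X = ((J : ℝ) / Λ) ^ (1 / 2 : ℝ) := ⟨_, rfl⟩
  have hX0 : 0 < X := by rw [hX]; exact Real.rpow_pos_of_pos (by positivity) _
  have hX2 : X ^ 2 = J / Λ := by
    rw [hX, ← Real.sqrt_eq_rpow, Real.sq_sqrt (by positivity)]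
  have hXc : 1 ≤ c * X := by
    have h1 : Real.sqrt J / 2 ≤ J / Λ := by
      rw [div_le_div_iff₀ (by norm_num) (by linarith)]
      have h2 : Real.sqrt J * Real.sqrt J = J := Real.mul_self_sqrt hJ0.le
      calc Real.sqrt J * Λ ≤ Real.sqrt J * (2 * Real.sqrt J) :=
            mul_le_mul_of_nonneg_left hΛs (Real.sqrt_nonneg _)
        _ = (Real.sqrt J * Real.sqrt J) * 2 := by ring
        _ = J * 2 := by rw [h2]
    have h2 : 2 / c ^ 2 ≤ Real.sqrt J := by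
      apply Real.le_sqrt_of_sq_le
      have : (2 / c ^ 2) ^ 2 = 4 / c ^ 4 := by rw [div_pow]; ring
      rw [this]; exact hJc
    have h3 : 1 / c ^ 2 ≤ X ^ 2 := by
      rw [hX2]
      have : 1 / c ^ 2 = (2 / c ^ 2) / 2 := by ring
      rw [this]; linarith
    have h4 : 1 ≤ (c * X) ^ 2 := by
      rw [mul_pow]
      rw [div_le_iff₀ (by positivity)] at h3
      linarith
    by_contra hcon
    push Not at hcon
    have h5 : 0 < c * X := by positivity
    nlinarith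
  obtain ⟨K, hK⟩ : ∃ K : ℕ, K = ⌈c * X⌉₊ := ⟨_, rfl⟩
  have hKge : c * X ≤ K := by rw [hK]; exact Nat.le_ceil _
  have hKlt : (K : ℝ) < c * X + 1 := by rw [hK]; exact Nat.ceil_lt_add_one (by positivity)
  have hK1 : 1 ≤ K := by
    have : (1 : ℝ) ≤ K := hXc.trans hKge
    exact_mod_cast this
  have hKR : (1 : ℝ) ≤ K := by exact_mod_cast hK1
  have hK2 : (K : ℝ) ≤ 2 * c * X := by linarith
  have hKX : (K : ℝ) ≤ X := by nlinarith
  have hlogK : 1 + Real.log K ≤ 3 / 2 * Λ := by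
    have h1 : Real.log K ≤ Real.log X := Real.log_le_log (by linarith) hKX
    have h2 : Real.log (X ^ 2) ≤ Real.log J := by
      apply Real.log_le_log (by positivity)
      rw [hX2]
      exact div_le_self hJ0.le hΛ1
    rw [Real.log_pow] at h2
    push_cast at h2
    rw [← hΛ] at h2
    linarith
  refine ⟨K, hK1, ?_, ?_⟩
  · rw [← hΛ, ← hX]
    exact hKge
  have h3 : (K : ℝ) ^ 2 ≤ 4 * c ^ 2 * (J / Λ) := by
    have := pow_le_pow_left₀ (by linarith) hK2 2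
    rw [← hX2]
    calc (K : ℝ) ^ 2 ≤ (2 * c * X) ^ 2 := this
      _ = _ := by ring
  have hlogK0 : 0 ≤ 1 + Real.log K := by have := Real.log_nonneg hKR; linarith
  calc A * ((K : ℝ) ^ 2 * (1 + Real.log K)) ≤ A * (4 * c ^ 2 * (J / Λ) * (3 / 2 * Λ)) := by
        apply mul_le_mul_of_nonneg_left _ hA
        exact mul_le_mul h3 hlogK hlogK0 (by positivity)
    _ = (6 * A * c ^ 2) * J := by
        have : Λ ≠ 0 := by linarith
        field_simp
        ring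
    _ ≤ ε * J := mul_le_mul_of_nonneg_right hc4 hJ0.le

end Pool.Agent.H723.QJ
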