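import Mathlib
import Pool.Agent.H723.QJ.MainV
import Pool.Agent.H723.QJ.FewK

/-! Independent windows at almost all dyadic scales. -/

set_option autoImplicit false

open Finset

namespace Pool.Agent.H723.QJ

open Pool.Agent.H723.QP Pool.Agent.H723.QR

/-- at almost all dyadic scales the windows which start at the first places are independent -/
theorem mostV {k : ℕ} (α : Fin k → ℝ) (hα : ∀ i, IsAlgebraic ℚ (α i))
    (hlin : LinearIndependent ℚ (Fin.cons 1 α : Fin (k + 1) → ℝ)) (D : ℕ) (ε : ℝ) (hε : 0 < ε) :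
    ∃ c : ℝ, 0 < c ∧ ∃ J₀ : ℕ, ∀ b : ℕ, 2 ≤ b → ∀ J ≥ J₀, ∃ X : Finset ℕ, (#X : ℝ) ≤ ε * J ∧
      ∀ j ≤ J, j ∉ X → ∀ t : Fin D → Fin k × ℕ, Function.Injective t →
        (∀ l, ((t l).2 : ℝ) ≤ c * (2 ^ j * ((J : ℝ) / Real.log J) ^ (1 / 2 : ℝ))) →
        LinearIndependent ℝ (fun (l : Fin D) (i : Fin (2 ^ j)) =>
          (dg b (α (t l).1) ((t l).2 + i + 1) : ℝ)) := by
  classical
  obtain ⟨A, hA, hthin⟩ := thinV α hα hlin D
  obtain ⟨c, hc, J₀, h⟩ := few_K A hA ε hε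
  refine ⟨c, hc, J₀, fun b hb J hJ => ?_⟩
  obtain ⟨K, hK1, hKc, hKA⟩ := h J hJ
  have hKR : (1 : ℝ) ≤ K := by exact_mod_cast hK1
  refine ⟨{j ∈ Finset.range (J + 1) | DepV b α D K (2 ^ j)}, ?_, ?_⟩
  · refine le_trans ?_ hKA
    have hT := hthin b hb K hKR ({j ∈ Finset.range (J + 1) | DepV b α D K (2 ^ j)}.image
      (fun j => 2 ^ j)) ?_ ?_
    · rw [Finset.card_image_of_injective _ (Nat.pow_right_injective (le_refl 2))] at hT
      exact hT
    · constructor
      · intro L hL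
        obtain ⟨j, _, rfl⟩ := Finset.mem_image.mp hL
        exact Nat.one_le_two_pow
      · intro L hL L' hL' hlt
        obtain ⟨j, _, rfl⟩ := Finset.mem_image.mp hL
        obtain ⟨j', _, rfl⟩ := Finset.mem_image.mp hL'
        have h3 : j < j' := (Nat.pow_lt_pow_iff_right (by norm_num)).mp hlt
        calc 2 * 2 ^ j = 2 ^ (j + 1) := by rw [pow_succ]; ring
          _ ≤ 2 ^ j' := Nat.pow_le_pow_right (by norm_num) h3
    · intro L hL
      obtain ⟨j, hj, rfl⟩ := Finset.mem_image.mp hL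
      exact (Finset.mem_filter.mp hj).2
  · intro j hj hjX t ht hpos
    by_contra hdep
    apply hjX
    rw [Finset.mem_filter, Finset.mem_range]
    refine ⟨by omega, D, le_rfl, t, ht, fun l => ?_, hdep⟩
    refine (hpos l).trans ?_
    have h2 : (0 : ℝ) < 2 ^ j := by positivity
    push_cast
    calc c * (2 ^ j * ((J : ℝ) / Real.log J) ^ (1 / 2 : ℝ)) =
          (c * ((J : ℝ) / Real.log J) ^ (1 / 2 : ℝ)) * 2 ^ j := by ring
      _ ≤ K * 2 ^ j := mul_le_mul_of_nonneg_right hKc h2.le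

end Pool.Agent.H723.QJ
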