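import Mathlib
import Pool.Agent.H723.QJ.MostV
import Pool.Agent.H723.QR.BlockLog

/-! Independent windows for almost all lengths, in the sense of logarithmic density. -/

set_option autoImplicit false

open Finset

namespace Pool.Agent.H723.QJ

open Pool.Agent.H723.QP Pool.Agent.H723.QR

/-- longer windows are independent if their first parts are -/
theorem indep_of_part {D m n : ℕ} (h : m ≤ n) (w : Fin D → Fin n → ℝ)
    (hm : LinearIndependent ℝ (fun (l : Fin D) (i : Fin m) => w l (Fin.castLE h i))) :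
    LinearIndependent ℝ w := by
  have h1 : (fun (l : Fin D) (i : Fin m) => w l (Fin.castLE h i)) =
      (LinearMap.funLeft ℝ ℝ (Fin.castLE h)) ∘ w := by
    funext l i
    rfl
  rw [h1] at hm
  exact hm.of_comp _

/-- for almost all lengths the windows which start at the first places are independent -/
theorem mostN {k : ℕ} (α : Fin k → ℝ) (hα : ∀ i, IsAlgebraic ℚ (α i))
    (hlin : LinearIndependent ℚ (Fin.cons 1 α : Fin (k + 1) → ℝ)) (D : ℕ) (ε : ℝ) (hε : 0 < ε) :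
    ∃ c : ℝ, 0 < c ∧ ∃ N₀ : ℕ, ∀ b : ℕ, 2 ≤ b → ∀ N ≥ N₀, ∃ E : Finset ℕ,
      ∑ n ∈ E, (1 : ℝ) / n ≤ ε * Real.log N ∧
      ∀ n : ℕ, 1 ≤ n → n ≤ N → n ∉ E → ∀ t : Fin D → Fin k × ℕ, Function.Injective t →
        (∀ l, ((t l).2 : ℝ) ≤ c * (n * (Real.log N / Real.log (Real.log N)) ^ (1 / 2 : ℝ))) →
        LinearIndependent ℝ (fun (l : Fin D) (i : Fin n) =>
          (dg b (α (t l).1) ((t l).2 + i + 1) : ℝ)) := by
  classical
  obtain ⟨c, hc, J₀, h⟩ := mostV α hα hlin D (ε / 2) (by positivity)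
  refine ⟨c / 4, by positivity, max (2 ^ (J₀ + 1)) 256, ?_⟩
  intro b hb N hN
  have hN1 : 2 ^ (J₀ + 1) ≤ N := (le_max_left _ _).trans hN
  have hN2 : 256 ≤ N := (le_max_right _ _).trans hN
  have hN0 : N ≠ 0 := by omega
  obtain ⟨J, hJ⟩ : ∃ J, J = Nat.log 2 N := ⟨_, rfl⟩
  have hJN : 2 ^ J ≤ N := by rw [hJ]; exact Nat.pow_log_le_self 2 hN0
  have hJN' : N < 2 ^ (J + 1) := by rw [hJ]; exact Nat.lt_pow_succ_log_self (by norm_num) N
  have hJJ : J₀ ≤ J := by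
    have h1 : 2 ^ (J₀ + 1) < 2 ^ (J + 1) := hN1.trans_lt hJN'
    have := (Nat.pow_lt_pow_iff_right (by norm_num : 1 < 2)).mp h1
    omega
  have hJ8 : 8 ≤ J := by
    have h1 : 2 ^ 8 < 2 ^ (J + 1) := lt_of_le_of_lt (by norm_num; exact hN2) hJN'
    have := (Nat.pow_lt_pow_iff_right (by norm_num : 1 < 2)).mp h1
    omega
  obtain ⟨hJL, hX0, hXY⟩ := block_cmp hJN hJN' hJ8
  obtain ⟨Bad, hcard, hgood⟩ := h b hb J hJJ
  obtain ⟨X, hX⟩ : ∃ X : ℝ, X = (Real.log N / Real.log (Real.log N)) ^ (1 / 2 : ℝ) := ⟨_, rfl⟩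
  obtain ⟨Y, hY⟩ : ∃ Y : ℝ, Y = ((J : ℝ) / Real.log J) ^ (1 / 2 : ℝ) := ⟨_, rfl⟩
  rw [← hX] at hX0
  rw [← hX, ← hY] at hXY
  rw [← hY] at hgood
  rw [← hX]
  obtain ⟨S, hS⟩ : ∃ S, S = {n ∈ Finset.Icc 1 N | Nat.log 2 n ∈ Bad} := ⟨_, rfl⟩
  have hmem : ∀ n ∈ S, 2 ^ (Nat.log 2 n) ≤ n ∧ n < 2 ^ (Nat.log 2 n + 1) := by
    intro n hn
    rw [hS, Finset.mem_filter, Finset.mem_Icc] at hn
    exact ⟨Nat.pow_log_le_self 2 (by omega), Nat.lt_pow_succ_log_self (by norm_num) n⟩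
  have hmaps : ∀ n ∈ S, Nat.log 2 n ∈ Bad := by
    intro n hn
    rw [hS, Finset.mem_filter] at hn
    exact hn.2
  refine ⟨S, ?_, ?_⟩
  · have hsum : ∑ n ∈ S, (1 : ℝ) / n ≤ (#Bad : ℝ) := by
      rw [← Finset.sum_fiberwise_of_maps_to hmaps (fun n : ℕ => (1 : ℝ) / n)]
      have h1 : ∀ j ∈ Bad, ∑ n ∈ S with Nat.log 2 n = j, (1 : ℝ) / n ≤ 1 := by
        intro j _
        refine sum_inv_fiber _ j fun n hn => ?_
        rw [Finset.mem_filter] at hn
        have h2 := hmem n hn.1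
        rw [hn.2] at h2
        exact h2
      refine (Finset.sum_le_sum h1).trans ?_
      simp
    calc ∑ n ∈ S, (1 : ℝ) / n ≤ (#Bad : ℝ) := hsum
      _ ≤ ε / 2 * J := hcard
      _ ≤ ε / 2 * (2 * Real.log N) := mul_le_mul_of_nonneg_left hJL (by positivity)
      _ = ε * Real.log N := by ring
  · intro n hn1 hnN hnS t ht hpos
    have hj : Nat.log 2 n ∉ Bad := by
      intro hcon
      apply hnS
      rw [hS, Finset.mem_filter, Finset.mem_Icc]
      exact ⟨⟨hn1, hnN⟩, hcon⟩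
    have hjJ : Nat.log 2 n ≤ J := by rw [hJ]; exact Nat.log_mono_right hnN
    have h1 : 2 ^ Nat.log 2 n ≤ n := Nat.pow_log_le_self 2 (by omega)
    have h2 : n < 2 ^ (Nat.log 2 n + 1) := Nat.lt_pow_succ_log_self (by norm_num) n
    apply indep_of_part h1
    refine hgood (Nat.log 2 n) hjJ hj t ht fun l => (hpos l).trans ?_
    have h4 : (n : ℝ) ≤ 2 * 2 ^ Nat.log 2 n := by
      have h5 : n ≤ 2 * 2 ^ Nat.log 2 n := by
        rw [pow_succ] at h2
        omega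
      exact_mod_cast h5
    have h5 : (n : ℝ) * X ≤ (2 * 2 ^ Nat.log 2 n) * (2 * Y) :=
      mul_le_mul h4 hXY hX0 (by positivity)
    calc c / 4 * (n * X) ≤ c / 4 * ((2 * 2 ^ Nat.log 2 n) * (2 * Y)) :=
          mul_le_mul_of_nonneg_left h5 (by positivity)
      _ = c * ((2 : ℝ) ^ Nat.log 2 n * Y) := by ring

end Pool.Agent.H723.QJ
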