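import Mathlib
import Pool.Agent.H723.QJ.MostN

/-! The block complexity of linear combinations of the expansions of several numbers. -/

set_option autoImplicit false

open Finset

namespace Pool.Agent.H723.QJ

open Pool.Agent.H723.QP Pool.Agent.H723.QR

/-- a linear combination of shifts of the expansions -/
noncomputable def comb {k r : ℕ} (b : ℕ) (α : Fin k → ℝ) (c : Fin k → Fin r → ℝ) (n : ℕ) : ℝ :=
  ∑ i, ∑ j, c i j * (dg b (α i) (n + j) : ℝ)

theorem comb_finite {k r b : ℕ} (hb : 2 ≤ b) (α : Fin k → ℝ) (c : Fin k → Fin r → ℝ) (n : ℕ) :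
    (Set.range (fun (t : ℕ) (i : Fin n) => comb b α c (t + i + 1))).Finite := by
  have hV : (Set.range (fun (w : Fin k → Fin r → Fin (b + 1)) =>
      ∑ i, ∑ j, c i j * ((w i j : ℕ) : ℝ))).Finite := Set.finite_range _
  refine (Set.Finite.pi' (fun _ : Fin n => hV)).subset ?_
  rintro f ⟨t, rfl⟩
  intro i
  refine ⟨fun l j => ⟨(dg b (α l) (t + i + 1 + j)).toNat, ?_⟩, ?_⟩
  · have h1 := dg_lt hb (α l) (t + i + 1 + j)
    have h2 := dg_nonneg hb (α l) (t + i + 1 + j)
    omega
  · simp only [comb]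
    refine Finset.sum_congr rfl fun l _ => Finset.sum_congr rfl fun j _ => ?_
    congr 1
    have h2 := dg_nonneg hb (α l) (t + i + 1 + j)
    have h3 : (((dg b (α l) (t + i + 1 + j)).toNat : ℤ) : ℝ) = (dg b (α l) (t + i + 1 + j) : ℝ) := by
      rw [Int.toNat_of_nonneg h2]
    exact_mod_cast h3

/-- equal windows of a combination give dependent windows -/
theorem comb_ne {k r b : ℕ} (α : Fin k → ℝ) (c : Fin k → Fin r → ℝ) (hc : c ≠ 0) (n u v : ℕ)
    (huv : u + r ≤ v) (B : ℝ) (hB : ((v + r : ℕ) : ℝ) ≤ B)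
    (h : ∀ t : Fin (2 * (k * r)) → Fin k × ℕ, Function.Injective t → (∀ l, ((t l).2 : ℝ) ≤ B) →
      LinearIndependent ℝ (fun (l : Fin (2 * (k * r))) (i : Fin n) =>
        (dg b (α (t l).1) ((t l).2 + i + 1) : ℝ))) :
    (fun i : Fin n => comb b α c (u + i + 1)) ≠ (fun i : Fin n => comb b α c (v + i + 1)) := by
  classical
  intro heq
  have hcard : Fintype.card (Fin 2 × Fin k × Fin r) = 2 * (k * r) := by
    simp [Fintype.card_prod]
  let e : Fin 2 × Fin k × Fin r ≃ Fin (2 * (k * r)) := Fintype.equivFinOfCardEq hcard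
  let t' : Fin 2 × Fin k × Fin r → Fin k × ℕ := fun x => (x.2.1, (if x.1 = 0 then u else v) + x.2.2)
  have ht' : Function.Injective t' := by
    rintro ⟨x1, x2, x3⟩ ⟨y1, y2, y3⟩ hxy
    simp only [t', Prod.mk.injEq] at hxy
    obtain ⟨h1, h2⟩ := hxy
    have h3 := x3.2
    have h4 := y3.2
    have h5 : x1 = y1 := by
      fin_cases x1 <;> fin_cases y1 <;> simp at h2 ⊢ <;> omega
    subst h5
    have h6 : (x3 : ℕ) = y3 := by omega
    simp only [Prod.mk.injEq, true_and]
    exact ⟨h1, Fin.ext h6⟩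
  have hli := h (t' ∘ e.symm) (ht'.comp e.symm.injective) (by
    intro l
    refine le_trans ?_ hB
    have h3 := (e.symm l).2.2.2
    have h4 : (t' (e.symm l)).2 ≤ v + r := by
      simp only [t']
      split_ifs <;> omega
    exact_mod_cast h4)
  have hli' : LinearIndependent ℝ (fun (x : Fin 2 × Fin k × Fin r) (i : Fin n) =>
      (dg b (α (t' x).1) ((t' x).2 + i + 1) : ℝ)) := by
    rw [← linearIndependent_equiv e.symm]
    exact hli
  rw [Fintype.linearIndependent_iff] at hli'
  apply hc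
  funext i j
  have h1 := hli' (fun x => (if x.1 = 0 then (1 : ℝ) else -1) * c x.2.1 x.2.2) (by
    funext y
    have h2 := congrFun heq y
    simp only [comb] at h2
    rw [Finset.sum_apply, Fintype.sum_prod_type, Fin.sum_univ_two]
    simp only [Pi.smul_apply, smul_eq_mul, Pi.zero_apply, t', if_true, one_mul]
    simp only [show (1 : Fin 2) = 0 ↔ False by decide, if_false, Fintype.sum_prod_type]
    have h3 : ∀ w : ℕ, ∑ i, ∑ j, c i j * (dg b (α i) (w + y + 1 + j) : ℝ) =
        ∑ i, ∑ j : Fin r, c i j * (dg b (α i) (w + j + y + 1) : ℝ) := by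
      intro w
      refine Finset.sum_congr rfl fun i _ => Finset.sum_congr rfl fun j _ => ?_
      rw [show w + (y : ℕ) + 1 + j = w + j + y + 1 by ring]
    rw [h3, h3] at h2
    simp only [neg_mul, one_mul, Finset.sum_neg_distrib]
    linarith) (0, i, j)
  simpa using h1

end Pool.Agent.H723.QJ
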