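import Mathlib
import Pool.Agent.H723.QJ.Comb
import Pool.Agent.H723.QR.Theta

/-! The block complexity of linear combinations of the expansions of several numbers. -/

set_option autoImplicit false

open Finset

namespace Pool.Agent.H723.QJ

open Pool.Agent.H723.QP Pool.Agent.H723.QR

/-- **The block complexity of all linear combinations of shifts of the expansions**, for almost all
lengths, uniformly in the base and in the coefficients. -/
theorem comb_most {k : ℕ} (α : Fin k → ℝ) (hα : ∀ i, IsAlgebraic ℚ (α i))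
    (hlin : LinearIndependent ℚ (Fin.cons 1 α : Fin (k + 1) → ℝ)) (r : ℕ) (ε : ℝ) (hε : 0 < ε) :
    ∃ c₁ : ℝ, 0 < c₁ ∧ ∃ N₀ : ℕ, ∀ b : ℕ, 2 ≤ b → ∀ N ≥ N₀, ∃ E : Finset ℕ,
      ∑ n ∈ E, (1 : ℝ) / n ≤ ε * Real.log N ∧
      ∀ n : ℕ, 1 ≤ n → n ≤ N → n ∉ E → ∀ c : Fin k → Fin r → ℝ, c ≠ 0 →
        c₁ * (n * (Real.log N / Real.log (Real.log N)) ^ (1 / 2 : ℝ)) ≤
          (Set.range (fun (t : ℕ) (i : Fin n) => comb b α c (t + i + 1))).ncard := by
  classical
  obtain ⟨c0, hc0, N1, h⟩ := mostN α hα hlin (2 * (k * r)) ε hε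
  have hr0 : (0 : ℝ) < (r : ℝ) + 1 := by positivity
  obtain ⟨N2, h2⟩ := theta_of_log (c0 / (2 * ((r : ℝ) + 1))) (by positivity) 0 le_rfl (by norm_num)
  refine ⟨c0 / (2 * ((r : ℝ) + 1)), by positivity, max N1 N2, fun b hb N hN => ?_⟩
  obtain ⟨E, hE, hgood⟩ := h b hb N ((le_max_left _ _).trans hN)
  refine ⟨E, hE, fun n hn1 hnN hnE c hc => ?_⟩
  obtain ⟨X, hX⟩ : ∃ X : ℝ, X = (Real.log N / Real.log (Real.log N)) ^ (1 / 2 : ℝ) := ⟨_, rfl⟩
  have h3 := h2 N ((le_max_right _ _).trans hN) n hn1 hnN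
  have hgood' := hgood n hn1 hnN hnE
  rw [← hX] at h3 hgood' ⊢
  have hn0 : (1 : ℝ) ≤ n := by exact_mod_cast hn1
  rw [Real.rpow_zero, mul_one] at h3
  obtain ⟨B, hB⟩ : ∃ B : ℝ, B = c0 * (n * X) := ⟨_, rfl⟩
  rw [← hB] at hgood'
  have hB2 : c0 / (2 * ((r : ℝ) + 1)) * (n * X) = B / ((r : ℝ) + 1) / 2 := by
    rw [hB]; field_simp
  rw [hB2] at h3 ⊢
  obtain ⟨M, hM⟩ : ∃ M : ℕ, M = ⌊B / ((r : ℝ) + 1)⌋₊ := ⟨_, rfl⟩
  have hBr : 2 ≤ B / ((r : ℝ) + 1) := by linarith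
  have hM1 : (M : ℝ) ≤ B / ((r : ℝ) + 1) := by rw [hM]; exact Nat.floor_le (by linarith)
  have hM2 : B / ((r : ℝ) + 1) < M + 1 := by rw [hM]; exact Nat.lt_floor_add_one _
  have hM3 : (((r + 1) * M : ℕ) : ℝ) ≤ B := by
    rw [le_div_iff₀ hr0] at hM1
    push_cast
    linarith
  have hinj : Set.InjOn (fun l : ℕ => (fun i : Fin n => comb b α c ((r + 1) * l + i + 1)))
      (Finset.range M : Set ℕ) := by
    have aux : ∀ l l' : ℕ, l < l' → l' < M →
        (fun i : Fin n => comb b α c ((r + 1) * l + i + 1)) ≠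
        (fun i : Fin n => comb b α c ((r + 1) * l' + i + 1)) := by
      intro l l' hll hl'
      have h5 : (r + 1) * (l + 1) ≤ (r + 1) * l' := Nat.mul_le_mul_left _ hll
      have h6 : (r + 1) * (l' + 1) ≤ (r + 1) * M := Nat.mul_le_mul_left _ hl'
      rw [Nat.mul_add] at h5 h6
      refine comb_ne α c hc n ((r + 1) * l) ((r + 1) * l') (by omega) B ?_ hgood'
      refine le_trans ?_ hM3
      exact_mod_cast (by omega : (r + 1) * l' + r ≤ (r + 1) * M)
    intro l hl l' hl' heq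
    rw [Finset.mem_coe, Finset.mem_range] at hl hl'
    rcases lt_trichotomy l l' with hlt | heq' | hlt
    · exact absurd heq (aux l l' hlt hl')
    · exact heq'
    · exact absurd heq.symm (aux l' l hlt hl)
  have hcard : M ≤ (Set.range (fun (t : ℕ) (i : Fin n) => comb b α c (t + i + 1))).ncard := by
    have h7 : ((fun l : ℕ => (fun i : Fin n => comb b α c ((r + 1) * l + i + 1))) ''
        (Finset.range M : Set ℕ)).ncard = M := by
      rw [hinj.ncard_image, Set.ncard_coe_finset, Finset.card_range]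
    rw [← h7]
    refine Set.ncard_le_ncard ?_ (comb_finite hb α c n)
    rintro w ⟨l, _, rfl⟩
    exact ⟨(r + 1) * l, rfl⟩
  have h8 : (M : ℝ) ≤ ((Set.range (fun (t : ℕ) (i : Fin n) => comb b α c (t + i + 1))).ncard : ℝ) := by
    exact_mod_cast hcard
  linarith

/-- the hypothesis for one number -/
theorem lin_one {ξ : ℝ} (hirr : Irrational ξ) :
    LinearIndependent ℚ (Fin.cons 1 (fun _ : Fin 1 => ξ) : Fin (1 + 1) → ℝ) := by
  rw [Fintype.linearIndependent_iff]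
  intro g hg
  rw [Fin.sum_univ_succ] at hg
  simp only [Fin.cons_zero, Fin.cons_succ, Finset.univ_unique, Fin.default_eq_zero,
    Finset.sum_singleton, Rat.smul_def, mul_one] at hg
  obtain ⟨y, hy⟩ : ∃ y : ℚ, y = g (Fin.succ 0) := ⟨_, rfl⟩
  obtain ⟨x, hx⟩ : ∃ x : ℚ, x = g 0 := ⟨_, rfl⟩
  rw [← hy, ← hx] at hg
  have h1 : y = 0 := by
    by_contra hne
    apply hirr
    refine ⟨-x / y, ?_⟩
    have h2 : ((y : ℚ) : ℝ) ≠ 0 := by exact_mod_cast hne
    push_cast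
    rw [div_eq_iff h2]
    linarith
  have h0 : x = 0 := by
    rw [h1] at hg
    have : ((x : ℚ) : ℝ) = 0 := by simpa using hg
    exact_mod_cast this
  intro i
  refine Fin.cases (hx.symm.trans h0) (fun i => ?_) i
  rw [Fin.fin_one_eq_zero i]
  exact hy.symm.trans h1

end Pool.Agent.H723.QJ
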